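import Pool.Agent.R602.ZR.Prod

/-!
# Realcompact, strongly zero-dimensional and ℕ-compact spaces in a model: definitions
-/

set_option autoImplicit false

namespace Pool.Agent.R602.ZR

open FirstOrder FirstOrder.Language
open Pool.Agent.Helper672.ZFA
open Pool.Agent.Y9.ZR (FiniteIn)

universe u

variable {M : Type u} [L.Structure M]

/-- The function `f` is given by an element of the model. -/
def IntFun {X Y : M} (f : El X → El Y) : Prop :=
  ∃ g : M, ∀ (x : El X) (y : El Y), f x = y ↔ ∃ p, IsOrdPair p x.1 y.1 ∧ Mem p g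

/-- The set `N` is the set of the natural numbers of the model. -/
def IsOmega (N : M) : Prop := IsSet N ∧ ∀ n, Mem n N ↔ IsNatIn n

/-- In the model, `h` is a homeomorphism of the space `(X, τ)` onto a closed subspace of the power
`R ^ J` (with the product topology) of the field `R` of real numbers; the image of `x` is the
function `j ↦ h x j`. -/
structure IsClosedRealEmb (R : M) [Field (El R)] [LinearOrder (El R)] (X τ J : M)
    (h : El X → El J → El R) : Prop where
  int : IntOp h
  inj : ∀ x y, (∀ j, h x j = h y j) → x = y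
  top : ∀ U, Mem U τ ↔ IsSub U X ∧ ∀ x : El X, Mem x.1 U →
    ∃ (F : M) (e : El R), IsSub F J ∧ FiniteIn F ∧ 0 < e ∧
      ∀ y : El X, (∀ j : El J, Mem j.1 F → |h x j - h y j| < e) → Mem y.1 U
  closed : ∀ p : El J → El R, IntFun p →
    (∀ (F : M) (e : El R), IsSub F J → FiniteIn F → 0 < e →
      ∃ x, ∀ j : El J, Mem j.1 F → |h x j - p j| < e) → ∃ x, ∀ j, h x j = p j

/-- In the model, `h` is a homeomorphism of the space `(X, τ)` onto a closed subspace of the power
`N ^ J` (with the product topology) of the discrete space `N`; the image of `x` is the function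
`j ↦ h x j`. -/
structure IsClosedNatEmb (N X τ J : M) (h : El X → El J → El N) : Prop where
  int : IntOp h
  inj : ∀ x y, (∀ j, h x j = h y j) → x = y
  top : ∀ U, Mem U τ ↔ IsSub U X ∧ ∀ x : El X, Mem x.1 U →
    ∃ F : M, IsSub F J ∧ FiniteIn F ∧
      ∀ y : El X, (∀ j : El J, Mem j.1 F → h x j = h y j) → Mem y.1 U
  closed : ∀ p : El J → El N, IntFun p →
    (∀ F : M, IsSub F J → FiniteIn F → ∃ x, ∀ j : El J, Mem j.1 F → h x j = p j) →
      ∃ x, ∀ j, h x j = p j

/-- In the model, the space `(X, τ)` is realcompact. -/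
def Realcompact (R : M) [Field (El R)] [LinearOrder (El R)] (X τ : M) : Prop :=
  ∃ (J : M) (h : El X → El J → El R), IsClosedRealEmb R X τ J h

/-- In the model, the space `(X, τ)` is `ℕ`-compact. -/
def NatCompact (X τ : M) : Prop :=
  ∃ (N J : M) (h : El X → El J → El N), IsOmega N ∧ IsClosedNatEmb N X τ J h

/-- In the model, `f` is a continuous real function on the space `(X, τ)`. -/
def IsContFun (R : M) [Field (El R)] [LinearOrder (El R)] (X τ : M) (f : El X → El R) : Prop :=
  IntFun f ∧ ∀ (x : El X) (e : El R), 0 < e →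
    ∃ U, Mem U τ ∧ Mem x.1 U ∧ ∀ y : El X, Mem y.1 U → |f x - f y| < e

/-- In the model, completely separated subsets `A`, `B` of the space `(X, τ)` are separated by
clopen sets: if a continuous function with values in `[0, 1]` is `0` on `A` and `1` on `B`, then
there is a clopen set `C` with `A ⊆ C` and `C ∩ B = ∅`. -/
def StronglyZeroDim (R : M) [Field (El R)] [LinearOrder (El R)] (X τ : M) : Prop :=
  ∀ (f : El X → El R) (A B : M), IsContFun R X τ f → (∀ x, 0 ≤ f x ∧ f x ≤ 1) →
    IsSub A X → IsSub B X → (∀ x : El X, Mem x.1 A → f x = 0) →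
    (∀ x : El X, Mem x.1 B → f x = 1) →
    ∃ C D, Mem C τ ∧ Mem D τ ∧ (∀ z, Mem z D ↔ Mem z X ∧ ¬ Mem z C) ∧
      (∀ z, Mem z A → Mem z C) ∧ ∀ z, Mem z B → ¬ Mem z C

end Pool.Agent.R602.ZR
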