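import Pool.Agent.Y9.ZR.Defs

/-!
# Topological spaces, metrics and quasi-metrics in a model of set theory: definitions
-/

set_option autoImplicit false

namespace Pool.Agent.R602.ZR

open FirstOrder FirstOrder.Language
open Pool.Agent.Helper672.ZFA
open Pool.Agent.Y9.ZR (FiniteIn)

universe u

variable {M : Type u} [L.Structure M]

/-- The ordered field `R` of the model `M` is a field of real numbers in `M`: addition,
multiplication and the order are given by elements of `M`, and every nonempty set of `M` of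
elements of `R` that is bounded above has a least upper bound. -/
structure RealField (R : M) [Field (El R)] [LinearOrder (El R)] [IsStrictOrderedRing (El R)] :
    Prop where
  add : IntOp (fun x y : El R => x + y)
  mul : IntOp (fun x y : El R => x * y)
  le : ∃ g : M, ∀ x y : El R, x ≤ y ↔ ∃ p, IsOrdPair p x.1 y.1 ∧ Mem p g
  sup : ∀ s : M, (∃ x : El R, Mem x.1 s) → (∃ b : El R, ∀ x : El R, Mem x.1 s → x ≤ b) →
    ∃ b : El R, IsLUB {x : El R | Mem x.1 s} b

/-- The element `u` of the model is a subset of `x`. -/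
def IsSub (u x : M) : Prop := IsSet u ∧ ∀ z, Mem z u → Mem z x

/-- In the model, `τ` is a topology on `X`. -/
structure IsTopology (X τ : M) : Prop where
  sub : ∀ U, Mem U τ → IsSub U X
  empty : ∀ U, IsSet U → (∀ z, ¬ Mem z U) → Mem U τ
  univ : ∀ U, IsSet U → (∀ z, Mem z U ↔ Mem z X) → Mem U τ
  inter : ∀ U V W, Mem U τ → Mem V τ → IsSet W → (∀ z, Mem z W ↔ Mem z U ∧ Mem z V) → Mem W τ
  sUnion : ∀ C W, (∀ U, Mem U C → Mem U τ) → IsSet W →
    (∀ z, Mem z W ↔ ∃ U, Mem U C ∧ Mem z U) → Mem W τ

/-- In the model, the space `(X, τ)` is compact: every open cover has a finite subcover. -/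
def IsCompactIn (X τ : M) : Prop :=
  ∀ C : M, (∀ U, Mem U C → Mem U τ) → (∀ z, Mem z X → ∃ U, Mem U C ∧ Mem z U) →
    ∃ F : M, FiniteIn F ∧ (∀ U, Mem U F → Mem U C) ∧ ∀ z, Mem z X → ∃ U, Mem U F ∧ Mem z U

/-- In the model, the space `(X, τ)` is Hausdorff. -/
def IsHausdorffIn (X τ : M) : Prop :=
  ∀ x y, Mem x X → Mem y X → x ≠ y →
    ∃ U V, Mem U τ ∧ Mem V τ ∧ Mem x U ∧ Mem y V ∧ ∀ z, Mem z U → ¬ Mem z V

/-- The function `d` is a quasi-metric on `X` in the model, with values in `R`. -/
structure IsQuasiMetric {X R : M} [Field (El R)] [LinearOrder (El R)]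
    (d : El X → El X → El R) : Prop where
  int : IntOp d
  nonneg : ∀ x y, 0 ≤ d x y
  self : ∀ x, d x x = 0
  tri : ∀ x y z, d x z ≤ d x y + d y z
  eq : ∀ x y, d x y = 0 → d y x = 0 → x = y

/-- The topology `τ` on `X` is induced by `d`: a subset `U` of `X` is open if and only if it
contains with each of its points `x` a ball `{y | d x y < e}` with `0 < e`. -/
def Induces (X τ : M) {R : M} [Field (El R)] [LinearOrder (El R)]
    (d : El X → El X → El R) : Prop :=
  ∀ U, Mem U τ ↔ IsSub U X ∧ ∀ x : El X, Mem x.1 U →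
    ∃ e : El R, 0 < e ∧ ∀ y : El X, d x y < e → Mem y.1 U

/-- In the model, the space `(X, τ)` is quasi-metrizable (`R` is the field of real numbers). -/
def QuasiMetrizable (R : M) [Field (El R)] [LinearOrder (El R)] (X τ : M) : Prop :=
  ∃ d : El X → El X → El R, IsQuasiMetric d ∧ Induces X τ d

/-- In the model, the space `(X, τ)` is metrizable (`R` is the field of real numbers). -/
def Metrizable (R : M) [Field (El R)] [LinearOrder (El R)] (X τ : M) : Prop :=
  ∃ d : El X → El X → El R, IsQuasiMetric d ∧ (∀ x y, d x y = d y x) ∧ Induces X τ d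

end Pool.Agent.R602.ZR
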