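import Pool.Agent.R602.ZR.Met
import Pool.Agent.R602.ZR.Defs
import Pool.Agent.Helper672.ZFA.VB

/-!
# Sets of the model as internal types
-/

set_option autoImplicit false
set_option linter.all false

namespace Pool.Agent.Helper672.ZFA.QM

open FirstOrder FirstOrder.Language
open Pool.Agent.R602.ZR
open Pool.Agent.Y9.ZR (FiniteIn)

universe u u₁ u₂ u₃

section

variable {M : Type u} [L.Structure M] [hM : IsModel M]

/-- The elements of a set of the model form an internal type. -/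
noncomputable instance instEl (X : M) : ITy M (El X) where
  code a := a.1
  inj _ _ h := Subtype.ext h
  small := by
    by_cases hX : IsSet X
    · exact ⟨X, hX, fun z => ⟨fun h => ⟨⟨z, h⟩, rfl⟩, fun ⟨a, ha⟩ => ha ▸ a.2⟩⟩
    · obtain ⟨e, he, h⟩ := small_empty (M := M)
      refine ⟨e, he, fun z => (h z).trans ⟨fun h1 => absurd h1 (Set.notMem_empty _), ?_⟩⟩
      rintro ⟨a, rfl⟩
      exact absurd (hM.atoms _ _ a.2) hX

theorem code_el {X : M} (a : El X) : code (M := M) a = a.1 := rfl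

theorem intF_of {X Y Z : M} {f : El X → El Y → El Z} (h : IntOp f) :
    IntF M (fun p : El X × El Y => f p.1 p.2) := by
  obtain ⟨g, hg⟩ := h
  refine ⟨g, fun q => ?_⟩
  obtain ⟨⟨x, y⟩, z⟩ := q
  refine Iff.trans ?_ (hg x y z).symm
  constructor
  · exact fun h1 => ⟨_, _, isOrdPair_iff.2 rfl, isOrdPair_iff.2 rfl, h1⟩
  · rintro ⟨p, q, h1, h2, h3⟩
    rw [isOrdPair_iff] at h1 h2
    subst h1 h2
    exact h3

theorem of_intF {X Y Z : M} {f : El X → El Y → El Z}
    (h : IntF M (fun p : El X × El Y => f p.1 p.2)) : IntOp f := by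
  obtain ⟨g, hg⟩ := h
  refine ⟨g, fun x y z => ?_⟩
  refine Iff.trans (hg ((x, y), z)).symm ?_
  constructor
  · exact fun h1 => ⟨_, _, isOrdPair_iff.2 rfl, isOrdPair_iff.2 rfl, h1⟩
  · rintro ⟨p, q, h1, h2, h3⟩
    rw [isOrdPair_iff] at h1 h2
    subst h1 h2
    exact h3

theorem iReal_of {R : M} [Field (El R)] [LinearOrder (El R)] [IsStrictOrderedRing (El R)]
    (h : RealField R) : IReal M (El R) := by
  refine ⟨⟨intF_of h.add⟩, ⟨intF_of h.mul⟩, ⟨?_⟩, fun s hs hb => ?_⟩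
  · obtain ⟨g, hg⟩ := h.le
    refine ⟨g, fun q => ?_⟩
    obtain ⟨x, y⟩ := q
    refine Iff.trans ?_ (hg x y).symm
    constructor
    · exact fun h1 => ⟨_, isOrdPair_iff.2 rfl, h1⟩
    · rintro ⟨p, h1, h2⟩
      rw [isOrdPair_iff] at h1
      subst h1
      exact h2
  · have hm : ∀ x : El R, Mem x.1 (code (M := M) s) ↔ x ∈ s := fun x =>
      (mem_code_iff : Mem (code (M := M) x) (code (M := M) s) ↔ x ∈ s)
    obtain ⟨x, hx⟩ := hs
    obtain ⟨b, hb⟩ := hb
    obtain ⟨c, hc⟩ := h.sup (code (M := M) s) ⟨x, (hm x).2 hx⟩ ⟨b, fun y hy => hb y ((hm y).1 hy)⟩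
    exact ⟨c, fun y hy => hc.1 ((hm y).2 hy), fun d hd => hc.2 fun y hy => hd y ((hm y).1 hy)⟩

/-- The subset given by an element of the model. -/
theorem exists_sub {X : M} (U : M) : ∃ V : IPow M (El X), ∀ x : El X, x ∈ V ↔ Mem x.1 U :=
  ⟨⟨fun x => Mem x.1 U, ⟨U, fun _ => Iff.rfl⟩⟩, fun _ => Iff.rfl⟩

theorem code_eq {X U : M} (hU : IsSub U X) {V : IPow M (El X)} (h : ∀ x : El X, x ∈ V ↔ Mem x.1 U) :
    code (M := M) V = U := by
  refine hM.ext _ _ V.int.small.isSet hU.1 fun z => ?_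
  constructor
  · intro hz
    obtain ⟨a, ha, rfl⟩ := mem_code_pow.1 hz
    exact (h a).1 ha
  · intro hz
    exact mem_code_pow.2 ⟨⟨z, hU.2 z hz⟩, (h _).2 hz, rfl⟩

theorem isSub_code {X : M} (V : IPow M (El X)) : IsSub (code (M := M) V) X := by
  refine ⟨V.int.small.isSet, fun z hz => ?_⟩
  obtain ⟨a, -, rfl⟩ := mem_code_pow.1 hz
  exact a.2

theorem iFin_of {α : Type*} [ITy M α] {F : IPow M (IPow M α)} {f : M} (hf : FiniteIn f)
    (h : ∀ z, Mem z f ↔ ∃ U, U ∈ F ∧ code (M := M) U = z) : IFin F := by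
  intro G hG
  have h1 : f = code (M := M) F := by
    refine hM.ext _ _ hf.1 F.int.small.isSet fun z => ?_
    rw [h z]
    exact mem_code_pow.symm
  have h2 : Mem f (code (M := M) G) := by
    refine hf.2 _ (fun e he he' => ?_) fun s t x hs hx ht ht' => ?_
    · have h3 : e = code (M := M) (∅ : IPow M (IPow M α)) := by
        refine hM.ext _ _ he (IPow.int _).small.isSet fun z => ?_
        refine ⟨fun hz => absurd hz (he' z), fun hz => ?_⟩
        obtain ⟨a, ha, -⟩ := mem_code_pow.1 hz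
        exact absurd ha (by simp)
      rw [h3]
      exact mem_code_iff.2 hG.1
    · obtain ⟨s', hs', rfl⟩ := mem_code_pow.1 hs
      obtain ⟨x', hx', rfl⟩ := (h x).1 hx
      have h3 : t = code (M := M) (insert x' s') := by
        refine hM.ext _ _ ht (IPow.int _).small.isSet fun z => ?_
        rw [ht' z]
        constructor
        · rintro (hz | rfl)
          · obtain ⟨a, ha, rfl⟩ := mem_code_pow.1 hz
            exact mem_code_iff.2 (mem_insert.2 (Or.inr ha))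
          · exact mem_code_iff.2 (mem_insert.2 (Or.inl rfl))
        · intro hz
          obtain ⟨a, ha, rfl⟩ := mem_code_pow.1 hz
          rcases mem_insert.1 ha with rfl | ha
          · exact Or.inr rfl
          · exact Or.inl (mem_code_iff.2 ha)
      rw [h3]
      exact mem_code_iff.2 (hG.2 _ _ hs')
  rw [h1] at h2
  exact mem_code_iff.1 h2

section

variable {R : M} [Field (El R)] [LinearOrder (El R)] [IsStrictOrderedRing (El R)] {X τ : M}
  {q : El X → El X → El R}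

theorem openQ_iff (hq : Induces X τ q) {U : M} (hU : IsSub U X) {V : IPow M (El X)}
    (h : ∀ x : El X, x ∈ V ↔ Mem x.1 U) : OpenQ q V ↔ Mem U τ := by
  rw [hq U]
  constructor
  · intro h1
    refine ⟨hU, fun x hx => ?_⟩
    obtain ⟨e, he, h2⟩ := h1 x ((h x).2 hx)
    exact ⟨e, he, fun y hy => (h y).1 (h2 y hy)⟩
  · rintro ⟨-, h1⟩ x hx
    obtain ⟨e, he, h2⟩ := h1 x ((h x).1 hx)
    exact ⟨e, he, fun y hy => (h y).2 (h2 y hy)⟩

theorem ch_of (hq : IsQuasiMetric q) (hi : Induces X τ q) (hc : IsCompactIn X τ)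
    (hH : IsHausdorffIn X τ) : CH M q := by
  have hcode : ∀ V : IPow M (El X), OpenQ q V ↔ Mem (code (M := M) V) τ := fun V =>
    openQ_iff hi (isSub_code V) fun x => mem_code_iff.symm
  refine ⟨⟨hq.nonneg, hq.self, hq.tri⟩, fun C hC hcov => ?_, fun x y hxy => ?_⟩
  · obtain ⟨F, hF, hFC, hF'⟩ := hc (code (M := M) C) (fun U hU => by
      obtain ⟨V, hV, rfl⟩ := mem_code_pow.1 hU
      exact (hcode V).1 (hC V hV)) (fun z hz => by
      obtain ⟨V, hV, hzV⟩ := hcov ⟨z, hz⟩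
      exact ⟨_, mem_code_iff.2 hV, mem_code_iff.2 hzV⟩)
    have h1 : ∀ z, Mem z F ↔ ∃ U, U ∈ (⟨fun U => Mem (code (M := M) U) F, ⟨F, fun _ => Iff.rfl⟩⟩ :
        IPow M (IPow M (El X))) ∧ code (M := M) U = z := by
      intro z
      constructor
      · intro hz
        obtain ⟨V, hV, rfl⟩ := mem_code_pow.1 (hFC z hz)
        exact ⟨V, hz, rfl⟩
      · rintro ⟨U, hU, rfl⟩
        exact hU
    refine ⟨_, iFin_of hF h1, fun U hU => mem_code_iff.1 (hFC _ hU), fun x => ?_⟩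
    obtain ⟨U, hU, hxU⟩ := hF' x.1 x.2
    obtain ⟨V, hV, rfl⟩ := (h1 U).1 hU
    exact ⟨V, hV, mem_code_iff.1 hxU⟩
  · obtain ⟨U, V, hU, hV, hxU, hyV, hUV⟩ := hH x.1 y.1 x.2 y.2 fun h => hxy (Subtype.ext h)
    obtain ⟨U', hU'⟩ := exists_sub (X := X) U
    obtain ⟨V', hV'⟩ := exists_sub (X := X) V
    exact ⟨U', V', (openQ_iff hi ((hi U).1 hU).1 hU').2 hU, (openQ_iff hi ((hi V).1 hV).1 hV').2 hV,
      (hU' x).2 hxU, (hV' y).2 hyV, fun z hz hz' => hUV z.1 ((hU' z).1 hz) ((hV' z).1 hz')⟩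

/-- Compact Hausdorff quasi-metrizable spaces are metrizable. -/
theorem metrizable_of (hR : RealField R) (hc : IsCompactIn X τ) (hH : IsHausdorffIn X τ)
    (hQ : QuasiMetrizable R X τ) : Metrizable R X τ := by
  obtain ⟨q, hq, hi⟩ := hQ
  have := iReal_of hR
  obtain ⟨d, hd, h1, h2, h3, h4, h5⟩ := metrizable (intF_of hq.int) (ch_of hq hi hc hH)
  refine ⟨d, ⟨of_intF hd, h1, fun x => (h2 x x).2 rfl, h4, fun x y h _ => (h2 x y).1 h⟩, h3,
    fun U => ?_⟩
  by_cases hU : IsSub U X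
  · obtain ⟨V, hV⟩ := exists_sub (X := X) U
    rw [← openQ_iff hi hU hV, h5 V]
    constructor
    · intro h6
      refine ⟨hU, fun x hx => ?_⟩
      obtain ⟨e, he, h7⟩ := h6 x ((hV x).2 hx)
      exact ⟨e, he, fun y hy => (hV y).1 (h7 y hy)⟩
    · rintro ⟨-, h6⟩ x hx
      obtain ⟨e, he, h7⟩ := h6 x ((hV x).1 hx)
      exact ⟨e, he, fun y hy => (hV y).2 (h7 y hy)⟩
  · exact ⟨fun h => absurd ((hi U).1 h).1 hU, fun h => absurd h.1 hU⟩

end

end

end Pool.Agent.Helper672.ZFA.QM
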