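import Pool.Agent.R602.ZR.NComp
import Pool.Agent.R602.ZR.RcDefs
import Pool.Agent.R602.ZR.Trans

/-!
# Strongly zero-dimensional realcompact spaces are ℕ-compact
-/

set_option autoImplicit false
set_option linter.all false

namespace Pool.Agent.Helper672.ZFA.QM

open FirstOrder FirstOrder.Language
open Pool.Agent.R602.ZR
open Pool.Agent.Y9.ZR (FiniteIn)

universe u u₁ u₂ u₃

section

variable {M : Type u} [L.Structure M] [hM : IsModel M]

theorem intF_of' {X Y : M} {f : El X → El Y} (h : IntFun f) : IntF M f := by
  obtain ⟨g, hg⟩ := h
  refine ⟨g, fun q => ?_⟩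
  obtain ⟨x, y⟩ := q
  refine Iff.trans ?_ (hg x y).symm
  constructor
  · exact fun h1 => ⟨_, isOrdPair_iff.2 rfl, h1⟩
  · rintro ⟨p, h1, h2⟩
    rw [isOrdPair_iff] at h1
    subst h1
    exact h2

theorem of_intF' {X Y : M} {f : El X → El Y} (h : IntF M f) : IntFun f := by
  obtain ⟨g, hg⟩ := h
  refine ⟨g, fun x y => ?_⟩
  refine Iff.trans (hg (x, y)).symm ?_
  constructor
  · exact fun h1 => ⟨_, isOrdPair_iff.2 rfl, h1⟩
  · rintro ⟨p, h1, h2⟩
    rw [isOrdPair_iff] at h1
    subst h1
    exact h2

theorem iFin_of' {β : Type*} [ITy M β] {F : IPow M β} {f : M} (hf : FiniteIn f)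
    (h : ∀ z, Mem z f ↔ ∃ U, U ∈ F ∧ code (M := M) U = z) : IFin F := by
  intro G hG
  have h1 : f = code (M := M) F := by
    refine hM.ext _ _ hf.1 F.int.small.isSet fun z => ?_
    rw [h z]
    exact mem_code_pow.symm
  have h2 : Mem f (code (M := M) G) := by
    refine hf.2 _ (fun e he he' => ?_) fun s t x hs hx ht ht' => ?_
    · have h3 : e = code (M := M) (∅ : IPow M β) := by
        refine hM.ext _ _ he (IPow.int _).small.isSet fun z => ?_
        refine ⟨fun hz => absurd hz (he' z), fun hz => ?_⟩
        obtain ⟨a, ha, -⟩ := mem_code_pow.1 hz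
        exact absurd ha (by simp)
      rw [h3]
      exact mem_code_iff.2 hG.1
    · obtain ⟨s', hs', rfl⟩ := mem_code_pow.1 hs
      obtain ⟨x', hx', rfl⟩ := (h x).1 hx
      have h3 : t = code (M := M) (insert x' s') := by
        refine hM.ext _ _ ht (IPow.int _).small.isSet fun z => ?_
        rw [ht' z]
        constructor
        · rintro (hz | rfl)
          · obtain ⟨a, ha, rfl⟩ := mem_code_pow.1 hz
            exact mem_code_iff.2 (mem_insert.2 (Or.inr ha))
          · exact mem_code_iff.2 (mem_insert.2 (Or.inl rfl))
        · intro hz
          obtain ⟨a, ha, rfl⟩ := mem_code_pow.1 hz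
          rcases mem_insert.1 ha with rfl | ha
          · exact Or.inr rfl
          · exact Or.inl (mem_code_iff.2 ha)
      rw [h3]
      exact mem_code_iff.2 (hG.2 _ _ hs')
  rw [h1] at h2
  exact mem_code_iff.1 h2

theorem finiteIn_of {β : Type*} [ITy M β] {F : IPow M β} (hF : IFin F) :
    FiniteIn (code (M := M) F) := by
  refine ⟨F.int.small.isSet, fun G h0 h1 => ?_⟩
  have hG : Int M (fun s : IPow M β => Mem (code (M := M) s) G) := ⟨G, fun _ => Iff.rfl⟩
  have hi : Int M (fun s : IPow M β => s ⊆ F → Mem (code (M := M) s) G) :=
    Int.imp (by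
        (repeat' first
          | (with_reducible assumption)
          | (with_reducible exact IntF.id) | (with_reducible exact IntF.fst')
          | (with_reducible exact IntF.snd') | (with_reducible exact IntF.const _)
          | (with_reducible exact Int.const _)
          | (with_reducible apply IntF.fst) | (with_reducible apply IntF.snd)
          | (with_reducible apply Int.and) | (with_reducible apply Int.or) | (with_reducible apply Int.not)
          | (with_reducible apply Int.ne) | (with_reducible apply Int.iff) | (with_reducible apply Int.imp)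
          | (with_reducible apply Int.ex) | (with_reducible apply Int.all) | (with_reducible apply Int.eq)
          | (with_reducible apply Int.mem) | (with_reducible apply Int.subset) | (with_reducible apply Int.fin)
          | (with_reducible_and_instances apply Int.leN) | (with_reducible_and_instances apply Int.ltN)
          | (with_reducible_and_instances apply Int.le) | (with_reducible_and_instances apply Int.lt)
          | (with_reducible_and_instances apply IntF.add) | (with_reducible_and_instances apply IntF.sub)
          | (with_reducible_and_instances apply IntF.mul) | (with_reducible_and_instances apply IntF.neg)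
          | (with_reducible_and_instances apply IntF.div) | (with_reducible_and_instances apply IntF.inv)
          | (with_reducible apply IntF.pair) | (with_reducible apply IntF.succ) | (with_reducible apply IntF.sep)
          | (with_reducible apply IntF.insert) | (with_reducible apply IntF.singleton)
          | (with_reducible ((refine IntF.comp₂ ?_ ?_ ?_); assumption))
          | (with_reducible ((refine Int.comp₂ ?_ ?_ ?_); assumption))
          | (with_reducible ((refine IntF.comp ?_ ?_); assumption))
          | (with_reducible ((refine Int.comp ?_ ?_); assumption))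
          | (with_reducible apply IntF.app))) hG
  refine IFin.ind hi ?_ ?_ F hF fun x hx => hx
  · intro _
    refine h0 _ (IPow.int _).small.isSet fun z hz => ?_
    obtain ⟨a, ha, -⟩ := mem_code_pow.1 hz
    exact absurd ha (by simp)
  · intro s a _ _ ih hs
    refine h1 (code (M := M) s) _ (code (M := M) a) (ih fun x hx => hs x (mem_insert.2
      (Or.inr hx))) (mem_code_iff.2 (hs a (mem_insert.2 (Or.inl rfl)))) (IPow.int _).small.isSet
      fun z => ?_
    constructor
    · intro hz
      obtain ⟨b, hb, rfl⟩ := mem_code_pow.1 hz
      rcases mem_insert.1 hb with rfl | hb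
      · exact Or.inr rfl
      · exact Or.inl (mem_code_iff.2 hb)
    · rintro (hz | rfl)
      · obtain ⟨b, hb, rfl⟩ := mem_code_pow.1 hz
        exact mem_code_iff.2 (mem_insert.2 (Or.inr hb))
      · exact mem_code_iff.2 (mem_insert.2 (Or.inl rfl))

theorem finite_sub {X F : M} (hF : IsSub F X) (hf : FiniteIn F) {G : IPow M (El X)}
    (hG : ∀ x : El X, x ∈ G ↔ Mem x.1 F) : IFin G :=
  iFin_of' hf fun z => ⟨fun hz => ⟨⟨z, hF.2 z hz⟩, (hG _).2 hz, rfl⟩, by
    rintro ⟨U, hU, rfl⟩
    exact (hG U).1 hU⟩

theorem isNatIn_iff {n : M} : IsNatIn n ↔ ∃ k : INat M, k.val = n := by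
  constructor
  · intro h
    refine ⟨⟨n, fun i hi => h i (fun e he he' => ?_) fun m s hm hs hs' => ?_⟩, rfl⟩
    · obtain ⟨e', he1, he2, he3⟩ := hi.1
      rwa [hM.ext e e' he he2 fun z => iff_of_false (he' z) (he3 z)]
    · obtain ⟨s', h1, h2, h3⟩ := hi.2 m hm
      rwa [hM.ext s s' hs h2 fun z => (hs' z).trans (h3 z).symm]
  · rintro ⟨k, rfl⟩ i h0 h1
    refine k.prop i ⟨⟨_, h0 _ small_empty.isSet fun z hz => Set.notMem_empty _
      (small_empty.mem.1 hz), small_empty.isSet, fun z hz => Set.notMem_empty _
      (small_empty.mem.1 hz)⟩, fun n hn => ?_⟩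
    have h2 := small_union n (up n n)
    have h3 : ∀ z, Mem z h2.elt ↔ Mem z n ∨ z = n := fun z => by
      rw [h2.mem]
      change Mem z n ∨ Mem z (up n n) ↔ _
      rw [mem_up, or_self]
    exact ⟨h2.elt, h1 n _ hn h2.isSet h3, h2.isSet, h3⟩

section

variable {R : M} [Field (El R)] [LinearOrder (El R)] [IsStrictOrderedRing (El R)] {X τ J : M}
  {h : El X → El J → El R}

theorem openH_iff (hh : IsClosedRealEmb R X τ J h) {U : M} (hU : IsSub U X) {V : IPow M (El X)}
    (hV : ∀ x : El X, x ∈ V ↔ Mem x.1 U) : OpenH h V ↔ Mem U τ := by
  rw [hh.top U]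
  constructor
  · intro h1
    refine ⟨hU, fun x hx => ?_⟩
    obtain ⟨F, e, hF, he, h2⟩ := h1 x ((hV x).2 hx)
    refine ⟨code (M := M) F, e, isSub_code F, finiteIn_of hF, he, fun y hy => (hV y).1 (h2 y
      fun j hj => ?_)⟩
    exact abs_sub_lt_iff.1 (hy j (mem_code_iff.2 hj))
  · rintro ⟨-, h1⟩ x hx
    obtain ⟨F, e, hF, hF', he, h2⟩ := h1 x ((hV x).1 hx)
    obtain ⟨G, hG⟩ := exists_sub (X := J) F
    exact ⟨G, e, finite_sub hF hF' hG, he, fun y hy => (hV y).2 (h2 y fun j hj =>
      abs_sub_lt_iff.2 (hy j ((hG j).2 hj)))⟩

/-- Strongly zero-dimensional realcompact spaces are `ℕ`-compact. -/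
theorem natCompact_of (hR : RealField R) (hz : StronglyZeroDim R X τ)
    (hrc : Realcompact R X τ) : NatCompact X τ := by
  obtain ⟨J, h, hh⟩ := hrc
  have hρ := iReal_of hR
  have hhi : IntF M (fun p : El X × El J => h p.1 p.2) := intF_of hh.int
  haveI : Fact (IntF M (fun p : El X × El J => h p.1 p.2)) := ⟨hhi⟩
  have hcont : ∀ f : El X → El R, IntF M f → ContR M h f → IsContFun R X τ f := by
    intro f hf hc
    refine ⟨of_intF' hf, fun x e he => ?_⟩
    have hi : Int M (fun y : El X => ∃ (F : IPow M (El J)) (d : El R), IFin F ∧ 0 < d ∧
        ∀ z, Cl h F d y z → f x - f z < e ∧ f z - f x < e) := by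
      unfold Cl
      exact (by
          (repeat' first
            | (with_reducible assumption)
            | (with_reducible exact IntF.id) | (with_reducible exact IntF.fst')
            | (with_reducible exact IntF.snd') | (with_reducible exact IntF.const _)
            | (with_reducible exact Int.const _)
            | (with_reducible apply IntF.fst) | (with_reducible apply IntF.snd)
            | (with_reducible apply Int.and) | (with_reducible apply Int.or) | (with_reducible apply Int.not)
            | (with_reducible apply Int.ne) | (with_reducible apply Int.iff) | (with_reducible apply Int.imp)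
            | (with_reducible apply Int.ex) | (with_reducible apply Int.all) | (with_reducible apply Int.eq)
            | (with_reducible apply Int.mem) | (with_reducible apply Int.subset) | (with_reducible apply Int.fin)
            | (with_reducible_and_instances apply Int.leN) | (with_reducible_and_instances apply Int.ltN)
            | (with_reducible_and_instances apply Int.le) | (with_reducible_and_instances apply Int.lt)
            | (with_reducible_and_instances apply IntF.add) | (with_reducible_and_instances apply IntF.sub)
            | (with_reducible_and_instances apply IntF.mul) | (with_reducible_and_instances apply IntF.neg)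
            | (with_reducible_and_instances apply IntF.div) | (with_reducible_and_instances apply IntF.inv)
            | (with_reducible apply IntF.pair) | (with_reducible apply IntF.succ) | (with_reducible apply IntF.sep)
            | (with_reducible apply IntF.insert) | (with_reducible apply IntF.singleton)
            | (with_reducible ((refine IntF.comp₂ ?_ ?_ ?_); assumption))
            | (with_reducible ((refine Int.comp₂ ?_ ?_ ?_); assumption))
            | (with_reducible ((refine IntF.comp ?_ ?_); assumption))
            | (with_reducible ((refine Int.comp ?_ ?_); assumption))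
            | (with_reducible apply IntF.app)))
    obtain ⟨U, hU⟩ := exists_set hi
    have hUo : OpenH h U := by
      intro y hy
      obtain ⟨F, d, hF, hd, h1⟩ := (hU y).1 hy
      refine ⟨F, d / 2, hF, half_pos hd, fun z hz' => (hU z).2 ⟨F, d / 2, hF, half_pos hd,
        fun w hw => h1 w fun j hj => ?_⟩⟩
      obtain ⟨h2, h3⟩ := hz' j hj
      obtain ⟨h4, h5⟩ := hw j hj
      constructor <;> linarith
    refine ⟨code (M := M) U, (openH_iff hh (isSub_code U) fun x => mem_code_iff.symm).1 hUo,
      mem_code_iff.2 ((hU x).2 (hc x e he)), fun y hy => ?_⟩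
    obtain ⟨F, d, hF, hd, h1⟩ := (hU y).1 (mem_code_iff.1 hy)
    refine abs_sub_lt_iff.2 (h1 y fun j _ => ?_)
    rw [sub_self]
    exact ⟨hd, hd⟩
  have hzd : SZD M h := by
    intro f hf hc h01
    have hAi : Int M (fun x : El X => f x = 0) := (by
        (repeat' first
          | (with_reducible assumption)
          | (with_reducible exact IntF.id) | (with_reducible exact IntF.fst')
          | (with_reducible exact IntF.snd') | (with_reducible exact IntF.const _)
          | (with_reducible exact Int.const _)
          | (with_reducible apply IntF.fst) | (with_reducible apply IntF.snd)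
          | (with_reducible apply Int.and) | (with_reducible apply Int.or) | (with_reducible apply Int.not)
          | (with_reducible apply Int.ne) | (with_reducible apply Int.iff) | (with_reducible apply Int.imp)
          | (with_reducible apply Int.ex) | (with_reducible apply Int.all) | (with_reducible apply Int.eq)
          | (with_reducible apply Int.mem) | (with_reducible apply Int.subset) | (with_reducible apply Int.fin)
          | (with_reducible_and_instances apply Int.leN) | (with_reducible_and_instances apply Int.ltN)
          | (with_reducible_and_instances apply Int.le) | (with_reducible_and_instances apply Int.lt)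
          | (with_reducible_and_instances apply IntF.add) | (with_reducible_and_instances apply IntF.sub)
          | (with_reducible_and_instances apply IntF.mul) | (with_reducible_and_instances apply IntF.neg)
          | (with_reducible_and_instances apply IntF.div) | (with_reducible_and_instances apply IntF.inv)
          | (with_reducible apply IntF.pair) | (with_reducible apply IntF.succ) | (with_reducible apply IntF.sep)
          | (with_reducible apply IntF.insert) | (with_reducible apply IntF.singleton)
          | (with_reducible ((refine IntF.comp₂ ?_ ?_ ?_); assumption))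
          | (with_reducible ((refine Int.comp₂ ?_ ?_ ?_); assumption))
          | (with_reducible ((refine IntF.comp ?_ ?_); assumption))
          | (with_reducible ((refine Int.comp ?_ ?_); assumption))
          | (with_reducible apply IntF.app)))
    have hBi : Int M (fun x : El X => f x = 1) := (by
        (repeat' first
          | (with_reducible assumption)
          | (with_reducible exact IntF.id) | (with_reducible exact IntF.fst')
          | (with_reducible exact IntF.snd') | (with_reducible exact IntF.const _)
          | (with_reducible exact Int.const _)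
          | (with_reducible apply IntF.fst) | (with_reducible apply IntF.snd)
          | (with_reducible apply Int.and) | (with_reducible apply Int.or) | (with_reducible apply Int.not)
          | (with_reducible apply Int.ne) | (with_reducible apply Int.iff) | (with_reducible apply Int.imp)
          | (with_reducible apply Int.ex) | (with_reducible apply Int.all) | (with_reducible apply Int.eq)
          | (with_reducible apply Int.mem) | (with_reducible apply Int.subset) | (with_reducible apply Int.fin)
          | (with_reducible_and_instances apply Int.leN) | (with_reducible_and_instances apply Int.ltN)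
          | (with_reducible_and_instances apply Int.le) | (with_reducible_and_instances apply Int.lt)
          | (with_reducible_and_instances apply IntF.add) | (with_reducible_and_instances apply IntF.sub)
          | (with_reducible_and_instances apply IntF.mul) | (with_reducible_and_instances apply IntF.neg)
          | (with_reducible_and_instances apply IntF.div) | (with_reducible_and_instances apply IntF.inv)
          | (with_reducible apply IntF.pair) | (with_reducible apply IntF.succ) | (with_reducible apply IntF.sep)
          | (with_reducible apply IntF.insert) | (with_reducible apply IntF.singleton)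
          | (with_reducible ((refine IntF.comp₂ ?_ ?_ ?_); assumption))
          | (with_reducible ((refine Int.comp₂ ?_ ?_ ?_); assumption))
          | (with_reducible ((refine IntF.comp ?_ ?_); assumption))
          | (with_reducible ((refine Int.comp ?_ ?_); assumption))
          | (with_reducible apply IntF.app)))
    obtain ⟨A, hA⟩ := exists_set hAi
    obtain ⟨B, hB⟩ := exists_set hBi
    obtain ⟨C, D, hC, hD, hCD, hAC, hBC⟩ := hz f (code (M := M) A) (code (M := M) B)
      (hcont f hf hc) h01 (isSub_code A) (isSub_code B) (fun x hx => (hA x).1 (mem_code_iff.1 hx))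
      fun x hx => (hB x).1 (mem_code_iff.1 hx)
    obtain ⟨C', hC'⟩ := exists_sub (X := X) C
    obtain ⟨D', hD'⟩ := exists_sub (X := X) D
    refine ⟨C', D', (openH_iff hh ((hh.top C).1 hC).1 hC').2 hC,
      (openH_iff hh ((hh.top D).1 hD).1 hD').2 hD, fun x => ?_, fun x hx => ?_, fun x hx => ?_⟩
    · rw [hD', hCD, hC']
      exact ⟨fun h => h.2, fun h => ⟨x.2, h⟩⟩
    · exact (hC' x).2 (hAC _ (mem_code_iff.2 ((hA x).2 hx)))
    · intro h1
      exact hBC _ (mem_code_iff.2 ((hB x).2 hx)) ((hC' x).1 h1)
  obtain ⟨hinj, htop, hcl⟩ := nCompact hzd (fun j x e he => by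
    refine ⟨{j}, e, IFin.singleton j, he, fun y hy => ?_⟩
    exact hy j (mem_singleton.2 rfl)) hh.inj fun p hp h1 => hh.closed p (of_intF' hp)
      fun F e hF hF' he => by
    obtain ⟨G, hG⟩ := exists_sub (X := J) F
    obtain ⟨x, hx⟩ := h1 G e (finite_sub hF hF' hG) he
    exact ⟨x, fun j hj => abs_sub_lt_iff.2 (hx j ((hG j).2 hj))⟩
  have hval : ∀ (c : CN M h), (elEquiv (M := M) (CN M h) c).1 = code c := fun c => elEquiv_val c
  have hvalN : ∀ n : INat M, (elEquiv (M := M) (INat M) n).1 = code n := fun n => elEquiv_val n
  -- the function
  set k : El X → El (dom M (CN M h)) → El (dom M (INat M)) := fun x j =>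
    elEquiv (INat M) (((elEquiv (CN M h)).symm j).1 x) with hk
  have hkc : ∀ (x : El X) (c : CN M h), k x (elEquiv (CN M h) c) = elEquiv (INat M) (c.1 x) := by
    intro x c
    rw [hk]
    simp only [Equiv.symm_apply_apply]
  refine ⟨dom M (INat M), dom M (CN M h), k, ⟨(ITy.small (M := M) (α := INat M)).isSet, fun n => ?_⟩,
    ⟨?_, fun x y hxy => ?_, fun U => ?_, fun p hp h1 => ?_⟩⟩
  · rw [mem_dom, isNatIn_iff]
    rfl
  · obtain ⟨g, hg⟩ := int_app (M := M) (h := h)
    refine ⟨g, fun x j n => ?_⟩
    obtain ⟨c, rfl⟩ := (elEquiv (CN M h)).surjective j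
    obtain ⟨m, rfl⟩ := (elEquiv (INat M)).surjective n
    rw [hkc, EmbeddingLike.apply_eq_iff_eq, hval, hvalN]
    refine Iff.trans (hg ((x, c), m)).symm ?_
    constructor
    · exact fun h1 => ⟨_, _, isOrdPair_iff.2 rfl, isOrdPair_iff.2 rfl, h1⟩
    · rintro ⟨p, q, h1, h2, h3⟩
      rw [isOrdPair_iff] at h1 h2
      subst h1 h2
      exact h3
  · refine hinj x y fun c => ?_
    have h1 := hxy (elEquiv (CN M h) c)
    rw [hkc, hkc, EmbeddingLike.apply_eq_iff_eq] at h1
    exact h1
  · by_cases hU : IsSub U X
    · obtain ⟨V, hV⟩ := exists_sub (X := X) U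
      rw [← openH_iff hh hU hV, htop V]
      constructor
      · intro h1
        refine ⟨hU, fun x hx => ?_⟩
        obtain ⟨G, hG, h2⟩ := h1 x ((hV x).2 hx)
        refine ⟨code (M := M) G, ⟨G.int.small.isSet, fun z hz => ?_⟩, finiteIn_of hG,
          fun y hy => (hV y).1 (h2 y fun c hc => ?_)⟩
        · obtain ⟨a, -, rfl⟩ := mem_code_pow.1 hz
          exact code_mem_dom a
        · have h3 := hy (elEquiv (CN M h) c) (by
            rw [hval]
            exact mem_code_iff.2 hc)
          rw [hkc, hkc, EmbeddingLike.apply_eq_iff_eq] at h3
          exact h3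
      · rintro ⟨-, h1⟩ x hx
        obtain ⟨F, hF, hF', h2⟩ := h1 x ((hV x).1 hx)
        refine ⟨⟨fun c => Mem (code (M := M) c) F, ⟨F, fun _ => Iff.rfl⟩⟩, iFin_of' hF'
          fun z => ?_, fun y hy => (hV y).2 (h2 y fun j hj => ?_)⟩
        · constructor
          · intro hz'
            obtain ⟨c, rfl⟩ := mem_dom.1 (hF.2 z hz')
            exact ⟨c, hz', rfl⟩
          · rintro ⟨c, hc, rfl⟩
            exact hc
        · obtain ⟨c, rfl⟩ := (elEquiv (CN M h)).surjective j
          rw [hkc, hkc, hy c]
          rw [hval] at hj
          exact hj
    · exact ⟨fun h1 => absurd ((hh.top U).1 h1).1 hU, fun h1 => absurd h1.1 hU⟩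
  · have h2 : IntF M (fun c : CN M h => (elEquiv (INat M)).symm (p (elEquiv (CN M h) c))) := by
      obtain ⟨g, hg⟩ := hp
      refine ⟨g, fun q => ?_⟩
      obtain ⟨c, m⟩ := q
      change Mem (code (c, m)) g ↔ (elEquiv (INat M)).symm (p (elEquiv (CN M h) c)) = m
      rw [Equiv.symm_apply_eq]
      refine Iff.trans ?_ (hg (elEquiv (CN M h) c) (elEquiv (INat M) m)).symm
      rw [hval, hvalN]
      constructor
      · exact fun h1 => ⟨_, isOrdPair_iff.2 rfl, h1⟩
      · rintro ⟨q, h1, h2⟩
        rw [isOrdPair_iff] at h1
        subst h1
        exact h2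
    obtain ⟨x, hx⟩ := hcl _ h2 fun G hG => by
      obtain ⟨x, hx⟩ := h1 (code (M := M) G) ⟨G.int.small.isSet, fun z hz' => by
        obtain ⟨a, -, rfl⟩ := mem_code_pow.1 hz'
        exact code_mem_dom a⟩ (finiteIn_of hG)
      refine ⟨x, fun c hc => ?_⟩
      have h3 := hx (elEquiv (CN M h) c) (by
        rw [hval]
        exact mem_code_iff.2 hc)
      rw [hkc] at h3
      rw [← h3, Equiv.symm_apply_apply]
    refine ⟨x, fun j => ?_⟩
    obtain ⟨c, rfl⟩ := (elEquiv (CN M h)).surjective j
    rw [hkc, hx c, Equiv.apply_symm_apply]

end

end

end Pool.Agent.Helper672.ZFA.QM
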