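import Pool.Agent.R602.ZR.Real

/-!
# Metrization in a model
-/

set_option autoImplicit false
set_option linter.all false

namespace Pool.Agent.Helper672.ZFA.QM

open FirstOrder FirstOrder.Language

universe u u₁ u₂ u₃

section

variable {M : Type u} [L.Structure M] [hM : IsModel M]
variable {ρ : Type u₂} [ITy M ρ] [Field ρ] [LinearOrder ρ] [IsStrictOrderedRing ρ]
  [hρ : IReal M ρ] {α : Type u₁} [ITy M α]

/-- The chains of length `0`. -/
noncomputable def ch0 (M : Type u) [L.Structure M] [IsModel M] (α : Type u₁) (ρ : Type u₂)
    [ITy M α] [ITy M ρ] [Field ρ] : IPow M ((α × α) × ρ) :=
  sep M fun p => p.1.1 = p.1.2 ∧ p.2 = 0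

/-- The extension of chains. -/
noncomputable def chS (w : α → α → ρ) (s : IPow M ((α × α) × ρ)) : IPow M ((α × α) × ρ) :=
  sep M fun p => ∃ y b, ((p.1.1, y), b) ∈ s ∧ p.2 = b + w y p.1.2

variable {w : α → α → ρ} (hw : IntF M (fun p : α × α => w p.1 p.2))

include hw in
theorem int_chS : IntF M (fun q : INat M × IPow M ((α × α) × ρ) => chS w q.2) := by
  unfold chS
  exact (by
      (repeat' first
        | (with_reducible assumption)
        | (with_reducible exact IntF.id) | (with_reducible exact IntF.fst')
        | (with_reducible exact IntF.snd') | (with_reducible exact IntF.const _)
        | (with_reducible exact Int.const _)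
        | (with_reducible apply IntF.fst) | (with_reducible apply IntF.snd)
        | (with_reducible apply Int.and) | (with_reducible apply Int.or) | (with_reducible apply Int.not)
        | (with_reducible apply Int.ne) | (with_reducible apply Int.iff) | (with_reducible apply Int.imp)
        | (with_reducible apply Int.ex) | (with_reducible apply Int.all) | (with_reducible apply Int.eq)
        | (with_reducible apply Int.mem) | (with_reducible apply Int.subset) | (with_reducible apply Int.fin)
        | (with_reducible_and_instances apply Int.leN) | (with_reducible_and_instances apply Int.ltN)
        | (with_reducible_and_instances apply Int.le) | (with_reducible_and_instances apply Int.lt)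
        | (with_reducible_and_instances apply IntF.add) | (with_reducible_and_instances apply IntF.sub)
        | (with_reducible_and_instances apply IntF.mul) | (with_reducible_and_instances apply IntF.neg)
        | (with_reducible_and_instances apply IntF.div) | (with_reducible_and_instances apply IntF.inv)
        | (with_reducible apply IntF.pair) | (with_reducible apply IntF.succ) | (with_reducible apply IntF.sep)
        | (with_reducible apply IntF.insert) | (with_reducible apply IntF.singleton)
        | (with_reducible ((refine IntF.comp₂ ?_ ?_ ?_); assumption))
        | (with_reducible ((refine Int.comp₂ ?_ ?_ ?_); assumption))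
        | (with_reducible ((refine IntF.comp ?_ ?_); assumption))
        | (with_reducible ((refine Int.comp ?_ ?_); assumption))
        | (with_reducible apply IntF.app)))

/-- There is a chain of length `n` from `x` to `z` with sum `a`. -/
def Ch (w : α → α → ρ) (n : INat M) (x z : α) (a : ρ) : Prop :=
  ((x, z), a) ∈ irec (ch0 M α ρ) (fun _ s => chS w s) n

theorem ch_zero (hw : IntF M (fun p : α × α => w p.1 p.2)) {x z : α} {a : ρ} :
    Ch (M := M) w 0 x z a ↔ x = z ∧ a = 0 := by
  unfold Ch
  rw [irec_zero (int_chS hw)]
  have h : Int M (fun p : (α × α) × ρ => p.1.1 = p.1.2 ∧ p.2 = 0) := (by
      (repeat' first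
        | (with_reducible assumption)
        | (with_reducible exact IntF.id) | (with_reducible exact IntF.fst')
        | (with_reducible exact IntF.snd') | (with_reducible exact IntF.const _)
        | (with_reducible exact Int.const _)
        | (with_reducible apply IntF.fst) | (with_reducible apply IntF.snd)
        | (with_reducible apply Int.and) | (with_reducible apply Int.or) | (with_reducible apply Int.not)
        | (with_reducible apply Int.ne) | (with_reducible apply Int.iff) | (with_reducible apply Int.imp)
        | (with_reducible apply Int.ex) | (with_reducible apply Int.all) | (with_reducible apply Int.eq)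
        | (with_reducible apply Int.mem) | (with_reducible apply Int.subset) | (with_reducible apply Int.fin)
        | (with_reducible_and_instances apply Int.leN) | (with_reducible_and_instances apply Int.ltN)
        | (with_reducible_and_instances apply Int.le) | (with_reducible_and_instances apply Int.lt)
        | (with_reducible_and_instances apply IntF.add) | (with_reducible_and_instances apply IntF.sub)
        | (with_reducible_and_instances apply IntF.mul) | (with_reducible_and_instances apply IntF.neg)
        | (with_reducible_and_instances apply IntF.div) | (with_reducible_and_instances apply IntF.inv)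
        | (with_reducible apply IntF.pair) | (with_reducible apply IntF.succ) | (with_reducible apply IntF.sep)
        | (with_reducible apply IntF.insert) | (with_reducible apply IntF.singleton)
        | (with_reducible ((refine IntF.comp₂ ?_ ?_ ?_); assumption))
        | (with_reducible ((refine Int.comp₂ ?_ ?_ ?_); assumption))
        | (with_reducible ((refine IntF.comp ?_ ?_); assumption))
        | (with_reducible ((refine Int.comp ?_ ?_); assumption))
        | (with_reducible apply IntF.app)))
  exact mem_sep h

theorem ch_succ (hw : IntF M (fun p : α × α => w p.1 p.2)) {n : INat M} {x z : α} {a : ρ} :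
    Ch w n.succ x z a ↔ ∃ y b, Ch w n x y b ∧ a = b + w y z := by
  unfold Ch
  rw [irec_succ (int_chS hw)]
  have h : ∀ s : IPow M ((α × α) × ρ), Int M (fun p : (α × α) × ρ => ∃ y b,
    ((p.1.1, y), b) ∈ s ∧ p.2 = b + w y p.1.2) := fun s => (by
        (repeat' first
          | (with_reducible assumption)
          | (with_reducible exact IntF.id) | (with_reducible exact IntF.fst')
          | (with_reducible exact IntF.snd') | (with_reducible exact IntF.const _)
          | (with_reducible exact Int.const _)
          | (with_reducible apply IntF.fst) | (with_reducible apply IntF.snd)
          | (with_reducible apply Int.and) | (with_reducible apply Int.or) | (with_reducible apply Int.not)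
          | (with_reducible apply Int.ne) | (with_reducible apply Int.iff) | (with_reducible apply Int.imp)
          | (with_reducible apply Int.ex) | (with_reducible apply Int.all) | (with_reducible apply Int.eq)
          | (with_reducible apply Int.mem) | (with_reducible apply Int.subset) | (with_reducible apply Int.fin)
          | (with_reducible_and_instances apply Int.leN) | (with_reducible_and_instances apply Int.ltN)
          | (with_reducible_and_instances apply Int.le) | (with_reducible_and_instances apply Int.lt)
          | (with_reducible_and_instances apply IntF.add) | (with_reducible_and_instances apply IntF.sub)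
          | (with_reducible_and_instances apply IntF.mul) | (with_reducible_and_instances apply IntF.neg)
          | (with_reducible_and_instances apply IntF.div) | (with_reducible_and_instances apply IntF.inv)
          | (with_reducible apply IntF.pair) | (with_reducible apply IntF.succ) | (with_reducible apply IntF.sep)
          | (with_reducible apply IntF.insert) | (with_reducible apply IntF.singleton)
          | (with_reducible ((refine IntF.comp₂ ?_ ?_ ?_); assumption))
          | (with_reducible ((refine Int.comp₂ ?_ ?_ ?_); assumption))
          | (with_reducible ((refine IntF.comp ?_ ?_); assumption))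
          | (with_reducible ((refine Int.comp ?_ ?_); assumption))
          | (with_reducible apply IntF.app)))
  exact mem_sep (h _)

theorem int_ch (hw : IntF M (fun p : α × α => w p.1 p.2)) :
    Int M (fun q : ((INat M × α) × α) × ρ => Ch w q.1.1.1 q.1.1.2 q.1.2 q.2) := by
  have h1 : IntF M (fun q : (INat M × INat M) × IPow M ((α × α) × ρ) => chS w q.2) := by
    unfold chS
    exact (by
        (repeat' first
          | (with_reducible assumption)
          | (with_reducible exact IntF.id) | (with_reducible exact IntF.fst')
          | (with_reducible exact IntF.snd') | (with_reducible exact IntF.const _)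
          | (with_reducible exact Int.const _)
          | (with_reducible apply IntF.fst) | (with_reducible apply IntF.snd)
          | (with_reducible apply Int.and) | (with_reducible apply Int.or) | (with_reducible apply Int.not)
          | (with_reducible apply Int.ne) | (with_reducible apply Int.iff) | (with_reducible apply Int.imp)
          | (with_reducible apply Int.ex) | (with_reducible apply Int.all) | (with_reducible apply Int.eq)
          | (with_reducible apply Int.mem) | (with_reducible apply Int.subset) | (with_reducible apply Int.fin)
          | (with_reducible_and_instances apply Int.leN) | (with_reducible_and_instances apply Int.ltN)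
          | (with_reducible_and_instances apply Int.le) | (with_reducible_and_instances apply Int.lt)
          | (with_reducible_and_instances apply IntF.add) | (with_reducible_and_instances apply IntF.sub)
          | (with_reducible_and_instances apply IntF.mul) | (with_reducible_and_instances apply IntF.neg)
          | (with_reducible_and_instances apply IntF.div) | (with_reducible_and_instances apply IntF.inv)
          | (with_reducible apply IntF.pair) | (with_reducible apply IntF.succ) | (with_reducible apply IntF.sep)
          | (with_reducible apply IntF.insert) | (with_reducible apply IntF.singleton)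
          | (with_reducible ((refine IntF.comp₂ ?_ ?_ ?_); assumption))
          | (with_reducible ((refine Int.comp₂ ?_ ?_ ?_); assumption))
          | (with_reducible ((refine IntF.comp ?_ ?_); assumption))
          | (with_reducible ((refine Int.comp ?_ ?_); assumption))
          | (with_reducible apply IntF.app)))
  have h2 : IntF M (fun n : INat M => irec (ch0 M α ρ) (fun _ s => chS w s) n) :=
    IntF.irec (a := fun _ : INat M => ch0 M α ρ) (f := fun _ _ s => chS w s) (n := fun n => n)
      (IntF.const _) h1 IntF.id
  unfold Ch
  exact Int.mem (by
      (repeat' first
        | (with_reducible assumption)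
        | (with_reducible exact IntF.id) | (with_reducible exact IntF.fst')
        | (with_reducible exact IntF.snd') | (with_reducible exact IntF.const _)
        | (with_reducible exact Int.const _)
        | (with_reducible apply IntF.fst) | (with_reducible apply IntF.snd)
        | (with_reducible apply Int.and) | (with_reducible apply Int.or) | (with_reducible apply Int.not)
        | (with_reducible apply Int.ne) | (with_reducible apply Int.iff) | (with_reducible apply Int.imp)
        | (with_reducible apply Int.ex) | (with_reducible apply Int.all) | (with_reducible apply Int.eq)
        | (with_reducible apply Int.mem) | (with_reducible apply Int.subset) | (with_reducible apply Int.fin)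
        | (with_reducible_and_instances apply Int.leN) | (with_reducible_and_instances apply Int.ltN)
        | (with_reducible_and_instances apply Int.le) | (with_reducible_and_instances apply Int.lt)
        | (with_reducible_and_instances apply IntF.add) | (with_reducible_and_instances apply IntF.sub)
        | (with_reducible_and_instances apply IntF.mul) | (with_reducible_and_instances apply IntF.neg)
        | (with_reducible_and_instances apply IntF.div) | (with_reducible_and_instances apply IntF.inv)
        | (with_reducible apply IntF.pair) | (with_reducible apply IntF.succ) | (with_reducible apply IntF.sep)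
        | (with_reducible apply IntF.insert) | (with_reducible apply IntF.singleton)
        | (with_reducible ((refine IntF.comp₂ ?_ ?_ ?_); assumption))
        | (with_reducible ((refine Int.comp₂ ?_ ?_ ?_); assumption))
        | (with_reducible ((refine IntF.comp ?_ ?_); assumption))
        | (with_reducible ((refine Int.comp ?_ ?_); assumption))
        | (with_reducible apply IntF.app))) (IntF.comp h2 (by
      (repeat' first
        | (with_reducible assumption)
        | (with_reducible exact IntF.id) | (with_reducible exact IntF.fst')
        | (with_reducible exact IntF.snd') | (with_reducible exact IntF.const _)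
        | (with_reducible exact Int.const _)
        | (with_reducible apply IntF.fst) | (with_reducible apply IntF.snd)
        | (with_reducible apply Int.and) | (with_reducible apply Int.or) | (with_reducible apply Int.not)
        | (with_reducible apply Int.ne) | (with_reducible apply Int.iff) | (with_reducible apply Int.imp)
        | (with_reducible apply Int.ex) | (with_reducible apply Int.all) | (with_reducible apply Int.eq)
        | (with_reducible apply Int.mem) | (with_reducible apply Int.subset) | (with_reducible apply Int.fin)
        | (with_reducible_and_instances apply Int.leN) | (with_reducible_and_instances apply Int.ltN)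
        | (with_reducible_and_instances apply Int.le) | (with_reducible_and_instances apply Int.lt)
        | (with_reducible_and_instances apply IntF.add) | (with_reducible_and_instances apply IntF.sub)
        | (with_reducible_and_instances apply IntF.mul) | (with_reducible_and_instances apply IntF.neg)
        | (with_reducible_and_instances apply IntF.div) | (with_reducible_and_instances apply IntF.inv)
        | (with_reducible apply IntF.pair) | (with_reducible apply IntF.succ) | (with_reducible apply IntF.sep)
        | (with_reducible apply IntF.insert) | (with_reducible apply IntF.singleton)
        | (with_reducible ((refine IntF.comp₂ ?_ ?_ ?_); assumption))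
        | (with_reducible ((refine Int.comp₂ ?_ ?_ ?_); assumption))
        | (with_reducible ((refine IntF.comp ?_ ?_); assumption))
        | (with_reducible ((refine Int.comp ?_ ?_); assumption))
        | (with_reducible apply IntF.app))))

theorem int_ch' (hw : IntF M (fun p : α × α => w p.1 p.2)) {γ : Type*} [ITy M γ]
    {n : γ → INat M} {x z : γ → α} {a : γ → ρ} (hn : IntF M n) (hx : IntF M x) (hz : IntF M z)
    (ha : IntF M a) : Int M (fun c => Ch w (n c) (x c) (z c) (a c)) :=
  Int.comp (p := fun q : ((INat M × α) × α) × ρ => Ch w q.1.1.1 q.1.1.2 q.1.2 q.2)
    (f := fun c => (((n c, x c), z c), a c)) (int_ch hw) (((hn.pair hx).pair hz).pair ha)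

/-- The properties of the weights. -/
structure Wt (w : α → α → ρ) : Prop where
  nonneg : ∀ x y, 0 ≤ w x y
  self : ∀ x, w x x = 0
  symm : ∀ x y, w x y = w y x
  eq : ∀ x y, w x y = 0 → x = y
  three : ∀ x y z t a, w x y ≤ a → w y z ≤ a → w z t ≤ a → w x t ≤ 2 * a

variable (hW : Wt w)

include hw hW

theorem ch_nonneg (n : INat M) : ∀ x z a, Ch w n x z a → 0 ≤ a := by
  refine INat.ind (p := fun n => ∀ x z a, Ch w n x z a → 0 ≤ a) (by
      (repeat' first
        | (with_reducible (refine int_ch' hw ?_ ?_ ?_ ?_))
        | (with_reducible assumption)
        | (with_reducible exact IntF.id) | (with_reducible exact IntF.fst')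
        | (with_reducible exact IntF.snd') | (with_reducible exact IntF.const _)
        | (with_reducible exact Int.const _)
        | (with_reducible apply IntF.fst) | (with_reducible apply IntF.snd)
        | (with_reducible apply Int.and) | (with_reducible apply Int.or) | (with_reducible apply Int.not)
        | (with_reducible apply Int.ne) | (with_reducible apply Int.iff) | (with_reducible apply Int.imp)
        | (with_reducible apply Int.ex) | (with_reducible apply Int.all) | (with_reducible apply Int.eq)
        | (with_reducible apply Int.mem) | (with_reducible apply Int.subset) | (with_reducible apply Int.fin)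
        | (with_reducible_and_instances apply Int.leN) | (with_reducible_and_instances apply Int.ltN)
        | (with_reducible_and_instances apply Int.le) | (with_reducible_and_instances apply Int.lt)
        | (with_reducible_and_instances apply IntF.add) | (with_reducible_and_instances apply IntF.sub)
        | (with_reducible_and_instances apply IntF.mul) | (with_reducible_and_instances apply IntF.neg)
        | (with_reducible_and_instances apply IntF.div) | (with_reducible_and_instances apply IntF.inv)
        | (with_reducible apply IntF.pair) | (with_reducible apply IntF.succ) | (with_reducible apply IntF.sep)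
        | (with_reducible apply IntF.insert) | (with_reducible apply IntF.singleton)
        | (with_reducible ((refine IntF.comp₂ ?_ ?_ ?_); assumption))
        | (with_reducible ((refine Int.comp₂ ?_ ?_ ?_); assumption))
        | (with_reducible ((refine IntF.comp ?_ ?_); assumption))
        | (with_reducible ((refine Int.comp ?_ ?_); assumption))
        | (with_reducible apply IntF.app))) ?_ ?_ n
  · intro x z a h
    rw [((ch_zero hw).1 h).2]
  · intro n ih x z a h
    obtain ⟨y, b, h1, rfl⟩ := (ch_succ hw).1 h
    exact add_nonneg (ih _ _ _ h1) (hW.nonneg _ _)

theorem ch_eq (n : INat M) : ∀ x z a, Ch w n x z a → a = 0 → x = z := by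
  refine INat.ind (p := fun n => ∀ x z a, Ch w n x z a → a = 0 → x = z) (by
      (repeat' first
        | (with_reducible (refine int_ch' hw ?_ ?_ ?_ ?_))
        | (with_reducible assumption)
        | (with_reducible exact IntF.id) | (with_reducible exact IntF.fst')
        | (with_reducible exact IntF.snd') | (with_reducible exact IntF.const _)
        | (with_reducible exact Int.const _)
        | (with_reducible apply IntF.fst) | (with_reducible apply IntF.snd)
        | (with_reducible apply Int.and) | (with_reducible apply Int.or) | (with_reducible apply Int.not)
        | (with_reducible apply Int.ne) | (with_reducible apply Int.iff) | (with_reducible apply Int.imp)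
        | (with_reducible apply Int.ex) | (with_reducible apply Int.all) | (with_reducible apply Int.eq)
        | (with_reducible apply Int.mem) | (with_reducible apply Int.subset) | (with_reducible apply Int.fin)
        | (with_reducible_and_instances apply Int.leN) | (with_reducible_and_instances apply Int.ltN)
        | (with_reducible_and_instances apply Int.le) | (with_reducible_and_instances apply Int.lt)
        | (with_reducible_and_instances apply IntF.add) | (with_reducible_and_instances apply IntF.sub)
        | (with_reducible_and_instances apply IntF.mul) | (with_reducible_and_instances apply IntF.neg)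
        | (with_reducible_and_instances apply IntF.div) | (with_reducible_and_instances apply IntF.inv)
        | (with_reducible apply IntF.pair) | (with_reducible apply IntF.succ) | (with_reducible apply IntF.sep)
        | (with_reducible apply IntF.insert) | (with_reducible apply IntF.singleton)
        | (with_reducible ((refine IntF.comp₂ ?_ ?_ ?_); assumption))
        | (with_reducible ((refine Int.comp₂ ?_ ?_ ?_); assumption))
        | (with_reducible ((refine IntF.comp ?_ ?_); assumption))
        | (with_reducible ((refine Int.comp ?_ ?_); assumption))
        | (with_reducible apply IntF.app))) ?_ ?_ n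
  · intro x z a h _
    exact ((ch_zero hw).1 h).1
  · intro n ih x z a h h0
    obtain ⟨y, b, h1, rfl⟩ := (ch_succ hw).1 h
    have h2 := ch_nonneg hw hW n _ _ _ h1
    have h3 := hW.nonneg y z
    have h4 : b = 0 := by linarith
    have h5 : w y z = 0 := by linarith
    rw [ih _ _ _ h1 h4, hW.eq _ _ h5]

omit hW in
theorem ch_split (n : INat M) : ∀ x z a h, Ch w n x z a → 0 < h → h ≤ a →
    ∃ i j, i < n ∧ j < n ∧ ∃ y y' b c, Ch w i x y b ∧ b < h ∧ Ch w j y' z c ∧
      b + w y y' + c = a ∧ h ≤ b + w y y' := by
  refine INat.ind (p := fun n => ∀ x z a h, Ch w n x z a → 0 < h → h ≤ a →
    ∃ i j, i < n ∧ j < n ∧ ∃ y y' b c, Ch w i x y b ∧ b < h ∧ Ch w j y' z c ∧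
      b + w y y' + c = a ∧ h ≤ b + w y y') (by
          (repeat' first
            | (with_reducible (refine int_ch' hw ?_ ?_ ?_ ?_))
            | (with_reducible assumption)
            | (with_reducible exact IntF.id) | (with_reducible exact IntF.fst')
            | (with_reducible exact IntF.snd') | (with_reducible exact IntF.const _)
            | (with_reducible exact Int.const _)
            | (with_reducible apply IntF.fst) | (with_reducible apply IntF.snd)
            | (with_reducible apply Int.and) | (with_reducible apply Int.or) | (with_reducible apply Int.not)
            | (with_reducible apply Int.ne) | (with_reducible apply Int.iff) | (with_reducible apply Int.imp)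
            | (with_reducible apply Int.ex) | (with_reducible apply Int.all) | (with_reducible apply Int.eq)
            | (with_reducible apply Int.mem) | (with_reducible apply Int.subset) | (with_reducible apply Int.fin)
            | (with_reducible_and_instances apply Int.leN) | (with_reducible_and_instances apply Int.ltN)
            | (with_reducible_and_instances apply Int.le) | (with_reducible_and_instances apply Int.lt)
            | (with_reducible_and_instances apply IntF.add) | (with_reducible_and_instances apply IntF.sub)
            | (with_reducible_and_instances apply IntF.mul) | (with_reducible_and_instances apply IntF.neg)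
            | (with_reducible_and_instances apply IntF.div) | (with_reducible_and_instances apply IntF.inv)
            | (with_reducible apply IntF.pair) | (with_reducible apply IntF.succ) | (with_reducible apply IntF.sep)
            | (with_reducible apply IntF.insert) | (with_reducible apply IntF.singleton)
            | (with_reducible ((refine IntF.comp₂ ?_ ?_ ?_); assumption))
            | (with_reducible ((refine Int.comp₂ ?_ ?_ ?_); assumption))
            | (with_reducible ((refine IntF.comp ?_ ?_); assumption))
            | (with_reducible ((refine Int.comp ?_ ?_); assumption))
            | (with_reducible apply IntF.app))) ?_ ?_ n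
  · intro x z a h h1 h2 h3
    rw [((ch_zero hw).1 h1).2] at h3
    exact absurd h2 (not_lt.2 h3)
  · intro n ih x z a h h1 h2 h3
    obtain ⟨v, b, h4, rfl⟩ := (ch_succ hw).1 h1
    rcases lt_or_ge b h with h5 | h5
    · refine ⟨n, 0, INat.lt_succ_self n, lt_of_le_of_lt (INat.zero_le n) (INat.lt_succ_self n), v, z,
        b, 0, h4, h5, (ch_zero hw).2 ⟨rfl, rfl⟩, by ring, h3⟩
    · obtain ⟨i, j, hi, hj, y, y', b', c, h6, h7, h8, h9, h10⟩ := ih x v b h h4 h2 h5
      refine ⟨i, j.succ, hi.trans (INat.lt_succ_self n), INat.lt_succ_iff.2 (INat.succ_le_iff.2 hj),
        y, y', b', c + w v z, h6, h7, (ch_succ hw).2 ⟨v, c, h8, rfl⟩, ?_, h10⟩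
      rw [← h9]
      ring

theorem ch_bound (n : INat M) : ∀ m, m < n → ∀ x z a, Ch w m x z a → w x z ≤ 2 * a := by
  refine INat.ind (p := fun n => ∀ m, m < n → ∀ x z a, Ch w m x z a → w x z ≤ 2 * a) (by
      (repeat' first
        | (with_reducible (refine int_ch' hw ?_ ?_ ?_ ?_))
        | (with_reducible assumption)
        | (with_reducible exact IntF.id) | (with_reducible exact IntF.fst')
        | (with_reducible exact IntF.snd') | (with_reducible exact IntF.const _)
        | (with_reducible exact Int.const _)
        | (with_reducible apply IntF.fst) | (with_reducible apply IntF.snd)
        | (with_reducible apply Int.and) | (with_reducible apply Int.or) | (with_reducible apply Int.not)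
        | (with_reducible apply Int.ne) | (with_reducible apply Int.iff) | (with_reducible apply Int.imp)
        | (with_reducible apply Int.ex) | (with_reducible apply Int.all) | (with_reducible apply Int.eq)
        | (with_reducible apply Int.mem) | (with_reducible apply Int.subset) | (with_reducible apply Int.fin)
        | (with_reducible_and_instances apply Int.leN) | (with_reducible_and_instances apply Int.ltN)
        | (with_reducible_and_instances apply Int.le) | (with_reducible_and_instances apply Int.lt)
        | (with_reducible_and_instances apply IntF.add) | (with_reducible_and_instances apply IntF.sub)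
        | (with_reducible_and_instances apply IntF.mul) | (with_reducible_and_instances apply IntF.neg)
        | (with_reducible_and_instances apply IntF.div) | (with_reducible_and_instances apply IntF.inv)
        | (with_reducible apply IntF.pair) | (with_reducible apply IntF.succ) | (with_reducible apply IntF.sep)
        | (with_reducible apply IntF.insert) | (with_reducible apply IntF.singleton)
        | (with_reducible ((refine IntF.comp₂ ?_ ?_ ?_); assumption))
        | (with_reducible ((refine Int.comp₂ ?_ ?_ ?_); assumption))
        | (with_reducible ((refine IntF.comp ?_ ?_); assumption))
        | (with_reducible ((refine Int.comp ?_ ?_); assumption))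
        | (with_reducible apply IntF.app))) ?_ ?_ n
  · intro m hm
    exact absurd hm INat.not_lt_zero
  · intro n ih m hm x z a h
    have h0 := ch_nonneg hw hW m x z a h
    rcases h0.eq_or_lt with h1 | h1
    · rw [ch_eq hw hW m x z a h h1.symm, hW.self]
      linarith
    · obtain ⟨i, j, hi, hj, y, y', b, c, h2, h3, h4, h5, h6⟩ :=
        ch_split hw m x z a (a / 2) h (by linarith) (by linarith)
      have hm' := INat.lt_succ_iff.1 hm
      have h7 := ih i (hi.trans_le hm') _ _ _ h2
      have h8 := ih j (hj.trans_le hm') _ _ _ h4
      have h9 := ch_nonneg hw hW i _ _ _ h2
      have h10 := ch_nonneg hw hW j _ _ _ h4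
      exact hW.three x y y' z a (by linarith) (by linarith) (by linarith)

omit hW in
theorem ch_concat {n : INat M} {x y : α} {a : ρ} (h : Ch w n x y a) (m : INat M) :
    ∀ z b, Ch w m y z b → ∃ k : INat M, Ch w k x z (a + b) := by
  refine INat.ind (p := fun m => ∀ z b, Ch w m y z b → ∃ k : INat M, Ch w k x z (a + b)) (by
      (repeat' first
        | (with_reducible (refine int_ch' hw ?_ ?_ ?_ ?_))
        | (with_reducible assumption)
        | (with_reducible exact IntF.id) | (with_reducible exact IntF.fst')
        | (with_reducible exact IntF.snd') | (with_reducible exact IntF.const _)
        | (with_reducible exact Int.const _)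
        | (with_reducible apply IntF.fst) | (with_reducible apply IntF.snd)
        | (with_reducible apply Int.and) | (with_reducible apply Int.or) | (with_reducible apply Int.not)
        | (with_reducible apply Int.ne) | (with_reducible apply Int.iff) | (with_reducible apply Int.imp)
        | (with_reducible apply Int.ex) | (with_reducible apply Int.all) | (with_reducible apply Int.eq)
        | (with_reducible apply Int.mem) | (with_reducible apply Int.subset) | (with_reducible apply Int.fin)
        | (with_reducible_and_instances apply Int.leN) | (with_reducible_and_instances apply Int.ltN)
        | (with_reducible_and_instances apply Int.le) | (with_reducible_and_instances apply Int.lt)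
        | (with_reducible_and_instances apply IntF.add) | (with_reducible_and_instances apply IntF.sub)
        | (with_reducible_and_instances apply IntF.mul) | (with_reducible_and_instances apply IntF.neg)
        | (with_reducible_and_instances apply IntF.div) | (with_reducible_and_instances apply IntF.inv)
        | (with_reducible apply IntF.pair) | (with_reducible apply IntF.succ) | (with_reducible apply IntF.sep)
        | (with_reducible apply IntF.insert) | (with_reducible apply IntF.singleton)
        | (with_reducible ((refine IntF.comp₂ ?_ ?_ ?_); assumption))
        | (with_reducible ((refine Int.comp₂ ?_ ?_ ?_); assumption))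
        | (with_reducible ((refine IntF.comp ?_ ?_); assumption))
        | (with_reducible ((refine Int.comp ?_ ?_); assumption))
        | (with_reducible apply IntF.app))) ?_ ?_ m
  · intro z b h1
    obtain ⟨rfl, rfl⟩ := (ch_zero hw).1 h1
    exact ⟨n, by rwa [add_zero]⟩
  · intro m ih z b h1
    obtain ⟨v, c, h2, rfl⟩ := (ch_succ hw).1 h1
    obtain ⟨k, hk⟩ := ih v c h2
    exact ⟨k.succ, (ch_succ hw).2 ⟨v, a + c, hk, by ring⟩⟩

/-- The set of the sums of the chains. -/
noncomputable def sums (M : Type u) [L.Structure M] [IsModel M] {ρ : Type u₂} [ITy M ρ] [Field ρ]
    {α : Type u₁} [ITy M α] (w : α → α → ρ) (x z : α) : IPow M ρ :=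
  sep M fun a => ∃ n : INat M, Ch w n x z a

omit hW in
theorem mem_sums {x z : α} {a : ρ} : a ∈ sums M w x z ↔ ∃ n : INat M, Ch w n x z a := by
  have h : Int M (fun a => ∃ n : INat M, Ch w n x z a) := (by
      (repeat' first
        | (with_reducible (refine int_ch' hw ?_ ?_ ?_ ?_))
        | (with_reducible assumption)
        | (with_reducible exact IntF.id) | (with_reducible exact IntF.fst')
        | (with_reducible exact IntF.snd') | (with_reducible exact IntF.const _)
        | (with_reducible exact Int.const _)
        | (with_reducible apply IntF.fst) | (with_reducible apply IntF.snd)
        | (with_reducible apply Int.and) | (with_reducible apply Int.or) | (with_reducible apply Int.not)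
        | (with_reducible apply Int.ne) | (with_reducible apply Int.iff) | (with_reducible apply Int.imp)
        | (with_reducible apply Int.ex) | (with_reducible apply Int.all) | (with_reducible apply Int.eq)
        | (with_reducible apply Int.mem) | (with_reducible apply Int.subset) | (with_reducible apply Int.fin)
        | (with_reducible_and_instances apply Int.leN) | (with_reducible_and_instances apply Int.ltN)
        | (with_reducible_and_instances apply Int.le) | (with_reducible_and_instances apply Int.lt)
        | (with_reducible_and_instances apply IntF.add) | (with_reducible_and_instances apply IntF.sub)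
        | (with_reducible_and_instances apply IntF.mul) | (with_reducible_and_instances apply IntF.neg)
        | (with_reducible_and_instances apply IntF.div) | (with_reducible_and_instances apply IntF.inv)
        | (with_reducible apply IntF.pair) | (with_reducible apply IntF.succ) | (with_reducible apply IntF.sep)
        | (with_reducible apply IntF.insert) | (with_reducible apply IntF.singleton)
        | (with_reducible ((refine IntF.comp₂ ?_ ?_ ?_); assumption))
        | (with_reducible ((refine Int.comp₂ ?_ ?_ ?_); assumption))
        | (with_reducible ((refine IntF.comp ?_ ?_); assumption))
        | (with_reducible ((refine Int.comp ?_ ?_); assumption))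
        | (with_reducible apply IntF.app)))
  exact mem_sep h

/-- Metrization. -/
theorem exists_metric : ∃ d : α → α → ρ, IntF M (fun p : α × α => d p.1 p.2) ∧
    (∀ x y, w x y ≤ d x y) ∧ (∀ x y, d x y ≤ 2 * w x y) ∧ (∀ x y, d x y = d y x) ∧
    ∀ x y z, d x z ≤ d x y + d y z := by
  have hmem : ∀ {x z : α} {a : ρ}, a ∈ sums M w x z ↔ ∃ n : INat M, Ch w n x z a := mem_sums hw
  have hne : ∀ x z, w x z ∈ sums M w x z := fun x z => hmem.2 ⟨INat.succ 0, (ch_succ hw).2
    ⟨x, 0, (ch_zero hw).2 ⟨rfl, rfl⟩, by rw [zero_add]⟩⟩
  have hb : ∀ x z, ∃ b, ∀ a, a ∈ sums M w x z → b ≤ a := fun x z => ⟨0, fun a ha => by
    obtain ⟨n, hn⟩ := hmem.1 ha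
    exact ch_nonneg hw hW n _ _ _ hn⟩
  have h1 : ∀ x z, iinf (sums M w x z) ≤ w x z := fun x z => iinf_le (hb x z) (hne x z)
  have h2 : ∀ x z, w x z / 2 ≤ iinf (sums M w x z) := fun x z => le_iinf ⟨_, hne x z⟩
    fun a ha => by
      obtain ⟨n, hn⟩ := hmem.1 ha
      have := ch_bound hw hW n.succ n (INat.lt_succ_self n) _ _ _ hn
      linarith
  have h3 : ∀ x y z, iinf (sums M w x z) ≤ iinf (sums M w x y) + iinf (sums M w y z) := by
    intro x y z
    have h4 : ∀ b, b ∈ sums M w y z → iinf (sums M w x z) - b ≤ iinf (sums M w x y) := by
      intro b hb'
      refine le_iinf ⟨_, hne x y⟩ fun a ha => ?_
      obtain ⟨n, hn⟩ := hmem.1 ha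
      obtain ⟨m, hm⟩ := hmem.1 hb'
      obtain ⟨k, hk⟩ := ch_concat hw hn m z b hm
      have := iinf_le (hb x z) (hmem.2 ⟨k, hk⟩)
      linarith
    have h5 : iinf (sums M w x z) - iinf (sums M w x y) ≤ iinf (sums M w y z) :=
      le_iinf ⟨_, hne y z⟩ fun b hb' => by
        have := h4 b hb'
        linarith
    linarith
  have h4 : IntF M (fun p : α × α => iinf (sums M w p.1 p.2)) := by
    unfold sums
    exact (by
        (repeat' first
          | (with_reducible (refine int_ch' hw ?_ ?_ ?_ ?_))
          | (with_reducible (refine IntF.iinf ?_))
          | (with_reducible assumption)
          | (with_reducible exact IntF.id) | (with_reducible exact IntF.fst')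
          | (with_reducible exact IntF.snd') | (with_reducible exact IntF.const _)
          | (with_reducible exact Int.const _)
          | (with_reducible apply IntF.fst) | (with_reducible apply IntF.snd)
          | (with_reducible apply Int.and) | (with_reducible apply Int.or) | (with_reducible apply Int.not)
          | (with_reducible apply Int.ne) | (with_reducible apply Int.iff) | (with_reducible apply Int.imp)
          | (with_reducible apply Int.ex) | (with_reducible apply Int.all) | (with_reducible apply Int.eq)
          | (with_reducible apply Int.mem) | (with_reducible apply Int.subset) | (with_reducible apply Int.fin)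
          | (with_reducible_and_instances apply Int.leN) | (with_reducible_and_instances apply Int.ltN)
          | (with_reducible_and_instances apply Int.le) | (with_reducible_and_instances apply Int.lt)
          | (with_reducible_and_instances apply IntF.add) | (with_reducible_and_instances apply IntF.sub)
          | (with_reducible_and_instances apply IntF.mul) | (with_reducible_and_instances apply IntF.neg)
          | (with_reducible_and_instances apply IntF.div) | (with_reducible_and_instances apply IntF.inv)
          | (with_reducible apply IntF.pair) | (with_reducible apply IntF.succ) | (with_reducible apply IntF.sep)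
          | (with_reducible apply IntF.insert) | (with_reducible apply IntF.singleton)
          | (with_reducible ((refine IntF.comp₂ ?_ ?_ ?_); assumption))
          | (with_reducible ((refine Int.comp₂ ?_ ?_ ?_); assumption))
          | (with_reducible ((refine IntF.comp ?_ ?_); assumption))
          | (with_reducible ((refine Int.comp ?_ ?_); assumption))
          | (with_reducible apply IntF.app)))
  have h5 : IntF M (fun p : α × α => iinf (sums M w p.2 p.1)) :=
    IntF.comp (g := fun p : α × α => iinf (sums M w p.1 p.2)) (f := fun p : α × α => (p.2, p.1)) h4
      (IntF.snd'.pair IntF.fst')
  refine ⟨fun x y => iinf (sums M w x y) + iinf (sums M w y x), IntF.add h4 h5, fun x y => ?_,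
    fun x y => ?_, fun x y => add_comm _ _, fun x y z => ?_⟩
  · have h6 := h2 x y
    have h7 := h2 y x
    have h8 := hW.symm x y
    linarith
  · have h6 := h1 x y
    have h7 := h1 y x
    have h8 := hW.symm x y
    linarith
  · have h6 := h3 x y z
    have h7 := h3 z y x
    linarith

end

end Pool.Agent.Helper672.ZFA.QM
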