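import Pool.Agent.R602.ZR.Real

/-!
# Integers among the real numbers of a model
-/

set_option autoImplicit false
set_option linter.all false

namespace Pool.Agent.Helper672.ZFA.QM

open FirstOrder FirstOrder.Language

universe u u₁ u₂ u₃

section

variable {M : Type u} [L.Structure M] [hM : IsModel M]
variable {ρ : Type u₂} [ITy M ρ] [Field ρ] [LinearOrder ρ] [IsStrictOrderedRing ρ]
  [hρ : IReal M ρ]

variable (M ρ) in
/-- The embedding of the natural numbers. -/
noncomputable def nt (n : INat M) : ρ := irec (0 : ρ) (fun _ x => x + 1) n

theorem int_inc : IntF M (fun q : INat M × ρ => q.2 + 1) := (by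
    (repeat' first
      | (with_reducible assumption)
      | (with_reducible exact IntF.id) | (with_reducible exact IntF.fst')
      | (with_reducible exact IntF.snd') | (with_reducible exact IntF.const _)
      | (with_reducible exact Int.const _)
      | (with_reducible apply IntF.fst) | (with_reducible apply IntF.snd)
      | (with_reducible apply Int.and) | (with_reducible apply Int.or) | (with_reducible apply Int.not)
      | (with_reducible apply Int.ne) | (with_reducible apply Int.iff) | (with_reducible apply Int.imp)
      | (with_reducible apply Int.ex) | (with_reducible apply Int.all) | (with_reducible apply Int.eq)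
      | (with_reducible apply Int.mem) | (with_reducible apply Int.subset) | (with_reducible apply Int.fin)
      | (with_reducible_and_instances apply Int.leN) | (with_reducible_and_instances apply Int.ltN)
      | (with_reducible_and_instances apply Int.le) | (with_reducible_and_instances apply Int.lt)
      | (with_reducible_and_instances apply IntF.add) | (with_reducible_and_instances apply IntF.sub)
      | (with_reducible_and_instances apply IntF.mul) | (with_reducible_and_instances apply IntF.neg)
      | (with_reducible_and_instances apply IntF.div) | (with_reducible_and_instances apply IntF.inv)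
      | (with_reducible apply IntF.pair) | (with_reducible apply IntF.succ) | (with_reducible apply IntF.sep)
      | (with_reducible apply IntF.insert) | (with_reducible apply IntF.singleton)
      | (with_reducible ((refine IntF.comp₂ ?_ ?_ ?_); assumption))
      | (with_reducible ((refine Int.comp₂ ?_ ?_ ?_); assumption))
      | (with_reducible ((refine IntF.comp ?_ ?_); assumption))
      | (with_reducible ((refine Int.comp ?_ ?_); assumption))
      | (with_reducible apply IntF.app)))

theorem nt_zero : nt M ρ 0 = 0 := irec_zero int_inc

theorem nt_succ (n : INat M) : nt M ρ n.succ = nt M ρ n + 1 := irec_succ int_inc n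

theorem int_nt : IntF M (nt M ρ) := by
  have h : IntF M (fun q : (INat M × INat M) × ρ => q.2 + 1) := (by
      (repeat' first
        | (with_reducible assumption)
        | (with_reducible exact IntF.id) | (with_reducible exact IntF.fst')
        | (with_reducible exact IntF.snd') | (with_reducible exact IntF.const _)
        | (with_reducible exact Int.const _)
        | (with_reducible apply IntF.fst) | (with_reducible apply IntF.snd)
        | (with_reducible apply Int.and) | (with_reducible apply Int.or) | (with_reducible apply Int.not)
        | (with_reducible apply Int.ne) | (with_reducible apply Int.iff) | (with_reducible apply Int.imp)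
        | (with_reducible apply Int.ex) | (with_reducible apply Int.all) | (with_reducible apply Int.eq)
        | (with_reducible apply Int.mem) | (with_reducible apply Int.subset) | (with_reducible apply Int.fin)
        | (with_reducible_and_instances apply Int.leN) | (with_reducible_and_instances apply Int.ltN)
        | (with_reducible_and_instances apply Int.le) | (with_reducible_and_instances apply Int.lt)
        | (with_reducible_and_instances apply IntF.add) | (with_reducible_and_instances apply IntF.sub)
        | (with_reducible_and_instances apply IntF.mul) | (with_reducible_and_instances apply IntF.neg)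
        | (with_reducible_and_instances apply IntF.div) | (with_reducible_and_instances apply IntF.inv)
        | (with_reducible apply IntF.pair) | (with_reducible apply IntF.succ) | (with_reducible apply IntF.sep)
        | (with_reducible apply IntF.insert) | (with_reducible apply IntF.singleton)
        | (with_reducible ((refine IntF.comp₂ ?_ ?_ ?_); assumption))
        | (with_reducible ((refine Int.comp₂ ?_ ?_ ?_); assumption))
        | (with_reducible ((refine IntF.comp ?_ ?_); assumption))
        | (with_reducible ((refine Int.comp ?_ ?_); assumption))
        | (with_reducible apply IntF.app)))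
  exact IntF.irec (a := fun _ : INat M => (0 : ρ)) (f := fun _ _ x => x + 1) (n := fun n => n)
    (IntF.const _) h IntF.id

theorem _root_.Pool.Agent.Helper672.ZFA.IntF.nt {γ : Type*} [ITy M γ] {f : γ → INat M}
    (hf : IntF M f) : IntF M (fun c => nt M ρ (f c)) := IntF.comp int_nt hf

theorem nt_mono {m n : INat M} (h : m ≤ n) : nt M ρ m ≤ nt M ρ n := by
  have h0 : IntF M (nt M ρ) := int_nt
  revert h
  refine INat.ind (p := fun n => m ≤ n → nt M ρ m ≤ nt M ρ n) (by
      (repeat' first
        | (with_reducible assumption)
        | (with_reducible exact IntF.id) | (with_reducible exact IntF.fst')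
        | (with_reducible exact IntF.snd') | (with_reducible exact IntF.const _)
        | (with_reducible exact Int.const _)
        | (with_reducible apply IntF.fst) | (with_reducible apply IntF.snd)
        | (with_reducible apply Int.and) | (with_reducible apply Int.or) | (with_reducible apply Int.not)
        | (with_reducible apply Int.ne) | (with_reducible apply Int.iff) | (with_reducible apply Int.imp)
        | (with_reducible apply Int.ex) | (with_reducible apply Int.all) | (with_reducible apply Int.eq)
        | (with_reducible apply Int.mem) | (with_reducible apply Int.subset) | (with_reducible apply Int.fin)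
        | (with_reducible_and_instances apply Int.leN) | (with_reducible_and_instances apply Int.ltN)
        | (with_reducible_and_instances apply Int.le) | (with_reducible_and_instances apply Int.lt)
        | (with_reducible_and_instances apply IntF.add) | (with_reducible_and_instances apply IntF.sub)
        | (with_reducible_and_instances apply IntF.mul) | (with_reducible_and_instances apply IntF.neg)
        | (with_reducible_and_instances apply IntF.div) | (with_reducible_and_instances apply IntF.inv)
        | (with_reducible apply IntF.pair) | (with_reducible apply IntF.succ) | (with_reducible apply IntF.sep)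
        | (with_reducible apply IntF.insert) | (with_reducible apply IntF.singleton)
        | (with_reducible ((refine IntF.comp₂ ?_ ?_ ?_); assumption))
        | (with_reducible ((refine Int.comp₂ ?_ ?_ ?_); assumption))
        | (with_reducible ((refine IntF.comp ?_ ?_); assumption))
        | (with_reducible ((refine Int.comp ?_ ?_); assumption))
        | (with_reducible apply IntF.app))) ?_ ?_ n
  · intro h
    rw [le_antisymm h (INat.zero_le m)]
  · intro n ih h
    rcases h.lt_or_eq with h1 | h1
    · have h2 := ih (INat.lt_succ_iff.1 h1)
      rw [nt_succ]
      linarith
    · rw [h1]

theorem nt_nonneg (n : INat M) : 0 ≤ nt M ρ n := by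
  have h := nt_mono (ρ := ρ) (INat.zero_le n)
  rwa [nt_zero] at h

theorem nt_lt {m n : INat M} (h : m < n) : nt M ρ m + 1 ≤ nt M ρ n := by
  have h1 := nt_mono (ρ := ρ) (INat.succ_le_iff.2 h)
  rwa [nt_succ] at h1

theorem nt_ne {m n : INat M} (h : m ≠ n) : 1 ≤ |nt M ρ m - nt M ρ n| := by
  rcases lt_or_gt_of_ne h with h1 | h1
  · have h2 := nt_lt (ρ := ρ) h1
    rw [abs_sub_comm]
    exact le_trans (by linarith) (le_abs_self _)
  · have h2 := nt_lt (ρ := ρ) h1
    exact le_trans (by linarith) (le_abs_self _)

/-- The Archimedean property. -/
theorem exists_nt (t : ρ) : ∃ n, t < nt M ρ n := by
  have h0 : IntF M (nt M ρ) := int_nt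
  have hi : Int M (fun x : ρ => ∃ n, x = nt M ρ n) := (by
      (repeat' first
        | (with_reducible assumption)
        | (with_reducible exact IntF.id) | (with_reducible exact IntF.fst')
        | (with_reducible exact IntF.snd') | (with_reducible exact IntF.const _)
        | (with_reducible exact Int.const _)
        | (with_reducible apply IntF.fst) | (with_reducible apply IntF.snd)
        | (with_reducible apply Int.and) | (with_reducible apply Int.or) | (with_reducible apply Int.not)
        | (with_reducible apply Int.ne) | (with_reducible apply Int.iff) | (with_reducible apply Int.imp)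
        | (with_reducible apply Int.ex) | (with_reducible apply Int.all) | (with_reducible apply Int.eq)
        | (with_reducible apply Int.mem) | (with_reducible apply Int.subset) | (with_reducible apply Int.fin)
        | (with_reducible_and_instances apply Int.leN) | (with_reducible_and_instances apply Int.ltN)
        | (with_reducible_and_instances apply Int.le) | (with_reducible_and_instances apply Int.lt)
        | (with_reducible_and_instances apply IntF.add) | (with_reducible_and_instances apply IntF.sub)
        | (with_reducible_and_instances apply IntF.mul) | (with_reducible_and_instances apply IntF.neg)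
        | (with_reducible_and_instances apply IntF.div) | (with_reducible_and_instances apply IntF.inv)
        | (with_reducible apply IntF.pair) | (with_reducible apply IntF.succ) | (with_reducible apply IntF.sep)
        | (with_reducible apply IntF.insert) | (with_reducible apply IntF.singleton)
        | (with_reducible ((refine IntF.comp₂ ?_ ?_ ?_); assumption))
        | (with_reducible ((refine Int.comp₂ ?_ ?_ ?_); assumption))
        | (with_reducible ((refine IntF.comp ?_ ?_); assumption))
        | (with_reducible ((refine Int.comp ?_ ?_); assumption))
        | (with_reducible apply IntF.app)))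
  by_contra hc
  push Not at hc
  set s := sep M (fun x : ρ => ∃ n, x = nt M ρ n) with hs
  have hm : ∀ x, x ∈ s ↔ ∃ n, x = nt M ρ n := fun x => mem_sep hi
  obtain ⟨b, hb, hb'⟩ := hρ.sup s ⟨_, (hm _).2 ⟨0, rfl⟩⟩ ⟨t, fun x hx => by
    obtain ⟨n, rfl⟩ := (hm x).1 hx
    exact hc n⟩
  have h1 := hb' (b - 1) fun x hx => by
    obtain ⟨n, rfl⟩ := (hm x).1 hx
    have h2 := hb _ ((hm _).2 ⟨n.succ, rfl⟩)
    rw [nt_succ] at h2
    linarith
  linarith

theorem exists_floor {t : ρ} (ht : 0 ≤ t) : ∃ n, nt M ρ n ≤ t ∧ t < nt M ρ n + 1 := by
  have h0 : IntF M (nt M ρ) := int_nt
  obtain ⟨n, hn, hn'⟩ := INat.exists_least (p := fun n => t < nt M ρ n) (by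
      (repeat' first
        | (with_reducible assumption)
        | (with_reducible exact IntF.id) | (with_reducible exact IntF.fst')
        | (with_reducible exact IntF.snd') | (with_reducible exact IntF.const _)
        | (with_reducible exact Int.const _)
        | (with_reducible apply IntF.fst) | (with_reducible apply IntF.snd)
        | (with_reducible apply Int.and) | (with_reducible apply Int.or) | (with_reducible apply Int.not)
        | (with_reducible apply Int.ne) | (with_reducible apply Int.iff) | (with_reducible apply Int.imp)
        | (with_reducible apply Int.ex) | (with_reducible apply Int.all) | (with_reducible apply Int.eq)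
        | (with_reducible apply Int.mem) | (with_reducible apply Int.subset) | (with_reducible apply Int.fin)
        | (with_reducible_and_instances apply Int.leN) | (with_reducible_and_instances apply Int.ltN)
        | (with_reducible_and_instances apply Int.le) | (with_reducible_and_instances apply Int.lt)
        | (with_reducible_and_instances apply IntF.add) | (with_reducible_and_instances apply IntF.sub)
        | (with_reducible_and_instances apply IntF.mul) | (with_reducible_and_instances apply IntF.neg)
        | (with_reducible_and_instances apply IntF.div) | (with_reducible_and_instances apply IntF.inv)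
        | (with_reducible apply IntF.pair) | (with_reducible apply IntF.succ) | (with_reducible apply IntF.sep)
        | (with_reducible apply IntF.insert) | (with_reducible apply IntF.singleton)
        | (with_reducible ((refine IntF.comp₂ ?_ ?_ ?_); assumption))
        | (with_reducible ((refine Int.comp₂ ?_ ?_ ?_); assumption))
        | (with_reducible ((refine IntF.comp ?_ ?_); assumption))
        | (with_reducible ((refine Int.comp ?_ ?_); assumption))
        | (with_reducible apply IntF.app))) (exists_nt t)
  rcases INat.eq_zero_or_succ n with rfl | ⟨m, rfl⟩
  · rw [nt_zero] at hn
    linarith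
  · refine ⟨m, ?_, by rwa [nt_succ] at hn⟩
    by_contra h1
    exact absurd (hn' m (not_le.1 h1)) (not_le.2 (INat.lt_succ_self m))

/-! ### Parity -/

open Classical in
variable (M) in
/-- The parity. -/
noncomputable def par (n : INat M) : INat M :=
  irec (0 : INat M) (fun _ x => if x = 0 then INat.succ 0 else 0) n

open Classical in
theorem int_flip {γ : Type*} [ITy M γ] :
    IntF M (fun q : γ × INat M => if q.2 = 0 then INat.succ 0 else (0 : INat M)) :=
  IntF.ite (Int.eq IntF.snd' (IntF.const _)) (IntF.const _) (IntF.const _)

theorem par_zero : par M 0 = 0 := irec_zero int_flip

open Classical in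
theorem par_succ (n : INat M) : par M n.succ = if par M n = 0 then INat.succ 0 else 0 :=
  irec_succ int_flip n

theorem par_succ_eq (n : INat M) : par M n.succ = 0 ↔ ¬ par M n = 0 := by
  rw [par_succ]
  by_cases h : par M n = 0
  · rw [if_pos h]
    exact ⟨fun h1 => absurd h1 (INat.succ_ne_zero 0), fun h1 => absurd h h1⟩
  · rw [if_neg h]
    exact ⟨fun _ => h, fun _ => rfl⟩

theorem int_par : IntF M (par M) := by
  exact IntF.irec (a := fun _ : INat M => (0 : INat M)) (f := fun _ _ x => by
    classical exact if x = 0 then INat.succ 0 else 0) (n := fun n => n) (IntF.const _) int_flip
    IntF.id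

theorem _root_.Pool.Agent.Helper672.ZFA.IntF.par {γ : Type*} [ITy M γ] {f : γ → INat M}
    (hf : IntF M f) : IntF M (fun c => par M (f c)) := IntF.comp int_par hf

/-- Numbers of equal parity that are close are equal. -/
theorem par_unique {m n : INat M} {t : ρ} (h : par M m = 0 ↔ par M n = 0)
    (hm : |t - nt M ρ m| < 3 / 4) (hn : |t - nt M ρ n| < 3 / 4) : m = n := by
  have key : ∀ m n : INat M, (par M m = 0 ↔ par M n = 0) → |t - nt M ρ m| < 3 / 4 →
      |t - nt M ρ n| < 3 / 4 → ¬ m < n := by
    intro m n h hm hn hlt
    rw [abs_lt] at hm hn
    rcases (INat.succ_le_iff.2 hlt).lt_or_eq with h1 | h1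
    · have h2 := nt_lt (ρ := ρ) h1
      rw [nt_succ] at h2
      linarith
    · rw [← h1, par_succ_eq] at h
      tauto
  exact le_antisymm (not_lt.1 (key n m h.symm hn hm)) (not_lt.1 (key m n h hm hn))

end

end Pool.Agent.Helper672.ZFA.QM
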