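import Pool.Agent.R602.ZR.Top

/-!
# Compact Hausdorff spaces with a quasi-metric are metrizable
-/

set_option autoImplicit false
set_option linter.all false

namespace Pool.Agent.Helper672.ZFA.QM

open FirstOrder FirstOrder.Language

universe u u₁ u₂ u₃

section

variable {M : Type u} [L.Structure M] [hM : IsModel M]
variable {ρ : Type u₂} [ITy M ρ] [Field ρ] [LinearOrder ρ] [IsStrictOrderedRing ρ]
  [hρ : IReal M ρ] {α : Type u₁} [ITy M α]

/-- The number `e m` is good for `e n`. -/
def Nx (M : Type u) [L.Structure M] [IsModel M] {ρ : Type u₂} [ITy M ρ] [Field ρ]
    [LinearOrder ρ] {α : Type u₁} [ITy M α] (q : α → α → ρ) (n m : INat M) : Prop :=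
  n < m ∧ ∀ y, ∃ z', ∀ z, q z y < pw M ρ m → ∀ w, q z w < pw M ρ m → q z' w < pw M ρ n

/-- The least good number. -/
noncomputable def nx (M : Type u) [L.Structure M] [IsModel M] {ρ : Type u₂} [ITy M ρ] [Field ρ]
    [LinearOrder ρ] {α : Type u₁} [ITy M α] (q : α → α → ρ) (n : INat M) : INat M :=
  the (fun m => Nx M q n m ∧ ∀ m', Nx M q n m' → m ≤ m') 0

/-- The sequence of the indices. -/
noncomputable def ix (M : Type u) [L.Structure M] [IsModel M] {ρ : Type u₂} [ITy M ρ] [Field ρ]
    [LinearOrder ρ] {α : Type u₁} [ITy M α] (q : α → α → ρ) (n : INat M) : INat M :=
  irec (0 : INat M) (fun _ k => nx M q (nx M q k)) n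

variable {q : α → α → ρ} (hq : IntF M (fun p : α × α => q p.1 p.2))

include hq

theorem int_Nx {γ : Type*} [ITy M γ] {n m : γ → INat M} (hn : IntF M n) (hm : IntF M m) :
    Int M (fun c => Nx M q (n c) (m c)) := by
  unfold Nx
  exact (by
      (repeat' first
        | (with_reducible (refine IntF.pw ?_))
        | (with_reducible assumption)
        | (with_reducible exact IntF.id) | (with_reducible exact IntF.fst')
        | (with_reducible exact IntF.snd') | (with_reducible exact IntF.const _)
        | (with_reducible exact Int.const _)
        | (with_reducible apply IntF.fst) | (with_reducible apply IntF.snd)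
        | (with_reducible apply Int.and) | (with_reducible apply Int.or) | (with_reducible apply Int.not)
        | (with_reducible apply Int.ne) | (with_reducible apply Int.iff) | (with_reducible apply Int.imp)
        | (with_reducible apply Int.ex) | (with_reducible apply Int.all) | (with_reducible apply Int.eq)
        | (with_reducible apply Int.mem) | (with_reducible apply Int.subset) | (with_reducible apply Int.fin)
        | (with_reducible_and_instances apply Int.leN) | (with_reducible_and_instances apply Int.ltN)
        | (with_reducible_and_instances apply Int.le) | (with_reducible_and_instances apply Int.lt)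
        | (with_reducible_and_instances apply IntF.add) | (with_reducible_and_instances apply IntF.sub)
        | (with_reducible_and_instances apply IntF.mul) | (with_reducible_and_instances apply IntF.neg)
        | (with_reducible_and_instances apply IntF.div) | (with_reducible_and_instances apply IntF.inv)
        | (with_reducible apply IntF.pair) | (with_reducible apply IntF.succ) | (with_reducible apply IntF.sep)
        | (with_reducible apply IntF.insert) | (with_reducible apply IntF.singleton)
        | (with_reducible ((refine IntF.comp₂ ?_ ?_ ?_); assumption))
        | (with_reducible ((refine Int.comp₂ ?_ ?_ ?_); assumption))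
        | (with_reducible ((refine IntF.comp ?_ ?_); assumption))
        | (with_reducible ((refine Int.comp ?_ ?_); assumption))
        | (with_reducible apply IntF.app)))

theorem int_nx {γ : Type*} [ITy M γ] {n : γ → INat M} (hn : IntF M n) :
    IntF M (fun c => nx M q (n c)) := by
  unfold nx
  refine IntF.the ?_ (IntF.const _)
  exact (by
      (repeat' first
        | (with_reducible (refine int_Nx hq ?_ ?_))
        | (with_reducible assumption)
        | (with_reducible exact IntF.id) | (with_reducible exact IntF.fst')
        | (with_reducible exact IntF.snd') | (with_reducible exact IntF.const _)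
        | (with_reducible exact Int.const _)
        | (with_reducible apply IntF.fst) | (with_reducible apply IntF.snd)
        | (with_reducible apply Int.and) | (with_reducible apply Int.or) | (with_reducible apply Int.not)
        | (with_reducible apply Int.ne) | (with_reducible apply Int.iff) | (with_reducible apply Int.imp)
        | (with_reducible apply Int.ex) | (with_reducible apply Int.all) | (with_reducible apply Int.eq)
        | (with_reducible apply Int.mem) | (with_reducible apply Int.subset) | (with_reducible apply Int.fin)
        | (with_reducible_and_instances apply Int.leN) | (with_reducible_and_instances apply Int.ltN)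
        | (with_reducible_and_instances apply Int.le) | (with_reducible_and_instances apply Int.lt)
        | (with_reducible_and_instances apply IntF.add) | (with_reducible_and_instances apply IntF.sub)
        | (with_reducible_and_instances apply IntF.mul) | (with_reducible_and_instances apply IntF.neg)
        | (with_reducible_and_instances apply IntF.div) | (with_reducible_and_instances apply IntF.inv)
        | (with_reducible apply IntF.pair) | (with_reducible apply IntF.succ) | (with_reducible apply IntF.sep)
        | (with_reducible apply IntF.insert) | (with_reducible apply IntF.singleton)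
        | (with_reducible ((refine IntF.comp₂ ?_ ?_ ?_); assumption))
        | (with_reducible ((refine Int.comp₂ ?_ ?_ ?_); assumption))
        | (with_reducible ((refine IntF.comp ?_ ?_); assumption))
        | (with_reducible ((refine Int.comp ?_ ?_); assumption))
        | (with_reducible apply IntF.app)))

theorem exists_Nx (h : CH M q) (n : INat M) : ∃ m, Nx M q n m := by
  obtain ⟨s, hs, h1⟩ := exists_next hq h (pw_pos (ρ := ρ) n)
  obtain ⟨m, hm⟩ := exists_pw (M := M) (lt_min hs (pw_pos (ρ := ρ) n))
  refine ⟨m, pw_lt (hm.trans_le (min_le_right _ _)), fun y => ?_⟩
  obtain ⟨z', hz'⟩ := h1 y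
  have h2 : pw M ρ m < s := hm.trans_le (min_le_left _ _)
  exact ⟨z', fun z hz w hw => hz' z (hz.trans h2) w (hw.trans h2)⟩

theorem nx_spec (h : CH M q) (n : INat M) : Nx M q n (nx M q n) := by
  obtain ⟨m, hm, hm'⟩ := INat.exists_least (int_Nx hq (IntF.const n) IntF.id) (exists_Nx hq h n)
  have h1 : ∃! m, Nx M q n m ∧ ∀ m', Nx M q n m' → m ≤ m' :=
    ⟨m, ⟨hm, hm'⟩, fun k hk => le_antisymm (hk.2 m hm) (hm' k hk.1)⟩
  exact (the_spec h1).1

theorem int_ix {γ : Type*} [ITy M γ] {n : γ → INat M} (hn : IntF M n) :
    IntF M (fun c => ix M q (n c)) := by
  have h1 : IntF M (fun t : (γ × INat M) × INat M => nx M q (nx M q t.2)) :=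
    int_nx hq (int_nx hq IntF.snd')
  exact IntF.irec (a := fun _ : γ => (0 : INat M)) (f := fun _ _ k => nx M q (nx M q k)) (n := n)
    (IntF.const _) h1 hn

theorem ix_zero : ix M q 0 = 0 := by
  have h1 : IntF M (fun t : INat M × INat M => nx M q (nx M q t.2)) :=
    int_nx hq (int_nx hq IntF.snd')
  exact irec_zero h1

theorem ix_succ (n : INat M) : ix M q n.succ = nx M q (nx M q (ix M q n)) := by
  have h1 : IntF M (fun t : INat M × INat M => nx M q (nx M q t.2)) :=
    int_nx hq (int_nx hq IntF.snd')
  exact irec_succ h1 n

theorem le_ix (h : CH M q) (n : INat M) : n ≤ ix M q n := by
  refine INat.ind (p := fun n => n ≤ ix M q n) (by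
      (repeat' first
        | (with_reducible (refine int_ix hq ?_))
        | (with_reducible assumption)
        | (with_reducible exact IntF.id) | (with_reducible exact IntF.fst')
        | (with_reducible exact IntF.snd') | (with_reducible exact IntF.const _)
        | (with_reducible exact Int.const _)
        | (with_reducible apply IntF.fst) | (with_reducible apply IntF.snd)
        | (with_reducible apply Int.and) | (with_reducible apply Int.or) | (with_reducible apply Int.not)
        | (with_reducible apply Int.ne) | (with_reducible apply Int.iff) | (with_reducible apply Int.imp)
        | (with_reducible apply Int.ex) | (with_reducible apply Int.all) | (with_reducible apply Int.eq)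
        | (with_reducible apply Int.mem) | (with_reducible apply Int.subset) | (with_reducible apply Int.fin)
        | (with_reducible_and_instances apply Int.leN) | (with_reducible_and_instances apply Int.ltN)
        | (with_reducible_and_instances apply Int.le) | (with_reducible_and_instances apply Int.lt)
        | (with_reducible_and_instances apply IntF.add) | (with_reducible_and_instances apply IntF.sub)
        | (with_reducible_and_instances apply IntF.mul) | (with_reducible_and_instances apply IntF.neg)
        | (with_reducible_and_instances apply IntF.div) | (with_reducible_and_instances apply IntF.inv)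
        | (with_reducible apply IntF.pair) | (with_reducible apply IntF.succ) | (with_reducible apply IntF.sep)
        | (with_reducible apply IntF.insert) | (with_reducible apply IntF.singleton)
        | (with_reducible ((refine IntF.comp₂ ?_ ?_ ?_); assumption))
        | (with_reducible ((refine Int.comp₂ ?_ ?_ ?_); assumption))
        | (with_reducible ((refine IntF.comp ?_ ?_); assumption))
        | (with_reducible ((refine Int.comp ?_ ?_); assumption))
        | (with_reducible apply IntF.app))) ?_ ?_ n
  · exact INat.zero_le _
  · intro n ih
    rw [ix_succ hq]
    have h1 := (nx_spec hq h (ix M q n)).1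
    have h2 := (nx_spec hq h (nx M q (ix M q n))).1
    exact INat.succ_le_iff.2 (lt_of_le_of_lt ih (h1.trans h2))

/-- The entourages. -/
def En (M : Type u) [L.Structure M] [IsModel M] {ρ : Type u₂} [ITy M ρ] [Field ρ]
    [LinearOrder ρ] {α : Type u₁} [ITy M α] (q : α → α → ρ) (k : INat M) (x y : α) : Prop :=
  ∃ z, q z x < pw M ρ (ix M q k) ∧ q z y < pw M ρ (ix M q k)

theorem int_En {γ : Type*} [ITy M γ] {n : γ → INat M} {x y : γ → α} (hn : IntF M n)
    (hx : IntF M x) (hy : IntF M y) : Int M (fun c => En M q (n c) (x c) (y c)) := by
  unfold En
  exact (by
      (repeat' first
        | (with_reducible (refine IntF.pw ?_))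
        | (with_reducible (refine int_ix hq ?_))
        | (with_reducible assumption)
        | (with_reducible exact IntF.id) | (with_reducible exact IntF.fst')
        | (with_reducible exact IntF.snd') | (with_reducible exact IntF.const _)
        | (with_reducible exact Int.const _)
        | (with_reducible apply IntF.fst) | (with_reducible apply IntF.snd)
        | (with_reducible apply Int.and) | (with_reducible apply Int.or) | (with_reducible apply Int.not)
        | (with_reducible apply Int.ne) | (with_reducible apply Int.iff) | (with_reducible apply Int.imp)
        | (with_reducible apply Int.ex) | (with_reducible apply Int.all) | (with_reducible apply Int.eq)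
        | (with_reducible apply Int.mem) | (with_reducible apply Int.subset) | (with_reducible apply Int.fin)
        | (with_reducible_and_instances apply Int.leN) | (with_reducible_and_instances apply Int.ltN)
        | (with_reducible_and_instances apply Int.le) | (with_reducible_and_instances apply Int.lt)
        | (with_reducible_and_instances apply IntF.add) | (with_reducible_and_instances apply IntF.sub)
        | (with_reducible_and_instances apply IntF.mul) | (with_reducible_and_instances apply IntF.neg)
        | (with_reducible_and_instances apply IntF.div) | (with_reducible_and_instances apply IntF.inv)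
        | (with_reducible apply IntF.pair) | (with_reducible apply IntF.succ) | (with_reducible apply IntF.sep)
        | (with_reducible apply IntF.insert) | (with_reducible apply IntF.singleton)
        | (with_reducible ((refine IntF.comp₂ ?_ ?_ ?_); assumption))
        | (with_reducible ((refine Int.comp₂ ?_ ?_ ?_); assumption))
        | (with_reducible ((refine IntF.comp ?_ ?_); assumption))
        | (with_reducible ((refine Int.comp ?_ ?_); assumption))
        | (with_reducible apply IntF.app)))

omit hq in
theorem en_symm {k : INat M} {x y : α} (h : En M q k x y) : En M q k y x := by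
  obtain ⟨z, h1, h2⟩ := h
  exact ⟨z, h2, h1⟩

theorem en_self (h : CH M q) (k : INat M) (x : α) : En M q k x x := by
  refine ⟨x, ?_, ?_⟩
  all_goals
    rw [h.qm.self]
    exact pw_pos _

theorem en_three (h : CH M q) {k : INat M} {x y z t : α} (h1 : En M q k.succ x y)
    (h2 : En M q k.succ y z) (h3 : En M q k.succ z t) : En M q k x t := by
  have key : ∀ (n : INat M) (x y z : α), (∃ a, q a x < pw M ρ (nx M q n) ∧
      q a y < pw M ρ (nx M q n)) → (∃ a, q a y < pw M ρ (nx M q n) ∧ q a z < pw M ρ (nx M q n)) →
      ∃ a, q a x < pw M ρ n ∧ q a z < pw M ρ n := by
    rintro n x y z ⟨a, h4, h5⟩ ⟨b, h6, h7⟩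
    obtain ⟨c, hc⟩ := (nx_spec hq h n).2 y
    exact ⟨c, hc a h5 x h4, hc b h6 z h7⟩
  unfold En at h1 h2 h3 ⊢
  rw [ix_succ hq] at h1 h2 h3
  refine key _ x z t (key _ x y z h1 h2) ?_
  obtain ⟨a, h4, h5⟩ := h3
  have h6 : pw M ρ (nx M q (nx M q (ix M q k))) ≤ pw M ρ (nx M q (ix M q k)) :=
    pw_anti (nx_spec hq h _).1.le
  exact ⟨a, h4.trans_le h6, h5.trans_le h6⟩

theorem en_anti (h : CH M q) {k : INat M} (m : INat M) : ∀ x y, k ≤ m → En M q m x y →
    En M q k x y := by
  refine INat.ind (p := fun m => ∀ x y, k ≤ m → En M q m x y → En M q k x y)
    (by
        (repeat' first
          | (with_reducible (refine int_En hq ?_ ?_ ?_))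
          | (with_reducible assumption)
          | (with_reducible exact IntF.id) | (with_reducible exact IntF.fst')
          | (with_reducible exact IntF.snd') | (with_reducible exact IntF.const _)
          | (with_reducible exact Int.const _)
          | (with_reducible apply IntF.fst) | (with_reducible apply IntF.snd)
          | (with_reducible apply Int.and) | (with_reducible apply Int.or) | (with_reducible apply Int.not)
          | (with_reducible apply Int.ne) | (with_reducible apply Int.iff) | (with_reducible apply Int.imp)
          | (with_reducible apply Int.ex) | (with_reducible apply Int.all) | (with_reducible apply Int.eq)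
          | (with_reducible apply Int.mem) | (with_reducible apply Int.subset) | (with_reducible apply Int.fin)
          | (with_reducible_and_instances apply Int.leN) | (with_reducible_and_instances apply Int.ltN)
          | (with_reducible_and_instances apply Int.le) | (with_reducible_and_instances apply Int.lt)
          | (with_reducible_and_instances apply IntF.add) | (with_reducible_and_instances apply IntF.sub)
          | (with_reducible_and_instances apply IntF.mul) | (with_reducible_and_instances apply IntF.neg)
          | (with_reducible_and_instances apply IntF.div) | (with_reducible_and_instances apply IntF.inv)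
          | (with_reducible apply IntF.pair) | (with_reducible apply IntF.succ) | (with_reducible apply IntF.sep)
          | (with_reducible apply IntF.insert) | (with_reducible apply IntF.singleton)
          | (with_reducible ((refine IntF.comp₂ ?_ ?_ ?_); assumption))
          | (with_reducible ((refine Int.comp₂ ?_ ?_ ?_); assumption))
          | (with_reducible ((refine IntF.comp ?_ ?_); assumption))
          | (with_reducible ((refine Int.comp ?_ ?_); assumption))
          | (with_reducible apply IntF.app))) ?_ ?_ m
  · intro x y h1 h2
    rwa [le_antisymm h1 (INat.zero_le k)]
  · intro m ih x y h1 h2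
    rcases h1.eq_or_lt with h3 | h3
    · rwa [h3]
    · exact ih x y (INat.lt_succ_iff.1 h3) (en_three hq h h2 (en_self hq h _ y)
        (en_self hq h _ y))

/-- The weight. -/
noncomputable def wt (M : Type u) [L.Structure M] [IsModel M] {ρ : Type u₂} [ITy M ρ] [Field ρ]
    [LinearOrder ρ] {α : Type u₁} [ITy M α] (q : α → α → ρ) (x y : α) : IPow M ρ :=
  sep M fun a => a = 2 ∨ ∃ k, a = pw M ρ k ∧ En M q k x y

theorem mem_wt {x y : α} {a : ρ} : a ∈ wt M q x y ↔ a = 2 ∨ ∃ k, a = pw M ρ k ∧ En M q k x y := by
  have h : Int M (fun a => a = 2 ∨ ∃ k, a = pw M ρ k ∧ En M q k x y) :=
    (by
        (repeat' first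
          | (with_reducible (refine int_En hq ?_ ?_ ?_))
          | (with_reducible (refine IntF.pw ?_))
          | (with_reducible assumption)
          | (with_reducible exact IntF.id) | (with_reducible exact IntF.fst')
          | (with_reducible exact IntF.snd') | (with_reducible exact IntF.const _)
          | (with_reducible exact Int.const _)
          | (with_reducible apply IntF.fst) | (with_reducible apply IntF.snd)
          | (with_reducible apply Int.and) | (with_reducible apply Int.or) | (with_reducible apply Int.not)
          | (with_reducible apply Int.ne) | (with_reducible apply Int.iff) | (with_reducible apply Int.imp)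
          | (with_reducible apply Int.ex) | (with_reducible apply Int.all) | (with_reducible apply Int.eq)
          | (with_reducible apply Int.mem) | (with_reducible apply Int.subset) | (with_reducible apply Int.fin)
          | (with_reducible_and_instances apply Int.leN) | (with_reducible_and_instances apply Int.ltN)
          | (with_reducible_and_instances apply Int.le) | (with_reducible_and_instances apply Int.lt)
          | (with_reducible_and_instances apply IntF.add) | (with_reducible_and_instances apply IntF.sub)
          | (with_reducible_and_instances apply IntF.mul) | (with_reducible_and_instances apply IntF.neg)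
          | (with_reducible_and_instances apply IntF.div) | (with_reducible_and_instances apply IntF.inv)
          | (with_reducible apply IntF.pair) | (with_reducible apply IntF.succ) | (with_reducible apply IntF.sep)
          | (with_reducible apply IntF.insert) | (with_reducible apply IntF.singleton)
          | (with_reducible ((refine IntF.comp₂ ?_ ?_ ?_); assumption))
          | (with_reducible ((refine Int.comp₂ ?_ ?_ ?_); assumption))
          | (with_reducible ((refine IntF.comp ?_ ?_); assumption))
          | (with_reducible ((refine Int.comp ?_ ?_); assumption))
          | (with_reducible apply IntF.app)))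
  exact mem_sep h

theorem wt_nonneg {x y : α} {a : ρ} (ha : a ∈ wt M q x y) : 0 ≤ a := by
  rcases (mem_wt hq).1 ha with rfl | ⟨k, rfl, -⟩
  · norm_num
  · exact (pw_pos k).le

theorem wt_le {x y : α} {k : INat M} (h : En M q k x y) : iinf (wt M q x y) ≤ pw M ρ k :=
  iinf_le ⟨0, fun a ha => wt_nonneg hq ha⟩ ((mem_wt hq).2 (Or.inr ⟨k, rfl, h⟩))

theorem wt_le_two (x y : α) : iinf (wt M q x y) ≤ 2 :=
  iinf_le ⟨0, fun a ha => wt_nonneg hq ha⟩ ((mem_wt hq).2 (Or.inl rfl))

theorem wt_ne (x y : α) : ∃ a, a ∈ wt M q x y := ⟨2, (mem_wt hq).2 (Or.inl rfl)⟩

theorem wt_zero_le (x y : α) : 0 ≤ iinf (wt M q x y) :=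
  le_iinf (wt_ne hq x y) fun a ha => wt_nonneg hq ha

theorem of_wt_lt (h : CH M q) {x y : α} {k : INat M} (h1 : iinf (wt M q x y) < pw M ρ k) :
    En M q k.succ x y := by
  obtain ⟨a, ha, h2⟩ := iinf_lt (wt_ne hq x y) h1
  rcases (mem_wt hq).1 ha with rfl | ⟨m, rfl, h3⟩
  · have h4 : pw M ρ k ≤ pw M ρ 0 := pw_anti (INat.zero_le k)
    rw [pw_zero] at h4
    linarith
  · exact en_anti hq h m x y (INat.succ_le_iff.2 (pw_lt h2)) h3

theorem le_of_pw {a b : ρ} (hb : 0 ≤ b) (ha : a ≤ 2) (h : ∀ k : INat M, b < pw M ρ k →
    a ≤ pw M ρ k) : a ≤ 2 * b := by
  have h0 : IntF M (pw M ρ) := int_pw
  rcases le_or_gt 1 b with h1 | h1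
  · linarith
  · rcases hb.eq_or_lt with h2 | h2
    · by_contra h3
      push Not at h3
      obtain ⟨n, hn⟩ := exists_pw (M := M) (e := a) (by linarith)
      have h4 := h n (by rw [← h2]; exact pw_pos n)
      linarith
    · obtain ⟨n, hn, hn'⟩ := INat.exists_least (p := fun n => pw M ρ n ≤ b) (by
        (repeat' first
          | (with_reducible assumption)
          | (with_reducible exact IntF.id) | (with_reducible exact IntF.fst')
          | (with_reducible exact IntF.snd') | (with_reducible exact IntF.const _)
          | (with_reducible exact Int.const _)
          | (with_reducible apply IntF.fst) | (with_reducible apply IntF.snd)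
          | (with_reducible apply Int.and) | (with_reducible apply Int.or) | (with_reducible apply Int.not)
          | (with_reducible apply Int.ne) | (with_reducible apply Int.iff) | (with_reducible apply Int.imp)
          | (with_reducible apply Int.ex) | (with_reducible apply Int.all) | (with_reducible apply Int.eq)
          | (with_reducible apply Int.mem) | (with_reducible apply Int.subset) | (with_reducible apply Int.fin)
          | (with_reducible_and_instances apply Int.leN) | (with_reducible_and_instances apply Int.ltN)
          | (with_reducible_and_instances apply Int.le) | (with_reducible_and_instances apply Int.lt)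
          | (with_reducible_and_instances apply IntF.add) | (with_reducible_and_instances apply IntF.sub)
          | (with_reducible_and_instances apply IntF.mul) | (with_reducible_and_instances apply IntF.neg)
          | (with_reducible_and_instances apply IntF.div) | (with_reducible_and_instances apply IntF.inv)
          | (with_reducible apply IntF.pair) | (with_reducible apply IntF.succ) | (with_reducible apply IntF.sep)
          | (with_reducible apply IntF.insert) | (with_reducible apply IntF.singleton)
          | (with_reducible ((refine IntF.comp₂ ?_ ?_ ?_); assumption))
          | (with_reducible ((refine Int.comp₂ ?_ ?_ ?_); assumption))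
          | (with_reducible ((refine IntF.comp ?_ ?_); assumption))
          | (with_reducible ((refine Int.comp ?_ ?_); assumption))
          | (with_reducible apply IntF.app))) (by
        obtain ⟨n, hn⟩ := exists_pw (M := M) h2
        exact ⟨n, hn.le⟩)
      rcases INat.eq_zero_or_succ n with rfl | ⟨m, rfl⟩
      · rw [pw_zero] at hn
        linarith
      · have h3 : b < pw M ρ m := by
          by_contra h4
          exact absurd (hn' m (not_lt.1 h4)) (not_le.2 (INat.lt_succ_self m))
        have h4 := h m h3
        rw [pw_succ] at hn
        linarith

theorem wt_wt (h : CH M q) : Wt (fun x y : α => iinf (wt M q x y)) := by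
  refine ⟨wt_zero_le hq, fun x => ?_, fun x y => ?_, fun x y hxy => ?_, fun x y z t a h1 h2 h3 => ?_⟩
  · have h1 := le_of_pw (M := M) (q := q) hq (a := iinf (wt M q x x)) (b := 0) le_rfl
      (wt_le_two hq x x) fun k _ => wt_le hq (en_self hq h k x)
    have h2 := wt_zero_le hq x x
    linarith
  · have h1 : wt M q x y = wt M q y x := by
      refine IPow.ext' fun a => ?_
      rw [mem_wt hq, mem_wt hq]
      refine or_congr_right (exists_congr fun k => and_congr_right fun _ => ?_)
      exact ⟨en_symm, en_symm⟩
    rw [h1]
  · by_contra hne
    obtain ⟨U, V, hU, hV, hxU, hyV, hUV⟩ := h.haus x y hne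
    have h1 : Int M (fun z : α => ¬ z = x) := (by
        (repeat' first
          | (with_reducible assumption)
          | (with_reducible exact IntF.id) | (with_reducible exact IntF.fst')
          | (with_reducible exact IntF.snd') | (with_reducible exact IntF.const _)
          | (with_reducible exact Int.const _)
          | (with_reducible apply IntF.fst) | (with_reducible apply IntF.snd)
          | (with_reducible apply Int.and) | (with_reducible apply Int.or) | (with_reducible apply Int.not)
          | (with_reducible apply Int.ne) | (with_reducible apply Int.iff) | (with_reducible apply Int.imp)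
          | (with_reducible apply Int.ex) | (with_reducible apply Int.all) | (with_reducible apply Int.eq)
          | (with_reducible apply Int.mem) | (with_reducible apply Int.subset) | (with_reducible apply Int.fin)
          | (with_reducible_and_instances apply Int.leN) | (with_reducible_and_instances apply Int.ltN)
          | (with_reducible_and_instances apply Int.le) | (with_reducible_and_instances apply Int.lt)
          | (with_reducible_and_instances apply IntF.add) | (with_reducible_and_instances apply IntF.sub)
          | (with_reducible_and_instances apply IntF.mul) | (with_reducible_and_instances apply IntF.neg)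
          | (with_reducible_and_instances apply IntF.div) | (with_reducible_and_instances apply IntF.inv)
          | (with_reducible apply IntF.pair) | (with_reducible apply IntF.succ) | (with_reducible apply IntF.sep)
          | (with_reducible apply IntF.insert) | (with_reducible apply IntF.singleton)
          | (with_reducible ((refine IntF.comp₂ ?_ ?_ ?_); assumption))
          | (with_reducible ((refine Int.comp₂ ?_ ?_ ?_); assumption))
          | (with_reducible ((refine IntF.comp ?_ ?_); assumption))
          | (with_reducible ((refine Int.comp ?_ ?_); assumption))
          | (with_reducible apply IntF.app)))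
    obtain ⟨Z, hZ⟩ := exists_set h1
    have hC : Int M (fun W : IPow M α => W = U ∨ W = Z) := (by
        (repeat' first
          | (with_reducible assumption)
          | (with_reducible exact IntF.id) | (with_reducible exact IntF.fst')
          | (with_reducible exact IntF.snd') | (with_reducible exact IntF.const _)
          | (with_reducible exact Int.const _)
          | (with_reducible apply IntF.fst) | (with_reducible apply IntF.snd)
          | (with_reducible apply Int.and) | (with_reducible apply Int.or) | (with_reducible apply Int.not)
          | (with_reducible apply Int.ne) | (with_reducible apply Int.iff) | (with_reducible apply Int.imp)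
          | (with_reducible apply Int.ex) | (with_reducible apply Int.all) | (with_reducible apply Int.eq)
          | (with_reducible apply Int.mem) | (with_reducible apply Int.subset) | (with_reducible apply Int.fin)
          | (with_reducible_and_instances apply Int.leN) | (with_reducible_and_instances apply Int.ltN)
          | (with_reducible_and_instances apply Int.le) | (with_reducible_and_instances apply Int.lt)
          | (with_reducible_and_instances apply IntF.add) | (with_reducible_and_instances apply IntF.sub)
          | (with_reducible_and_instances apply IntF.mul) | (with_reducible_and_instances apply IntF.neg)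
          | (with_reducible_and_instances apply IntF.div) | (with_reducible_and_instances apply IntF.inv)
          | (with_reducible apply IntF.pair) | (with_reducible apply IntF.succ) | (with_reducible apply IntF.sep)
          | (with_reducible apply IntF.insert) | (with_reducible apply IntF.singleton)
          | (with_reducible ((refine IntF.comp₂ ?_ ?_ ?_); assumption))
          | (with_reducible ((refine Int.comp₂ ?_ ?_ ?_); assumption))
          | (with_reducible ((refine IntF.comp ?_ ?_); assumption))
          | (with_reducible ((refine Int.comp ?_ ?_); assumption))
          | (with_reducible apply IntF.app)))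
    obtain ⟨C, hC'⟩ := exists_set hC
    have hZo : OpenQ q Z := by
      intro z hz
      obtain ⟨U', V', hU', hV', h2, h3, h4⟩ := h.haus x z (Ne.symm ((hZ z).1 hz))
      obtain ⟨e, he, h5⟩ := hV' z h3
      exact ⟨e, he, fun w hw => (hZ w).2 fun h6 => h4 x h2 (h6 ▸ h5 w hw)⟩
    obtain ⟨s, hs, h2⟩ := lebesgue hq h C (fun W hW => by
      rcases (hC' W).1 hW with rfl | rfl
      · exact hU
      · exact hZo) (fun z => by
      by_cases hz : z = x
      · exact ⟨U, (hC' U).2 (Or.inl rfl), hz ▸ hxU⟩
      · exact ⟨Z, (hC' Z).2 (Or.inr rfl), (hZ z).2 hz⟩)
    obtain ⟨n, hn⟩ := exists_pw (M := M) hs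
    obtain ⟨z, hz1, hz2⟩ := of_wt_lt hq h (hxy.trans_lt (pw_pos n))
    have h3 : pw M ρ (ix M q n.succ) < s :=
      (pw_anti ((INat.le_succ_self n).trans (le_ix hq h _))).trans_lt hn
    obtain ⟨W, hW, h4⟩ := h2 z
    have h5 := h4 x (hz1.trans h3)
    have h6 := h4 y (hz2.trans h3)
    rcases (hC' W).1 hW with rfl | rfl
    · exact hUV y h6 hyV
    · exact (hZ x).1 h5 rfl
  · refine le_of_pw (M := M) (q := q) hq ((wt_zero_le hq x y).trans h1) (wt_le_two hq x t)
      fun k hk => ?_
    exact wt_le hq (en_three hq h (of_wt_lt hq h (h1.trans_lt hk)) (of_wt_lt hq h (h2.trans_lt hk))
      (of_wt_lt hq h (h3.trans_lt hk)))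

/-- Metrization of the compact Hausdorff spaces with a quasi-metric. -/
theorem metrizable (h : CH M q) : ∃ d : α → α → ρ, IntF M (fun p : α × α => d p.1 p.2) ∧
    (∀ x y, 0 ≤ d x y) ∧ (∀ x y, d x y = 0 ↔ x = y) ∧ (∀ x y, d x y = d y x) ∧
    (∀ x y z, d x z ≤ d x y + d y z) ∧ ∀ U : IPow M α, OpenQ q U ↔ OpenQ d U := by
  have hw : IntF M (fun p : α × α => iinf (wt M q p.1 p.2)) := by
    unfold wt
    exact (by
        (repeat' first
          | (with_reducible (refine int_En hq ?_ ?_ ?_))
          | (with_reducible (refine IntF.pw ?_))
          | (with_reducible (refine IntF.iinf ?_))
          | (with_reducible assumption)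
          | (with_reducible exact IntF.id) | (with_reducible exact IntF.fst')
          | (with_reducible exact IntF.snd') | (with_reducible exact IntF.const _)
          | (with_reducible exact Int.const _)
          | (with_reducible apply IntF.fst) | (with_reducible apply IntF.snd)
          | (with_reducible apply Int.and) | (with_reducible apply Int.or) | (with_reducible apply Int.not)
          | (with_reducible apply Int.ne) | (with_reducible apply Int.iff) | (with_reducible apply Int.imp)
          | (with_reducible apply Int.ex) | (with_reducible apply Int.all) | (with_reducible apply Int.eq)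
          | (with_reducible apply Int.mem) | (with_reducible apply Int.subset) | (with_reducible apply Int.fin)
          | (with_reducible_and_instances apply Int.leN) | (with_reducible_and_instances apply Int.ltN)
          | (with_reducible_and_instances apply Int.le) | (with_reducible_and_instances apply Int.lt)
          | (with_reducible_and_instances apply IntF.add) | (with_reducible_and_instances apply IntF.sub)
          | (with_reducible_and_instances apply IntF.mul) | (with_reducible_and_instances apply IntF.neg)
          | (with_reducible_and_instances apply IntF.div) | (with_reducible_and_instances apply IntF.inv)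
          | (with_reducible apply IntF.pair) | (with_reducible apply IntF.succ) | (with_reducible apply IntF.sep)
          | (with_reducible apply IntF.insert) | (with_reducible apply IntF.singleton)
          | (with_reducible ((refine IntF.comp₂ ?_ ?_ ?_); assumption))
          | (with_reducible ((refine Int.comp₂ ?_ ?_ ?_); assumption))
          | (with_reducible ((refine IntF.comp ?_ ?_); assumption))
          | (with_reducible ((refine Int.comp ?_ ?_); assumption))
          | (with_reducible apply IntF.app)))
  have hW := wt_wt hq h
  obtain ⟨d, hd, h1, h2, h3, h4⟩ := exists_metric hw hW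
  have h0 : ∀ x y, 0 ≤ d x y := fun x y => (hW.nonneg x y).trans (h1 x y)
  have h5 : ∀ x y, d x y = 0 ↔ x = y := by
    intro x y
    constructor
    · intro h6
      refine hW.eq x y (le_antisymm ?_ (hW.nonneg x y))
      rw [← h6]
      exact h1 x y
    · rintro rfl
      refine le_antisymm ?_ (h0 x x)
      have h6 := h2 x x
      have h7 := hW.self x
      have h8 : d x x ≤ 2 * iinf (wt M q x x) := h6
      have h9 : iinf (wt M q x x) = 0 := h7
      linarith
  refine ⟨d, hd, h0, h5, h3, h4, fun U => ⟨fun hU x hx => ?_, fun hU x hx => ?_⟩⟩
  · have hZi : Int M (fun z : α => ¬ z = x) := (by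
      (repeat' first
        | (with_reducible assumption)
        | (with_reducible exact IntF.id) | (with_reducible exact IntF.fst')
        | (with_reducible exact IntF.snd') | (with_reducible exact IntF.const _)
        | (with_reducible exact Int.const _)
        | (with_reducible apply IntF.fst) | (with_reducible apply IntF.snd)
        | (with_reducible apply Int.and) | (with_reducible apply Int.or) | (with_reducible apply Int.not)
        | (with_reducible apply Int.ne) | (with_reducible apply Int.iff) | (with_reducible apply Int.imp)
        | (with_reducible apply Int.ex) | (with_reducible apply Int.all) | (with_reducible apply Int.eq)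
        | (with_reducible apply Int.mem) | (with_reducible apply Int.subset) | (with_reducible apply Int.fin)
        | (with_reducible_and_instances apply Int.leN) | (with_reducible_and_instances apply Int.ltN)
        | (with_reducible_and_instances apply Int.le) | (with_reducible_and_instances apply Int.lt)
        | (with_reducible_and_instances apply IntF.add) | (with_reducible_and_instances apply IntF.sub)
        | (with_reducible_and_instances apply IntF.mul) | (with_reducible_and_instances apply IntF.neg)
        | (with_reducible_and_instances apply IntF.div) | (with_reducible_and_instances apply IntF.inv)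
        | (with_reducible apply IntF.pair) | (with_reducible apply IntF.succ) | (with_reducible apply IntF.sep)
        | (with_reducible apply IntF.insert) | (with_reducible apply IntF.singleton)
        | (with_reducible ((refine IntF.comp₂ ?_ ?_ ?_); assumption))
        | (with_reducible ((refine Int.comp₂ ?_ ?_ ?_); assumption))
        | (with_reducible ((refine IntF.comp ?_ ?_); assumption))
        | (with_reducible ((refine Int.comp ?_ ?_); assumption))
        | (with_reducible apply IntF.app)))
    obtain ⟨Z, hZ⟩ := exists_set hZi
    have hC : Int M (fun W : IPow M α => W = U ∨ W = Z) := (by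
        (repeat' first
          | (with_reducible assumption)
          | (with_reducible exact IntF.id) | (with_reducible exact IntF.fst')
          | (with_reducible exact IntF.snd') | (with_reducible exact IntF.const _)
          | (with_reducible exact Int.const _)
          | (with_reducible apply IntF.fst) | (with_reducible apply IntF.snd)
          | (with_reducible apply Int.and) | (with_reducible apply Int.or) | (with_reducible apply Int.not)
          | (with_reducible apply Int.ne) | (with_reducible apply Int.iff) | (with_reducible apply Int.imp)
          | (with_reducible apply Int.ex) | (with_reducible apply Int.all) | (with_reducible apply Int.eq)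
          | (with_reducible apply Int.mem) | (with_reducible apply Int.subset) | (with_reducible apply Int.fin)
          | (with_reducible_and_instances apply Int.leN) | (with_reducible_and_instances apply Int.ltN)
          | (with_reducible_and_instances apply Int.le) | (with_reducible_and_instances apply Int.lt)
          | (with_reducible_and_instances apply IntF.add) | (with_reducible_and_instances apply IntF.sub)
          | (with_reducible_and_instances apply IntF.mul) | (with_reducible_and_instances apply IntF.neg)
          | (with_reducible_and_instances apply IntF.div) | (with_reducible_and_instances apply IntF.inv)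
          | (with_reducible apply IntF.pair) | (with_reducible apply IntF.succ) | (with_reducible apply IntF.sep)
          | (with_reducible apply IntF.insert) | (with_reducible apply IntF.singleton)
          | (with_reducible ((refine IntF.comp₂ ?_ ?_ ?_); assumption))
          | (with_reducible ((refine Int.comp₂ ?_ ?_ ?_); assumption))
          | (with_reducible ((refine IntF.comp ?_ ?_); assumption))
          | (with_reducible ((refine Int.comp ?_ ?_); assumption))
          | (with_reducible apply IntF.app)))
    obtain ⟨C, hC'⟩ := exists_set hC
    have hZo : OpenQ q Z := by
      intro z hz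
      obtain ⟨U', V', hU', hV', h2, h3, h4⟩ := h.haus x z (Ne.symm ((hZ z).1 hz))
      obtain ⟨e, he, h5⟩ := hV' z h3
      exact ⟨e, he, fun w hw => (hZ w).2 fun h6 => h4 x h2 (h6 ▸ h5 w hw)⟩
    obtain ⟨s, hs, h6⟩ := lebesgue hq h C (fun W hW => by
      rcases (hC' W).1 hW with rfl | rfl
      · exact hU
      · exact hZo) (fun z => by
      by_cases hz : z = x
      · exact ⟨U, (hC' U).2 (Or.inl rfl), hz ▸ hx⟩
      · exact ⟨Z, (hC' Z).2 (Or.inr rfl), (hZ z).2 hz⟩)
    obtain ⟨n, hn⟩ := exists_pw (M := M) hs
    refine ⟨pw M ρ n, pw_pos n, fun y hy => ?_⟩
    obtain ⟨z, hz1, hz2⟩ := of_wt_lt hq h ((h1 x y).trans_lt hy)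
    have h7 : pw M ρ (ix M q n.succ) < s :=
      (pw_anti ((INat.le_succ_self n).trans (le_ix hq h _))).trans_lt hn
    obtain ⟨W, hW', h8⟩ := h6 z
    have h9 := h8 x (hz1.trans h7)
    have h10 := h8 y (hz2.trans h7)
    rcases (hC' W).1 hW' with rfl | rfl
    · exact h10
    · exact absurd rfl ((hZ x).1 h9)
  · obtain ⟨e, he, h6⟩ := hU x hx
    obtain ⟨n, hn⟩ := exists_pw (M := M) (half_pos he)
    refine ⟨pw M ρ (ix M q n), pw_pos _, fun y hy => h6 y ?_⟩
    have h7 : En M q n x y := ⟨x, by rw [h.qm.self]; exact pw_pos _, hy⟩
    have h8 := wt_le hq h7
    have h9 : d x y ≤ 2 * iinf (wt M q x y) := h2 x y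
    linarith

end

end Pool.Agent.Helper672.ZFA.QM
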