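import Pool.Agent.R602.ZR.Floor

/-!
# Strongly zero-dimensional realcompact spaces
-/

set_option autoImplicit false
set_option linter.all false

namespace Pool.Agent.Helper672.ZFA.QM

open FirstOrder FirstOrder.Language

universe u u₁ u₂ u₃

section

variable {M : Type u} [L.Structure M] [hM : IsModel M]
variable {ρ : Type u₂} [ITy M ρ] [Field ρ] [LinearOrder ρ] [IsStrictOrderedRing ρ]
  [hρ : IReal M ρ] {α : Type u₁} [ITy M α] {ι : Type u₃} [ITy M ι]

/-- The points are close. -/
def Cl (h : α → ι → ρ) (F : IPow M ι) (e : ρ) (x y : α) : Prop :=
  ∀ j, j ∈ F → h x j - h y j < e ∧ h y j - h x j < e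

/-- Open sets. -/
def OpenH (h : α → ι → ρ) (U : IPow M α) : Prop :=
  ∀ x, x ∈ U → ∃ (F : IPow M ι) (e : ρ), IFin F ∧ 0 < e ∧ ∀ y, Cl h F e x y → y ∈ U

/-- Continuous real functions. -/
def ContR (M : Type u) [L.Structure M] [IsModel M] [ITy M ι] (h : α → ι → ρ) (f : α → ρ) : Prop :=
  ∀ (x : α) (e : ρ), 0 < e → ∃ (F : IPow M ι) (d : ρ), IFin F ∧ 0 < d ∧
    ∀ y, Cl h F d x y → f x - f y < e ∧ f y - f x < e

/-- Continuous functions with natural numbers as values. -/
def ContN (h : α → ι → ρ) (c : α → INat M) : Prop :=
  ∀ x : α, ∃ (F : IPow M ι) (d : ρ), IFin F ∧ 0 < d ∧ ∀ y, Cl h F d x y → c x = c y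

/-- Strongly zero-dimensional spaces. -/
def SZD (M : Type u) [L.Structure M] [IsModel M] [ITy M ι] [ITy M α] [ITy M ρ]
    (h : α → ι → ρ) : Prop :=
  ∀ f : α → ρ, IntF M f → ContR M h f → (∀ x, 0 ≤ f x ∧ f x ≤ 1) → ∃ C C' : IPow M α,
    OpenH h C ∧ OpenH h C' ∧ (∀ x, x ∈ C' ↔ x ∉ C) ∧ (∀ x, f x = 0 → x ∈ C) ∧
      ∀ x, f x = 1 → x ∉ C

variable {h : α → ι → ρ} (hh : IntF M (fun p : α × ι => h p.1 p.2))

omit hρ in
theorem Cl.mono {F F' : IPow M ι} {d d' : ρ} {x y : α} (h1 : Cl h F d x y) (hF : F' ⊆ F)
    (hd : d ≤ d') : Cl h F' d' x y := fun j hj =>
  ⟨(h1 j (hF j hj)).1.trans_le hd, (h1 j (hF j hj)).2.trans_le hd⟩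

omit hρ in
/-- Two conditions near a point. -/
theorem near_two {P Q : α → Prop} {x : α}
    (h1 : ∃ (F : IPow M ι) (d : ρ), IFin F ∧ 0 < d ∧ ∀ y, Cl h F d x y → P y)
    (h2 : ∃ (F : IPow M ι) (d : ρ), IFin F ∧ 0 < d ∧ ∀ y, Cl h F d x y → Q y) :
    ∃ (F : IPow M ι) (d : ρ), IFin F ∧ 0 < d ∧ ∀ y, Cl h F d x y → P y ∧ Q y := by
  obtain ⟨F, d, hF, hd, h3⟩ := h1
  obtain ⟨F', d', hF', hd', h4⟩ := h2
  refine ⟨F ∪ F', min d d', hF.union hF', lt_min hd hd', fun y hy => ⟨h3 y (hy.mono ?_
    (min_le_left _ _)), h4 y (hy.mono ?_ (min_le_right _ _))⟩⟩
  · exact fun j hj => mem_union.2 (Or.inl hj)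
  · exact fun j hj => mem_union.2 (Or.inr hj)

/-! ### The distance to the even numbers -/

/-- The numbers that are at least the distance from `t` to some even number. -/
noncomputable def evS (M : Type u) [L.Structure M] [IsModel M] {ρ : Type u₂} [ITy M ρ] [Field ρ]
    [LinearOrder ρ] (t : ρ) : IPow M ρ :=
  sep M fun a => ∃ n : INat M, par M n = 0 ∧ t - nt M ρ n ≤ a ∧ nt M ρ n - t ≤ a

theorem mem_evS {t a : ρ} : a ∈ evS M t ↔
    ∃ n : INat M, par M n = 0 ∧ t - nt M ρ n ≤ a ∧ nt M ρ n - t ≤ a := by
  have h : Int M (fun a : ρ => ∃ n : INat M, par M n = 0 ∧ t - nt M ρ n ≤ a ∧ nt M ρ n - t ≤ a) :=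
    (by
        (repeat' first
          | (with_reducible (refine IntF.par ?_))
          | (with_reducible (refine IntF.nt ?_))
          | (with_reducible assumption)
          | (with_reducible exact IntF.id) | (with_reducible exact IntF.fst')
          | (with_reducible exact IntF.snd') | (with_reducible exact IntF.const _)
          | (with_reducible exact Int.const _)
          | (with_reducible apply IntF.fst) | (with_reducible apply IntF.snd)
          | (with_reducible apply Int.and) | (with_reducible apply Int.or) | (with_reducible apply Int.not)
          | (with_reducible apply Int.ne) | (with_reducible apply Int.iff) | (with_reducible apply Int.imp)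
          | (with_reducible apply Int.ex) | (with_reducible apply Int.all) | (with_reducible apply Int.eq)
          | (with_reducible apply Int.mem) | (with_reducible apply Int.subset) | (with_reducible apply Int.fin)
          | (with_reducible_and_instances apply Int.leN) | (with_reducible_and_instances apply Int.ltN)
          | (with_reducible_and_instances apply Int.le) | (with_reducible_and_instances apply Int.lt)
          | (with_reducible_and_instances apply IntF.add) | (with_reducible_and_instances apply IntF.sub)
          | (with_reducible_and_instances apply IntF.mul) | (with_reducible_and_instances apply IntF.neg)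
          | (with_reducible_and_instances apply IntF.div) | (with_reducible_and_instances apply IntF.inv)
          | (with_reducible apply IntF.pair) | (with_reducible apply IntF.succ) | (with_reducible apply IntF.sep)
          | (with_reducible apply IntF.insert) | (with_reducible apply IntF.singleton)
          | (with_reducible ((refine IntF.comp₂ ?_ ?_ ?_); assumption))
          | (with_reducible ((refine Int.comp₂ ?_ ?_ ?_); assumption))
          | (with_reducible ((refine IntF.comp ?_ ?_); assumption))
          | (with_reducible ((refine Int.comp ?_ ?_); assumption))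
          | (with_reducible apply IntF.app)))
  exact mem_sep h

theorem evS_ne (t : ρ) : ∃ a, a ∈ evS M t := by
  refine ⟨|t|, mem_evS.2 ⟨0, par_zero, ?_, ?_⟩⟩
  · rw [nt_zero, sub_zero]
    exact le_abs_self t
  · rw [nt_zero, zero_sub]
    exact neg_le_abs t

theorem evS_nonneg {t a : ρ} (h : a ∈ evS M t) : 0 ≤ a := by
  obtain ⟨n, -, h1, h2⟩ := mem_evS.1 h
  linarith

theorem ev_le {t a : ρ} (h : a ∈ evS M t) : iinf (evS M t) ≤ a :=
  iinf_le ⟨0, fun a ha => evS_nonneg ha⟩ h

theorem ev_lip (s t d : ρ) (h1 : s - t ≤ d) (h2 : t - s ≤ d) :
    iinf (evS M s) ≤ iinf (evS M t) + d := by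
  have h3 : iinf (evS M s) - d ≤ iinf (evS M t) := le_iinf (evS_ne t) fun a ha => by
    obtain ⟨n, hn, h4, h5⟩ := mem_evS.1 ha
    have h6 : iinf (evS M s) ≤ a + d := ev_le (mem_evS.2 ⟨n, hn, by linarith, by linarith⟩)
    linarith
  linarith

/-- Truncation. -/
noncomputable def clamp (t : ρ) : ρ := by
  classical exact if t ≤ 0 then 0 else if 1 ≤ t then 1 else t

omit hρ in
theorem clamp_lip (s t d : ρ) (hd : 0 ≤ d) (h : s ≤ t + d) : clamp s ≤ clamp t + d := by
  unfold clamp
  split_ifs <;> linarith

omit hρ in
theorem clamp_mem (t : ρ) : 0 ≤ clamp t ∧ clamp t ≤ 1 := by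
  unfold clamp
  split_ifs <;> constructor <;> linarith

theorem int_clamp {γ : Type*} [ITy M γ] {f : γ → ρ} (hf : IntF M f) :
    IntF M (fun c => clamp (f c)) := by
  unfold clamp
  exact IntF.ite (Int.le hf (IntF.const _)) (IntF.const _)
    (IntF.ite (Int.le (IntF.const _) hf) (IntF.const _) hf)

include hh

/-- Nonnegative continuous functions are close to continuous functions with values in `ω`. -/
theorem exists_near (hz : SZD M h) {f : α → ρ} (hf : IntF M f) (hc : ContR M h f)
    (h0 : ∀ x, 0 ≤ f x) : ∃ c : α → INat M, IntF M c ∧ ContN h c ∧
      ∀ x, |f x - nt M ρ (c x)| < 3 / 4 := by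
  have hDi : IntF M (fun x => iinf (evS M (f x))) := by
    unfold evS
    exact (by
        (repeat' first
          | (with_reducible (refine IntF.par ?_))
          | (with_reducible (refine IntF.nt ?_))
          | (with_reducible (refine IntF.iinf ?_))
          | (with_reducible assumption)
          | (with_reducible exact IntF.id) | (with_reducible exact IntF.fst')
          | (with_reducible exact IntF.snd') | (with_reducible exact IntF.const _)
          | (with_reducible exact Int.const _)
          | (with_reducible apply IntF.fst) | (with_reducible apply IntF.snd)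
          | (with_reducible apply Int.and) | (with_reducible apply Int.or) | (with_reducible apply Int.not)
          | (with_reducible apply Int.ne) | (with_reducible apply Int.iff) | (with_reducible apply Int.imp)
          | (with_reducible apply Int.ex) | (with_reducible apply Int.all) | (with_reducible apply Int.eq)
          | (with_reducible apply Int.mem) | (with_reducible apply Int.subset) | (with_reducible apply Int.fin)
          | (with_reducible_and_instances apply Int.leN) | (with_reducible_and_instances apply Int.ltN)
          | (with_reducible_and_instances apply Int.le) | (with_reducible_and_instances apply Int.lt)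
          | (with_reducible_and_instances apply IntF.add) | (with_reducible_and_instances apply IntF.sub)
          | (with_reducible_and_instances apply IntF.mul) | (with_reducible_and_instances apply IntF.neg)
          | (with_reducible_and_instances apply IntF.div) | (with_reducible_and_instances apply IntF.inv)
          | (with_reducible apply IntF.pair) | (with_reducible apply IntF.succ) | (with_reducible apply IntF.sep)
          | (with_reducible apply IntF.insert) | (with_reducible apply IntF.singleton)
          | (with_reducible ((refine IntF.comp₂ ?_ ?_ ?_); assumption))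
          | (with_reducible ((refine Int.comp₂ ?_ ?_ ?_); assumption))
          | (with_reducible ((refine IntF.comp ?_ ?_); assumption))
          | (with_reducible ((refine Int.comp ?_ ?_); assumption))
          | (with_reducible apply IntF.app)))
  have h2i : IntF M (fun x => 2 * iinf (evS M (f x)) - 1 / 2) := (by
      (repeat' first
        | (with_reducible assumption)
        | (with_reducible exact IntF.id) | (with_reducible exact IntF.fst')
        | (with_reducible exact IntF.snd') | (with_reducible exact IntF.const _)
        | (with_reducible exact Int.const _)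
        | (with_reducible apply IntF.fst) | (with_reducible apply IntF.snd)
        | (with_reducible apply Int.and) | (with_reducible apply Int.or) | (with_reducible apply Int.not)
        | (with_reducible apply Int.ne) | (with_reducible apply Int.iff) | (with_reducible apply Int.imp)
        | (with_reducible apply Int.ex) | (with_reducible apply Int.all) | (with_reducible apply Int.eq)
        | (with_reducible apply Int.mem) | (with_reducible apply Int.subset) | (with_reducible apply Int.fin)
        | (with_reducible_and_instances apply Int.leN) | (with_reducible_and_instances apply Int.ltN)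
        | (with_reducible_and_instances apply Int.le) | (with_reducible_and_instances apply Int.lt)
        | (with_reducible_and_instances apply IntF.add) | (with_reducible_and_instances apply IntF.sub)
        | (with_reducible_and_instances apply IntF.mul) | (with_reducible_and_instances apply IntF.neg)
        | (with_reducible_and_instances apply IntF.div) | (with_reducible_and_instances apply IntF.inv)
        | (with_reducible apply IntF.pair) | (with_reducible apply IntF.succ) | (with_reducible apply IntF.sep)
        | (with_reducible apply IntF.insert) | (with_reducible apply IntF.singleton)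
        | (with_reducible ((refine IntF.comp₂ ?_ ?_ ?_); assumption))
        | (with_reducible ((refine Int.comp₂ ?_ ?_ ?_); assumption))
        | (with_reducible ((refine IntF.comp ?_ ?_); assumption))
        | (with_reducible ((refine Int.comp ?_ ?_); assumption))
        | (with_reducible apply IntF.app)))
  obtain ⟨C, C', hC, hC', hCC, hC0, hC1⟩ := hz (fun x => clamp (2 * iinf (evS M (f x)) - 1 / 2))
    (int_clamp h2i) (fun x e he => by
      obtain ⟨F, d, hF, hd, h1⟩ := hc x (e / 4) (by linarith)
      refine ⟨F, d, hF, hd, fun y hy => ?_⟩
      obtain ⟨h2, h3⟩ := h1 y hy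
      have h4 := ev_lip (M := M) (f x) (f y) (e / 4) h2.le h3.le
      have h5 := ev_lip (M := M) (f y) (f x) (e / 4) h3.le h2.le
      have h6 := clamp_lip (2 * iinf (evS M (f x)) - 1 / 2) (2 * iinf (evS M (f y)) - 1 / 2)
        (e / 2) (by linarith) (by linarith)
      have h7 := clamp_lip (2 * iinf (evS M (f y)) - 1 / 2) (2 * iinf (evS M (f x)) - 1 / 2)
        (e / 2) (by linarith) (by linarith)
      constructor <;> linarith) fun x => clamp_mem _
  have hge : ∀ x, 3 / 4 ≤ iinf (evS M (f x)) → x ∉ C := fun x hx => hC1 x (by
    unfold clamp
    rw [if_neg (by linarith), if_pos (by linarith)])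
  have hle : ∀ x, iinf (evS M (f x)) ≤ 1 / 4 → x ∈ C := fun x hx => hC0 x (by
    unfold clamp
    rw [if_pos (by linarith)])
  have hPi : Int M (fun p : α × INat M => (f p.1 - nt M ρ p.2 < 3 / 4 ∧
      nt M ρ p.2 - f p.1 < 3 / 4) ∧ (par M p.2 = 0 ↔ p.1 ∈ C)) := (by
          (repeat' first
            | (with_reducible (refine IntF.par ?_))
            | (with_reducible (refine IntF.nt ?_))
            | (with_reducible assumption)
            | (with_reducible exact IntF.id) | (with_reducible exact IntF.fst')
            | (with_reducible exact IntF.snd') | (with_reducible exact IntF.const _)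
            | (with_reducible exact Int.const _)
            | (with_reducible apply IntF.fst) | (with_reducible apply IntF.snd)
            | (with_reducible apply Int.and) | (with_reducible apply Int.or) | (with_reducible apply Int.not)
            | (with_reducible apply Int.ne) | (with_reducible apply Int.iff) | (with_reducible apply Int.imp)
            | (with_reducible apply Int.ex) | (with_reducible apply Int.all) | (with_reducible apply Int.eq)
            | (with_reducible apply Int.mem) | (with_reducible apply Int.subset) | (with_reducible apply Int.fin)
            | (with_reducible_and_instances apply Int.leN) | (with_reducible_and_instances apply Int.ltN)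
            | (with_reducible_and_instances apply Int.le) | (with_reducible_and_instances apply Int.lt)
            | (with_reducible_and_instances apply IntF.add) | (with_reducible_and_instances apply IntF.sub)
            | (with_reducible_and_instances apply IntF.mul) | (with_reducible_and_instances apply IntF.neg)
            | (with_reducible_and_instances apply IntF.div) | (with_reducible_and_instances apply IntF.inv)
            | (with_reducible apply IntF.pair) | (with_reducible apply IntF.succ) | (with_reducible apply IntF.sep)
            | (with_reducible apply IntF.insert) | (with_reducible apply IntF.singleton)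
            | (with_reducible ((refine IntF.comp₂ ?_ ?_ ?_); assumption))
            | (with_reducible ((refine Int.comp₂ ?_ ?_ ?_); assumption))
            | (with_reducible ((refine IntF.comp ?_ ?_); assumption))
            | (with_reducible ((refine Int.comp ?_ ?_); assumption))
            | (with_reducible apply IntF.app)))
  have hex : ∀ x, ∃ n : INat M, (f x - nt M ρ n < 3 / 4 ∧ nt M ρ n - f x < 3 / 4) ∧
      (par M n = 0 ↔ x ∈ C) := by
    intro x
    obtain ⟨n, hn1, hn2⟩ := exists_floor (M := M) (h0 x)
    have hs := nt_succ (M := M) (ρ := ρ) n
    by_cases hx : x ∈ C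
    · by_contra hcon
      push Not at hcon
      refine hge x (le_iinf (evS_ne _) fun a ha => ?_) hx
      obtain ⟨m, hm, h1, h2⟩ := mem_evS.1 ha
      by_contra h3
      push Not at h3
      have h4 := hcon m ⟨by linarith, by linarith⟩
      rcases h4 with ⟨-, h5⟩ | ⟨h5, -⟩
      · exact h5 hx
      · exact h5 hm
    · by_cases hn : par M n = 0
      · have h1 : par M n.succ ≠ 0 := fun h2 => (par_succ_eq n).1 h2 hn
        refine ⟨n.succ, ⟨?_, ?_⟩, iff_of_false h1 hx⟩
        · rw [hs]
          linarith
        · by_contra h2
          push Not at h2
          refine hx (hle x (ev_le (mem_evS.2 ⟨n, hn, ?_, ?_⟩)))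
          · linarith
          · linarith
      · refine ⟨n, ⟨?_, by linarith⟩, iff_of_false hn hx⟩
        by_contra h2
        push Not at h2
        refine hx (hle x (ev_le (mem_evS.2 ⟨n.succ, (par_succ_eq n).2 hn, ?_, ?_⟩)))
        · linarith
        · linarith
  choose c hc' using hex
  have huniq : ∀ x (n : INat M), (f x - nt M ρ n < 3 / 4 ∧ nt M ρ n - f x < 3 / 4) →
      (par M n = 0 ↔ x ∈ C) → n = c x := by
    intro x n h1 h2
    refine par_unique (t := f x) (h2.trans (hc' x).2.symm) (abs_lt.2 ⟨?_, h1.1⟩)
      (abs_lt.2 ⟨?_, (hc' x).1.1⟩)
    · linarith [h1.2]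
    · linarith [(hc' x).1.2]
  refine ⟨c, IntF.of_unique (p := fun x (n : INat M) => (f x - nt M ρ n < 3 / 4 ∧
      nt M ρ n - f x < 3 / 4) ∧ (par M n = 0 ↔ x ∈ C)) hPi hc' fun x n m h1 h2 =>
        (huniq x n h1.1 h1.2).trans (huniq x m h2.1 h2.2).symm, fun x => ?_, fun x => abs_lt.2 ⟨by linarith [(hc' x).1.2],
      (hc' x).1.1⟩⟩
  obtain ⟨⟨h1, h2⟩, h3⟩ := hc' x
  have h4 : ∃ (F : IPow M ι) (d : ρ), IFin F ∧ 0 < d ∧ ∀ y, Cl h F d x y → (x ∈ C ↔ y ∈ C) := by
    by_cases hx : x ∈ C
    · obtain ⟨F, d, hF, hd, h5⟩ := hC x hx
      exact ⟨F, d, hF, hd, fun y hy => iff_of_true hx (h5 y hy)⟩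
    · obtain ⟨F, d, hF, hd, h5⟩ := hC' x ((hCC x).2 hx)
      exact ⟨F, d, hF, hd, fun y hy => iff_of_false hx ((hCC y).1 (h5 y hy))⟩
  have h5 := hc x (min (3 / 4 - (f x - nt M ρ (c x))) (3 / 4 - (nt M ρ (c x) - f x)))
    (lt_min (by linarith) (by linarith))
  obtain ⟨F, d, hF, hd, h6⟩ := near_two h4 h5
  refine ⟨F, d, hF, hd, fun y hy => huniq y (c x) ?_ (h3.trans (h6 y hy).1)⟩
  obtain ⟨-, h7, h8⟩ := h6 y hy
  have h9 := h7.trans_le (min_le_right _ _)
  have h10 := h8.trans_le (min_le_left _ _)
  constructor <;> linarith

omit hh

/-- The continuous functions into `ω`. -/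
theorem int_contN (hh : IntF M (fun p : α × ι => h p.1 p.2)) :
    Int M (fun c : IFun M α (INat M) => ContN h c) := by
  unfold ContN Cl
  exact (by
      (repeat' first
        | (with_reducible assumption)
        | (with_reducible exact IntF.id) | (with_reducible exact IntF.fst')
        | (with_reducible exact IntF.snd') | (with_reducible exact IntF.const _)
        | (with_reducible exact Int.const _)
        | (with_reducible apply IntF.fst) | (with_reducible apply IntF.snd)
        | (with_reducible apply Int.and) | (with_reducible apply Int.or) | (with_reducible apply Int.not)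
        | (with_reducible apply Int.ne) | (with_reducible apply Int.iff) | (with_reducible apply Int.imp)
        | (with_reducible apply Int.ex) | (with_reducible apply Int.all) | (with_reducible apply Int.eq)
        | (with_reducible apply Int.mem) | (with_reducible apply Int.subset) | (with_reducible apply Int.fin)
        | (with_reducible_and_instances apply Int.leN) | (with_reducible_and_instances apply Int.ltN)
        | (with_reducible_and_instances apply Int.le) | (with_reducible_and_instances apply Int.lt)
        | (with_reducible_and_instances apply IntF.add) | (with_reducible_and_instances apply IntF.sub)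
        | (with_reducible_and_instances apply IntF.mul) | (with_reducible_and_instances apply IntF.neg)
        | (with_reducible_and_instances apply IntF.div) | (with_reducible_and_instances apply IntF.inv)
        | (with_reducible apply IntF.pair) | (with_reducible apply IntF.succ) | (with_reducible apply IntF.sep)
        | (with_reducible apply IntF.insert) | (with_reducible apply IntF.singleton)
        | (with_reducible ((refine IntF.comp₂ ?_ ?_ ?_); assumption))
        | (with_reducible ((refine Int.comp₂ ?_ ?_ ?_); assumption))
        | (with_reducible ((refine IntF.comp ?_ ?_); assumption))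
        | (with_reducible ((refine Int.comp ?_ ?_); assumption))
        | (with_reducible apply IntF.app)))

/-- The type of the continuous functions into `ω`. -/
def CN (M : Type u) [L.Structure M] [IsModel M] [ITy M ι] [ITy M α] (h : α → ι → ρ) : Type _ :=
  {c : IFun M α (INat M) // ContN h c}

noncomputable instance ityCN [hh : Fact (IntF M (fun p : α × ι => h p.1 p.2))] :
    ITy M (CN M h) :=
  haveI : Fact (Int M (fun c : IFun M α (INat M) => ContN h c)) := ⟨int_contN hh.out⟩
  (ITy.subtype : ITy M {c : IFun M α (INat M) // ContN h c})

section

variable [hh : Fact (IntF M (fun p : α × ι => h p.1 p.2))]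

theorem int_app : IntF M (fun p : α × CN M h => p.2.1 p.1) := by
  haveI : Fact (Int M (fun c : IFun M α (INat M) => ContN h c)) := ⟨int_contN hh.out⟩
  have h1 : IntF M (fun p : CN M h => p.1) := IntF.val'
  exact IntF.app (IntF.comp (g := fun p : CN M h => p.1) (f := fun p : α × CN M h => p.2) h1
    IntF.snd') IntF.fst'

theorem int_app' {γ : Type*} [ITy M γ] {c : γ → CN M h} {x : γ → α} (hc : IntF M c)
    (hx : IntF M x) : IntF M (fun t => (c t).1 (x t)) :=
  IntF.comp (g := fun p : α × CN M h => p.2.1 p.1) (f := fun t => (x t, c t)) int_app (hx.pair hc)

/-- The points agree for the functions in `G`. -/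
def Ag (G : IPow M (CN M h)) (x y : α) : Prop := ∀ c, c ∈ G → c.1 x = c.1 y

theorem int_Ag {γ : Type*} [ITy M γ] {G : γ → IPow M (CN M h)} {x y : γ → α} (hG : IntF M G)
    (hx : IntF M x) (hy : IntF M y) : Int M (fun t => Ag (G t) (x t) (y t)) := by
  unfold Ag
  exact (by
      (repeat' first
        | (with_reducible (refine int_app' ?_ ?_))
        | (with_reducible assumption)
        | (with_reducible exact IntF.id) | (with_reducible exact IntF.fst')
        | (with_reducible exact IntF.snd') | (with_reducible exact IntF.const _)
        | (with_reducible exact Int.const _)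
        | (with_reducible apply IntF.fst) | (with_reducible apply IntF.snd)
        | (with_reducible apply Int.and) | (with_reducible apply Int.or) | (with_reducible apply Int.not)
        | (with_reducible apply Int.ne) | (with_reducible apply Int.iff) | (with_reducible apply Int.imp)
        | (with_reducible apply Int.ex) | (with_reducible apply Int.all) | (with_reducible apply Int.eq)
        | (with_reducible apply Int.mem) | (with_reducible apply Int.subset) | (with_reducible apply Int.fin)
        | (with_reducible_and_instances apply Int.leN) | (with_reducible_and_instances apply Int.ltN)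
        | (with_reducible_and_instances apply Int.le) | (with_reducible_and_instances apply Int.lt)
        | (with_reducible_and_instances apply IntF.add) | (with_reducible_and_instances apply IntF.sub)
        | (with_reducible_and_instances apply IntF.mul) | (with_reducible_and_instances apply IntF.neg)
        | (with_reducible_and_instances apply IntF.div) | (with_reducible_and_instances apply IntF.inv)
        | (with_reducible apply IntF.pair) | (with_reducible apply IntF.succ) | (with_reducible apply IntF.sep)
        | (with_reducible apply IntF.insert) | (with_reducible apply IntF.singleton)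
        | (with_reducible ((refine IntF.comp₂ ?_ ?_ ?_); assumption))
        | (with_reducible ((refine Int.comp₂ ?_ ?_ ?_); assumption))
        | (with_reducible ((refine IntF.comp ?_ ?_); assumption))
        | (with_reducible ((refine Int.comp ?_ ?_); assumption))
        | (with_reducible apply IntF.app)))

theorem Ag.mono {G G' : IPow M (CN M h)} {x y : α} (h1 : Ag G x y) (hG : G' ⊆ G) : Ag G' x y :=
  fun c hc => h1 c (hG c hc)

/-- Continuous functions have a small oscillation on the classes given by a finite set. -/
theorem osc_pos (hz : SZD M h) {f : α → ρ} (hf : IntF M f) (hc : ContR M h f)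
    (h0 : ∀ x, 0 ≤ f x) {e : ρ} (he : 0 < e) : ∃ G : IPow M (CN M h), IFin G ∧
      ∀ x y, Ag G x y → f x - f y < e := by
  have h1 : IntF M (fun x => f x * (2 / e)) := (by
      (repeat' first
        | (with_reducible assumption)
        | (with_reducible exact IntF.id) | (with_reducible exact IntF.fst')
        | (with_reducible exact IntF.snd') | (with_reducible exact IntF.const _)
        | (with_reducible exact Int.const _)
        | (with_reducible apply IntF.fst) | (with_reducible apply IntF.snd)
        | (with_reducible apply Int.and) | (with_reducible apply Int.or) | (with_reducible apply Int.not)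
        | (with_reducible apply Int.ne) | (with_reducible apply Int.iff) | (with_reducible apply Int.imp)
        | (with_reducible apply Int.ex) | (with_reducible apply Int.all) | (with_reducible apply Int.eq)
        | (with_reducible apply Int.mem) | (with_reducible apply Int.subset) | (with_reducible apply Int.fin)
        | (with_reducible_and_instances apply Int.leN) | (with_reducible_and_instances apply Int.ltN)
        | (with_reducible_and_instances apply Int.le) | (with_reducible_and_instances apply Int.lt)
        | (with_reducible_and_instances apply IntF.add) | (with_reducible_and_instances apply IntF.sub)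
        | (with_reducible_and_instances apply IntF.mul) | (with_reducible_and_instances apply IntF.neg)
        | (with_reducible_and_instances apply IntF.div) | (with_reducible_and_instances apply IntF.inv)
        | (with_reducible apply IntF.pair) | (with_reducible apply IntF.succ) | (with_reducible apply IntF.sep)
        | (with_reducible apply IntF.insert) | (with_reducible apply IntF.singleton)
        | (with_reducible ((refine IntF.comp₂ ?_ ?_ ?_); assumption))
        | (with_reducible ((refine Int.comp₂ ?_ ?_ ?_); assumption))
        | (with_reducible ((refine IntF.comp ?_ ?_); assumption))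
        | (with_reducible ((refine Int.comp ?_ ?_); assumption))
        | (with_reducible apply IntF.app)))
  have h2 : 0 < 2 / e := div_pos two_pos he
  obtain ⟨c, hc1, hc2, hc3⟩ := exists_near hh.out hz h1 (fun x d hd => by
    obtain ⟨F, d', hF, hd', h3⟩ := hc x (d / (2 / e)) (div_pos hd h2)
    refine ⟨F, d', hF, hd', fun y hy => ?_⟩
    obtain ⟨h4, h5⟩ := h3 y hy
    rw [lt_div_iff₀ h2] at h4 h5
    constructor
    · linarith [sub_mul (f x) (f y) (2 / e)]
    · linarith [sub_mul (f y) (f x) (2 / e)]) fun x => mul_nonneg (h0 x) h2.le
  refine ⟨{(⟨⟨c, hc1⟩, hc2⟩ : CN M h)}, IFin.singleton _, fun x y hxy => ?_⟩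
  have h3 : c x = c y := hxy _ (mem_singleton.2 rfl)
  have h4 := abs_lt.1 (hc3 x)
  have h5 := abs_lt.1 (hc3 y)
  rw [h3] at h4
  have h6 : (f x - f y) * (2 / e) < 2 := by
    rw [sub_mul]
    linarith [h4.2, h5.1]
  rw [← lt_div_iff₀ h2] at h6
  rwa [div_div_cancel₀ (two_ne_zero)] at h6

theorem osc (hz : SZD M h) {f : α → ρ} (hf : IntF M f) (hc : ContR M h f)
    {e : ρ} (he : 0 < e) : ∃ G : IPow M (CN M h), IFin G ∧
      ∀ x y, Ag G x y → f x - f y < e ∧ f y - f x < e := by
  classical
  have h1 : IntF M (fun x => if 0 ≤ f x then f x else 0) :=
    IntF.ite (Int.le (IntF.const _) hf) hf (IntF.const _)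
  have h2 : IntF M (fun x => if 0 ≤ f x then 0 else -f x) :=
    IntF.ite (Int.le (IntF.const _) hf) (IntF.const _) (IntF.neg hf)
  obtain ⟨G, hG, h3⟩ := osc_pos hz h1 (fun x d hd => by
    obtain ⟨F, d', hF, hd', h4⟩ := hc x d hd
    refine ⟨F, d', hF, hd', fun y hy => ?_⟩
    obtain ⟨h5, h6⟩ := h4 y hy
    constructor <;> split_ifs <;> linarith) (fun x => by
    split_ifs <;> linarith) (half_pos he)
  obtain ⟨G', hG', h4⟩ := osc_pos hz h2 (fun x d hd => by
    obtain ⟨F, d', hF, hd', h4⟩ := hc x d hd
    refine ⟨F, d', hF, hd', fun y hy => ?_⟩
    obtain ⟨h5, h6⟩ := h4 y hy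
    constructor <;> split_ifs <;> linarith) (fun x => by
    split_ifs <;> linarith) (half_pos he)
  have key : ∀ x y, Ag (G ∪ G') x y → f x - f y < e := by
    intro x y hxy
    have h5 := h3 x y (hxy.mono fun c hc => mem_union.2 (Or.inl hc))
    have h6 := h4 y x (fun c hc => (hxy c (mem_union.2 (Or.inr hc))).symm)
    split_ifs at h5 h6 <;> linarith
  exact ⟨G ∪ G', hG.union hG', fun x y hxy => ⟨key x y hxy, key y x fun c hc => (hxy c hc).symm⟩⟩

/-- Simultaneous approximation for finitely many coordinates. -/
theorem osc_fin (hz : SZD M h) (hcoord : ∀ j, ContR M h fun x => h x j) {F : IPow M ι}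
    (hF : IFin F) {e : ρ} (he : 0 < e) : ∃ G : IPow M (CN M h), IFin G ∧
      ∀ j, j ∈ F → ∀ x y, Ag G x y → h x j - h y j < e ∧ h y j - h x j < e := by
  have hh' := hh.out
  have hi : Int M (fun t : ι × IPow M (CN M h) => IFin t.2 ∧ ∀ x y, Ag t.2 x y →
      h x t.1 - h y t.1 < e ∧ h y t.1 - h x t.1 < e) := (by
          (repeat' first
            | (with_reducible (refine int_Ag ?_ ?_ ?_))
            | (with_reducible assumption)
            | (with_reducible exact IntF.id) | (with_reducible exact IntF.fst')
            | (with_reducible exact IntF.snd') | (with_reducible exact IntF.const _)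
            | (with_reducible exact Int.const _)
            | (with_reducible apply IntF.fst) | (with_reducible apply IntF.snd)
            | (with_reducible apply Int.and) | (with_reducible apply Int.or) | (with_reducible apply Int.not)
            | (with_reducible apply Int.ne) | (with_reducible apply Int.iff) | (with_reducible apply Int.imp)
            | (with_reducible apply Int.ex) | (with_reducible apply Int.all) | (with_reducible apply Int.eq)
            | (with_reducible apply Int.mem) | (with_reducible apply Int.subset) | (with_reducible apply Int.fin)
            | (with_reducible_and_instances apply Int.leN) | (with_reducible_and_instances apply Int.ltN)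
            | (with_reducible_and_instances apply Int.le) | (with_reducible_and_instances apply Int.lt)
            | (with_reducible_and_instances apply IntF.add) | (with_reducible_and_instances apply IntF.sub)
            | (with_reducible_and_instances apply IntF.mul) | (with_reducible_and_instances apply IntF.neg)
            | (with_reducible_and_instances apply IntF.div) | (with_reducible_and_instances apply IntF.inv)
            | (with_reducible apply IntF.pair) | (with_reducible apply IntF.succ) | (with_reducible apply IntF.sep)
            | (with_reducible apply IntF.insert) | (with_reducible apply IntF.singleton)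
            | (with_reducible ((refine IntF.comp₂ ?_ ?_ ?_); assumption))
            | (with_reducible ((refine Int.comp₂ ?_ ?_ ?_); assumption))
            | (with_reducible ((refine IntF.comp ?_ ?_); assumption))
            | (with_reducible ((refine Int.comp ?_ ?_); assumption))
            | (with_reducible apply IntF.app)))
  obtain ⟨G, hG⟩ := IFin.exists_bound (r := fun j (G : IPow M (CN M h)) => IFin G ∧ ∀ x y,
    Ag G x y → h x j - h y j < e ∧ h y j - h x j < e) hi (fun G G' => by
      by_cases h1 : IFin G
      · by_cases h2 : IFin G'
        · refine ⟨G ∪ G', fun j h3 => ⟨h1.union h2, fun x y hxy => ?_⟩⟩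
          rcases h3 with h3 | h3
          · exact h3.2 x y (hxy.mono fun c hc => mem_union.2 (Or.inl hc))
          · exact h3.2 x y (hxy.mono fun c hc => mem_union.2 (Or.inr hc))
        · exact ⟨G, fun j h3 => h3.elim id fun h4 => absurd h4.1 h2⟩
      · exact ⟨G', fun j h3 => h3.elim (fun h4 => absurd h4.1 h1) id⟩) ⟨∅⟩ hF fun j _ => by
    have hf : IntF M (fun x => h x j) := (by
        (repeat' first
          | (with_reducible assumption)
          | (with_reducible exact IntF.id) | (with_reducible exact IntF.fst')
          | (with_reducible exact IntF.snd') | (with_reducible exact IntF.const _)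
          | (with_reducible exact Int.const _)
          | (with_reducible apply IntF.fst) | (with_reducible apply IntF.snd)
          | (with_reducible apply Int.and) | (with_reducible apply Int.or) | (with_reducible apply Int.not)
          | (with_reducible apply Int.ne) | (with_reducible apply Int.iff) | (with_reducible apply Int.imp)
          | (with_reducible apply Int.ex) | (with_reducible apply Int.all) | (with_reducible apply Int.eq)
          | (with_reducible apply Int.mem) | (with_reducible apply Int.subset) | (with_reducible apply Int.fin)
          | (with_reducible_and_instances apply Int.leN) | (with_reducible_and_instances apply Int.ltN)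
          | (with_reducible_and_instances apply Int.le) | (with_reducible_and_instances apply Int.lt)
          | (with_reducible_and_instances apply IntF.add) | (with_reducible_and_instances apply IntF.sub)
          | (with_reducible_and_instances apply IntF.mul) | (with_reducible_and_instances apply IntF.neg)
          | (with_reducible_and_instances apply IntF.div) | (with_reducible_and_instances apply IntF.inv)
          | (with_reducible apply IntF.pair) | (with_reducible apply IntF.succ) | (with_reducible apply IntF.sep)
          | (with_reducible apply IntF.insert) | (with_reducible apply IntF.singleton)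
          | (with_reducible ((refine IntF.comp₂ ?_ ?_ ?_); assumption))
          | (with_reducible ((refine Int.comp₂ ?_ ?_ ?_); assumption))
          | (with_reducible ((refine IntF.comp ?_ ?_); assumption))
          | (with_reducible ((refine Int.comp ?_ ?_); assumption))
          | (with_reducible apply IntF.app)))
    exact osc hz hf (hcoord j) he
  by_cases hne : ∃ j, j ∈ F
  · obtain ⟨j, hj⟩ := hne
    exact ⟨G, (hG j hj).1, fun j hj => (hG j hj).2⟩
  · exact ⟨∅, IFin.empty, fun j hj => absurd ⟨j, hj⟩ hne⟩

/-- A common neighbourhood for finitely many functions. -/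
theorem near_fin {G : IPow M (CN M h)} (hG : IFin G) (x : α) :
    ∃ (F : IPow M ι) (d : ρ), IFin F ∧ 0 < d ∧ ∀ y, Cl h F d x y → Ag G x y := by
  have hh' := hh.out
  have hi : Int M (fun t : CN M h × (IPow M ι × ρ) => IFin t.2.1 ∧ 0 < t.2.2 ∧ ∀ y,
      Cl h t.2.1 t.2.2 x y → t.1.1 x = t.1.1 y) := by
    unfold Cl
    exact (by
        (repeat' first
          | (with_reducible (refine int_app' ?_ ?_))
          | (with_reducible assumption)
          | (with_reducible exact IntF.id) | (with_reducible exact IntF.fst')
          | (with_reducible exact IntF.snd') | (with_reducible exact IntF.const _)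
          | (with_reducible exact Int.const _)
          | (with_reducible apply IntF.fst) | (with_reducible apply IntF.snd)
          | (with_reducible apply Int.and) | (with_reducible apply Int.or) | (with_reducible apply Int.not)
          | (with_reducible apply Int.ne) | (with_reducible apply Int.iff) | (with_reducible apply Int.imp)
          | (with_reducible apply Int.ex) | (with_reducible apply Int.all) | (with_reducible apply Int.eq)
          | (with_reducible apply Int.mem) | (with_reducible apply Int.subset) | (with_reducible apply Int.fin)
          | (with_reducible_and_instances apply Int.leN) | (with_reducible_and_instances apply Int.ltN)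
          | (with_reducible_and_instances apply Int.le) | (with_reducible_and_instances apply Int.lt)
          | (with_reducible_and_instances apply IntF.add) | (with_reducible_and_instances apply IntF.sub)
          | (with_reducible_and_instances apply IntF.mul) | (with_reducible_and_instances apply IntF.neg)
          | (with_reducible_and_instances apply IntF.div) | (with_reducible_and_instances apply IntF.inv)
          | (with_reducible apply IntF.pair) | (with_reducible apply IntF.succ) | (with_reducible apply IntF.sep)
          | (with_reducible apply IntF.insert) | (with_reducible apply IntF.singleton)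
          | (with_reducible ((refine IntF.comp₂ ?_ ?_ ?_); assumption))
          | (with_reducible ((refine Int.comp₂ ?_ ?_ ?_); assumption))
          | (with_reducible ((refine IntF.comp ?_ ?_); assumption))
          | (with_reducible ((refine Int.comp ?_ ?_); assumption))
          | (with_reducible apply IntF.app)))
  obtain ⟨p, hp⟩ := IFin.exists_bound (r := fun (c : CN M h) (p : IPow M ι × ρ) => IFin p.1 ∧
    0 < p.2 ∧ ∀ y, Cl h p.1 p.2 x y → c.1 x = c.1 y) hi (fun p p' => by
      by_cases h1 : IFin p.1 ∧ 0 < p.2
      · by_cases h2 : IFin p'.1 ∧ 0 < p'.2
        · refine ⟨(p.1 ∪ p'.1, min p.2 p'.2), fun c h3 => ⟨h1.1.union h2.1, lt_min h1.2 h2.2,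
            fun y hy => ?_⟩⟩
          rcases h3 with h3 | h3
          · exact h3.2.2 y (hy.mono (fun j hj => mem_union.2 (Or.inl hj)) (min_le_left _ _))
          · exact h3.2.2 y (hy.mono (fun j hj => mem_union.2 (Or.inr hj)) (min_le_right _ _))
        · exact ⟨p, fun c h3 => h3.elim id fun h4 => absurd ⟨h4.1, h4.2.1⟩ h2⟩
      · exact ⟨p', fun c h3 => h3.elim (fun h4 => absurd ⟨h4.1, h4.2.1⟩ h1) id⟩) ⟨(∅, 0)⟩ hG
    fun c _ => by
      obtain ⟨F, d, hF, hd, h1⟩ := c.2 x
      exact ⟨(F, d), hF, hd, h1⟩
  by_cases hne : ∃ c, c ∈ G
  · obtain ⟨c, hc⟩ := hne
    exact ⟨p.1, p.2, (hp c hc).1, (hp c hc).2.1, fun y hy c hc => (hp c hc).2.2 y hy⟩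
  · exact ⟨∅, 1, IFin.empty, one_pos, fun y _ c hc => absurd ⟨c, hc⟩ hne⟩

/-- The main theorem. -/
theorem nCompact (hz : SZD M h) (hcoord : ∀ j, ContR M h fun x => h x j)
    (hinj : ∀ x y, (∀ j, h x j = h y j) → x = y)
    (hclosed : ∀ p : ι → ρ, IntF M p → (∀ (F : IPow M ι) (e : ρ), IFin F → 0 < e →
      ∃ x, ∀ j, j ∈ F → h x j - p j < e ∧ p j - h x j < e) → ∃ x, ∀ j, h x j = p j) :
    (∀ x y, (∀ c : CN M h, c.1 x = c.1 y) → x = y) ∧
    (∀ U : IPow M α, OpenH h U ↔ ∀ x, x ∈ U → ∃ G : IPow M (CN M h), IFin G ∧
      ∀ y, Ag G x y → y ∈ U) ∧
    ∀ g : CN M h → INat M, IntF M g → (∀ G : IPow M (CN M h), IFin G →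
      ∃ x, ∀ c, c ∈ G → c.1 x = g c) → ∃ x, ∀ c : CN M h, c.1 x = g c := by
  have hh' := hh.out
  refine ⟨fun x y hxy => hinj x y fun j => ?_, fun U => ⟨fun hU x hx => ?_, fun hU x hx => ?_⟩,
    fun g hg hgc => ?_⟩
  · have key : ∀ e : ρ, 0 < e → h x j - h y j < e ∧ h y j - h x j < e := by
      intro e he
      have hf : IntF M (fun x => h x j) := (by
          (repeat' first
            | (with_reducible assumption)
            | (with_reducible exact IntF.id) | (with_reducible exact IntF.fst')
            | (with_reducible exact IntF.snd') | (with_reducible exact IntF.const _)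
            | (with_reducible exact Int.const _)
            | (with_reducible apply IntF.fst) | (with_reducible apply IntF.snd)
            | (with_reducible apply Int.and) | (with_reducible apply Int.or) | (with_reducible apply Int.not)
            | (with_reducible apply Int.ne) | (with_reducible apply Int.iff) | (with_reducible apply Int.imp)
            | (with_reducible apply Int.ex) | (with_reducible apply Int.all) | (with_reducible apply Int.eq)
            | (with_reducible apply Int.mem) | (with_reducible apply Int.subset) | (with_reducible apply Int.fin)
            | (with_reducible_and_instances apply Int.leN) | (with_reducible_and_instances apply Int.ltN)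
            | (with_reducible_and_instances apply Int.le) | (with_reducible_and_instances apply Int.lt)
            | (with_reducible_and_instances apply IntF.add) | (with_reducible_and_instances apply IntF.sub)
            | (with_reducible_and_instances apply IntF.mul) | (with_reducible_and_instances apply IntF.neg)
            | (with_reducible_and_instances apply IntF.div) | (with_reducible_and_instances apply IntF.inv)
            | (with_reducible apply IntF.pair) | (with_reducible apply IntF.succ) | (with_reducible apply IntF.sep)
            | (with_reducible apply IntF.insert) | (with_reducible apply IntF.singleton)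
            | (with_reducible ((refine IntF.comp₂ ?_ ?_ ?_); assumption))
            | (with_reducible ((refine Int.comp₂ ?_ ?_ ?_); assumption))
            | (with_reducible ((refine IntF.comp ?_ ?_); assumption))
            | (with_reducible ((refine Int.comp ?_ ?_); assumption))
            | (with_reducible apply IntF.app)))
      obtain ⟨G, -, h1⟩ := osc hz hf (hcoord j) he
      exact h1 x y fun c _ => hxy c
    by_contra hne
    rcases lt_or_gt_of_ne hne with h1 | h1
    · have h2 := (key (h y j - h x j) (by linarith)).2
      linarith
    · have h2 := (key (h x j - h y j) (by linarith)).1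
      linarith
  · obtain ⟨F, e, hF, he, h1⟩ := hU x hx
    obtain ⟨G, hG, h2⟩ := osc_fin hz hcoord hF he
    exact ⟨G, hG, fun y hy => h1 y fun j hj => h2 j hj x y hy⟩
  · obtain ⟨G, hG, h1⟩ := hU x hx
    obtain ⟨F, d, hF, hd, h2⟩ := near_fin hG x
    exact ⟨F, d, hF, hd, fun y hy => h1 y (h2 y hy)⟩
  · have hTi : Int M (fun t : ι × ρ => ∃ G : IPow M (CN M h), IFin G ∧
        ∀ y, (∀ c, c ∈ G → c.1 y = g c) → h y t.1 ≤ t.2) := (by
            (repeat' first
              | (with_reducible (refine int_app' ?_ ?_))
              | (with_reducible assumption)
              | (with_reducible exact IntF.id) | (with_reducible exact IntF.fst')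
              | (with_reducible exact IntF.snd') | (with_reducible exact IntF.const _)
              | (with_reducible exact Int.const _)
              | (with_reducible apply IntF.fst) | (with_reducible apply IntF.snd)
              | (with_reducible apply Int.and) | (with_reducible apply Int.or) | (with_reducible apply Int.not)
              | (with_reducible apply Int.ne) | (with_reducible apply Int.iff) | (with_reducible apply Int.imp)
              | (with_reducible apply Int.ex) | (with_reducible apply Int.all) | (with_reducible apply Int.eq)
              | (with_reducible apply Int.mem) | (with_reducible apply Int.subset) | (with_reducible apply Int.fin)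
              | (with_reducible_and_instances apply Int.leN) | (with_reducible_and_instances apply Int.ltN)
              | (with_reducible_and_instances apply Int.le) | (with_reducible_and_instances apply Int.lt)
              | (with_reducible_and_instances apply IntF.add) | (with_reducible_and_instances apply IntF.sub)
              | (with_reducible_and_instances apply IntF.mul) | (with_reducible_and_instances apply IntF.neg)
              | (with_reducible_and_instances apply IntF.div) | (with_reducible_and_instances apply IntF.inv)
              | (with_reducible apply IntF.pair) | (with_reducible apply IntF.succ) | (with_reducible apply IntF.sep)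
              | (with_reducible apply IntF.insert) | (with_reducible apply IntF.singleton)
              | (with_reducible ((refine IntF.comp₂ ?_ ?_ ?_); assumption))
              | (with_reducible ((refine Int.comp₂ ?_ ?_ ?_); assumption))
              | (with_reducible ((refine IntF.comp ?_ ?_); assumption))
              | (with_reducible ((refine Int.comp ?_ ?_); assumption))
              | (with_reducible apply IntF.app)))
    set T : ι → IPow M ρ := fun j => sep M fun b => ∃ G : IPow M (CN M h), IFin G ∧
      ∀ y, (∀ c, c ∈ G → c.1 y = g c) → h y j ≤ b with hT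
    have hT' : ∀ j b, b ∈ T j ↔ ∃ G : IPow M (CN M h), IFin G ∧
        ∀ y, (∀ c, c ∈ G → c.1 y = g c) → h y j ≤ b := fun j b =>
      mem_sep (Int.slice (p := fun j b => ∃ G : IPow M (CN M h), IFin G ∧
        ∀ y, (∀ c, c ∈ G → c.1 y = g c) → h y j ≤ b) hTi j)
    have hTF : IntF M T := IntF.sep hTi
    have hp : IntF M (fun j => iinf (T j)) := IntF.iinf hTF
    -- two elements of the closure agree
    have hag : ∀ (G : IPow M (CN M h)) x y, (∀ c, c ∈ G → c.1 x = g c) →
        (∀ c, c ∈ G → c.1 y = g c) → Ag G x y := fun G x y h1 h2 c hc =>
      (h1 c hc).trans (h2 c hc).symm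
    have hlow : ∀ (j : ι) (e : ρ) (G : IPow M (CN M h)), IFin G →
        (∀ x y, Ag G x y → h x j - h y j < e ∧ h y j - h x j < e) →
        ∀ y, (∀ c, c ∈ G → c.1 y = g c) → ∀ b, b ∈ T j → h y j - e ≤ b := by
      intro j e G hG h1 y hy b hb
      obtain ⟨G', hG', h2⟩ := (hT' j b).1 hb
      obtain ⟨z, hz'⟩ := hgc (G ∪ G') (hG.union hG')
      have h3 := h2 z fun c hc => hz' c (mem_union.2 (Or.inr hc))
      have h4 := h1 y z (hag G y z hy fun c hc => hz' c (mem_union.2 (Or.inl hc)))
      linarith [h4.1]
    have hf : ∀ j, IntF M (fun x => h x j) := fun j => (by
        (repeat' first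
          | (with_reducible assumption)
          | (with_reducible exact IntF.id) | (with_reducible exact IntF.fst')
          | (with_reducible exact IntF.snd') | (with_reducible exact IntF.const _)
          | (with_reducible exact Int.const _)
          | (with_reducible apply IntF.fst) | (with_reducible apply IntF.snd)
          | (with_reducible apply Int.and) | (with_reducible apply Int.or) | (with_reducible apply Int.not)
          | (with_reducible apply Int.ne) | (with_reducible apply Int.iff) | (with_reducible apply Int.imp)
          | (with_reducible apply Int.ex) | (with_reducible apply Int.all) | (with_reducible apply Int.eq)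
          | (with_reducible apply Int.mem) | (with_reducible apply Int.subset) | (with_reducible apply Int.fin)
          | (with_reducible_and_instances apply Int.leN) | (with_reducible_and_instances apply Int.ltN)
          | (with_reducible_and_instances apply Int.le) | (with_reducible_and_instances apply Int.lt)
          | (with_reducible_and_instances apply IntF.add) | (with_reducible_and_instances apply IntF.sub)
          | (with_reducible_and_instances apply IntF.mul) | (with_reducible_and_instances apply IntF.neg)
          | (with_reducible_and_instances apply IntF.div) | (with_reducible_and_instances apply IntF.inv)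
          | (with_reducible apply IntF.pair) | (with_reducible apply IntF.succ) | (with_reducible apply IntF.sep)
          | (with_reducible apply IntF.insert) | (with_reducible apply IntF.singleton)
          | (with_reducible ((refine IntF.comp₂ ?_ ?_ ?_); assumption))
          | (with_reducible ((refine Int.comp₂ ?_ ?_ ?_); assumption))
          | (with_reducible ((refine IntF.comp ?_ ?_); assumption))
          | (with_reducible ((refine Int.comp ?_ ?_); assumption))
          | (with_reducible apply IntF.app)))
    have hne : ∀ j, ∃ b, b ∈ T j := by
      intro j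
      obtain ⟨G, hG, h1⟩ := osc hz (hf j) (hcoord j) one_pos
      obtain ⟨y, hy⟩ := hgc G hG
      exact ⟨h y j + 1, (hT' j _).2 ⟨G, hG, fun z hz' => by
        have := (h1 z y (hag G z y hz' hy)).1
        linarith⟩⟩
    have hbd : ∀ j, ∃ b, ∀ a, a ∈ T j → b ≤ a := by
      intro j
      obtain ⟨G, hG, h1⟩ := osc hz (hf j) (hcoord j) one_pos
      obtain ⟨y, hy⟩ := hgc G hG
      exact ⟨h y j - 1, hlow j 1 G hG h1 y hy⟩
    have hclose : ∀ (j : ι) (e : ρ) (G : IPow M (CN M h)), IFin G →
        (∀ x y, Ag G x y → h x j - h y j < e ∧ h y j - h x j < e) →
        ∀ y, (∀ c, c ∈ G → c.1 y = g c) → h y j - iinf (T j) ≤ e ∧ iinf (T j) - h y j ≤ e := by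
      intro j e G hG h1 y hy
      have h2 := le_iinf (hne j) (hlow j e G hG h1 y hy)
      have h3 : iinf (T j) ≤ h y j + e := iinf_le (hbd j) ((hT' j _).2 ⟨G, hG, fun z hz' => by
        have := (h1 z y (hag G z y hz' hy)).1
        linarith⟩)
      constructor <;> linarith
    obtain ⟨x, hx⟩ := hclosed (fun j => iinf (T j)) hp fun F e hF he => by
      obtain ⟨G, hG, h1⟩ := osc_fin hz hcoord hF (half_pos he)
      obtain ⟨y, hy⟩ := hgc G hG
      refine ⟨y, fun j hj => ?_⟩
      have h2 := hclose j (e / 2) G hG (h1 j hj) y hy
      constructor <;> linarith [h2.1, h2.2]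
    refine ⟨x, fun c => ?_⟩
    obtain ⟨F, d, hF, hd, h1⟩ := c.2 x
    obtain ⟨G, hG, h2⟩ := osc_fin hz hcoord hF (half_pos hd)
    obtain ⟨y, hy⟩ := hgc (insert c G) (hG.insert c)
    have h3 : c.1 x = c.1 y := h1 y fun j hj => by
      have h4 := hclose j (d / 2) G hG (h2 j hj) y fun c hc => hy c (mem_insert.2 (Or.inr hc))
      rw [hx j]
      constructor <;> linarith [h4.1, h4.2]
    rw [h3]
    exact hy c (mem_insert.2 (Or.inl rfl))

end

end

end Pool.Agent.Helper672.ZFA.QM
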