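import Pool.Agent.R602.ZR.Defs

/-!
# Countable products of spaces in a model of set theory: definitions
-/

set_option autoImplicit false

namespace Pool.Agent.R602.ZR

open FirstOrder FirstOrder.Language
open Pool.Agent.Helper672.ZFA
open Pool.Agent.Y9.ZR (FiniteIn)

universe u

variable {M : Type u} [L.Structure M]

/-- In the model, the space `(X, τ)` is quasi-metrizable by a quasi-metric `d` for which
`d x y = 0` implies `x = y`. -/
def StrictlyQM (R : M) [Field (El R)] [LinearOrder (El R)] (X τ : M) : Prop :=
  ∃ d : El X → El X → El R, IsQuasiMetric d ∧ (∀ x y, d x y = 0 → x = y) ∧ Induces X τ d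

/-- The element `n` of the model is a natural number (a von Neumann numeral) of the model: it
belongs to every set of the model that contains `∅` and with `m` also `m ∪ {m}`. -/
def IsNatIn (n : M) : Prop :=
  ∀ i : M, (∀ e, IsSet e → (∀ z, ¬ Mem z e) → Mem e i) →
    (∀ m s, Mem m i → IsSet s → (∀ z, Mem z s ↔ Mem z m ∨ z = m) → Mem s i) → Mem n i

/-- In the model, the set `J` is countable: there is an injection `g` of `J` into `ω`. -/
def CountableIn (J : M) : Prop :=
  ∃ g : M, (∀ j : El J, ∃! n, IsNatIn n ∧ ∃ p, IsOrdPair p j.1 n ∧ Mem p g) ∧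
    ∀ (j j' : El J) (n p p' : M), IsNatIn n → IsOrdPair p j.1 n → Mem p g →
      IsOrdPair p' j'.1 n → Mem p' g → j = j'

/-- The family `X` is given by an element of the model. -/
def IsFamily {J : M} (X : El J → M) : Prop :=
  ∃ g : M, ∀ (j : El J) (y : M), y = X j ↔ ∃ p, IsOrdPair p j.1 y ∧ Mem p g

/-- The element `f` of the model is a function on `J` with `f j ∈ X j` for all `j`. -/
def IsChoice {J : M} (X : El J → M) (f : M) : Prop :=
  IsSet f ∧ (∀ p, Mem p f → ∃ (j : El J) (x : M), Mem x (X j) ∧ IsOrdPair p j.1 x) ∧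
    ∀ j : El J, ∃! x, ∃ p, IsOrdPair p j.1 x ∧ Mem p f

/-- The preimages of the open subsets of the spaces `(X j, τ j)` under the projections of the
product `P` are in `σ`. -/
def HasPreimages {J : M} (τ : El J → M) (P σ : M) : Prop :=
  ∀ (j : El J) (U W : M), Mem U (τ j) → IsSet W →
    (∀ f, Mem f W ↔ Mem f P ∧ ∃ x p, Mem x U ∧ IsOrdPair p j.1 x ∧ Mem p f) → Mem W σ

/-- In the model, `(P, σ)` is the product of the family of the spaces `(X j, τ j)`: the set `P`
consists of the functions `f` on `J` with `f j ∈ X j`, and `σ` is the coarsest topology on `P` for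
which the projections are continuous. -/
structure IsProdSpace {J : M} (X τ : El J → M) (P σ : M) : Prop where
  set : IsSet P ∧ ∀ f, Mem f P ↔ IsChoice X f
  top : IsTopology P σ
  pre : HasPreimages τ P σ
  least : ∀ σ', IsTopology P σ' → HasPreimages τ P σ' → ∀ U, Mem U σ → Mem U σ'

/-- The model satisfies: every countable product of compact metrizable spaces is metrizable. -/
def CPMC (R : M) [Field (El R)] [LinearOrder (El R)] : Prop :=
  ∀ (J : M) (X τ : El J → M), CountableIn J → IsFamily X → IsFamily τ →
    (∀ j, IsTopology (X j) (τ j) ∧ IsCompactIn (X j) (τ j) ∧ Metrizable R (X j) (τ j)) →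
    ∀ P σ : M, IsProdSpace X τ P σ → Metrizable R P σ

/-- The model satisfies: every countable product of compact Hausdorff quasi-metrizable spaces is
quasi-metrizable. (Quasi-metrics `d` are such that `d x y = 0` implies `x = y`.) -/
def CPQC (R : M) [Field (El R)] [LinearOrder (El R)] : Prop :=
  ∀ (J : M) (X τ : El J → M), CountableIn J → IsFamily X → IsFamily τ →
    (∀ j, IsTopology (X j) (τ j) ∧ IsCompactIn (X j) (τ j) ∧ IsHausdorffIn (X j) (τ j) ∧
      StrictlyQM R (X j) (τ j)) →
    ∀ P σ : M, IsProdSpace X τ P σ → StrictlyQM R P σ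

end Pool.Agent.R602.ZR
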