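import Pool.Agent.Helper672.ZFA.Arith

/-!
# The real numbers of a model
-/

set_option autoImplicit false
set_option linter.all false

namespace Pool.Agent.Helper672.ZFA.QM

open FirstOrder FirstOrder.Language

universe u u₁ u₂ u₃

/-- The type `ρ` is a complete ordered field in the model `M`. -/
class IReal (M : Type u) [L.Structure M] [IsModel M] (ρ : Type u₂) [ITy M ρ] [Field ρ]
    [LinearOrder ρ] [IsStrictOrderedRing ρ] : Prop where
  add : IAdd M ρ
  mul : IMul M ρ
  le : ILE M ρ
  sup : ∀ s : IPow M ρ, (∃ x, x ∈ s) → (∃ b, ∀ x, x ∈ s → x ≤ b) →
    ∃ b, (∀ x, x ∈ s → x ≤ b) ∧ ∀ c, (∀ x, x ∈ s → x ≤ c) → b ≤ c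

section

variable {M : Type u} [L.Structure M] [hM : IsModel M]
variable {ρ : Type u₂} [ITy M ρ] [Field ρ] [LinearOrder ρ] [IsStrictOrderedRing ρ]
  [hρ : IReal M ρ]

instance instIAdd : IAdd M ρ := hρ.add
instance instIMul : IMul M ρ := hρ.mul
instance instILE : ILE M ρ := hρ.le

theorem exists_inf (s : IPow M ρ) (h : ∃ x, x ∈ s) (h' : ∃ b, ∀ x, x ∈ s → b ≤ x) :
    ∃ b, (∀ x, x ∈ s → b ≤ x) ∧ ∀ c, (∀ x, x ∈ s → c ≤ x) → c ≤ b := by
  have h1 : Int M (fun x : ρ => -x ∈ s) := (by
      (repeat' first
        | (with_reducible assumption)
        | (with_reducible exact IntF.id) | (with_reducible exact IntF.fst')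
        | (with_reducible exact IntF.snd') | (with_reducible exact IntF.const _)
        | (with_reducible exact Int.const _)
        | (with_reducible apply IntF.fst) | (with_reducible apply IntF.snd)
        | (with_reducible apply Int.and) | (with_reducible apply Int.or) | (with_reducible apply Int.not)
        | (with_reducible apply Int.ne) | (with_reducible apply Int.iff) | (with_reducible apply Int.imp)
        | (with_reducible apply Int.ex) | (with_reducible apply Int.all) | (with_reducible apply Int.eq)
        | (with_reducible apply Int.mem) | (with_reducible apply Int.subset) | (with_reducible apply Int.fin)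
        | (with_reducible_and_instances apply Int.leN) | (with_reducible_and_instances apply Int.ltN)
        | (with_reducible_and_instances apply Int.le) | (with_reducible_and_instances apply Int.lt)
        | (with_reducible_and_instances apply IntF.add) | (with_reducible_and_instances apply IntF.sub)
        | (with_reducible_and_instances apply IntF.mul) | (with_reducible_and_instances apply IntF.neg)
        | (with_reducible_and_instances apply IntF.div) | (with_reducible_and_instances apply IntF.inv)
        | (with_reducible apply IntF.pair) | (with_reducible apply IntF.succ) | (with_reducible apply IntF.sep)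
        | (with_reducible apply IntF.insert) | (with_reducible apply IntF.singleton)
        | (with_reducible ((refine IntF.comp₂ ?_ ?_ ?_); assumption))
        | (with_reducible ((refine Int.comp₂ ?_ ?_ ?_); assumption))
        | (with_reducible ((refine IntF.comp ?_ ?_); assumption))
        | (with_reducible ((refine Int.comp ?_ ?_); assumption))
        | (with_reducible apply IntF.app)))
  obtain ⟨x, hx⟩ := h
  obtain ⟨b, hb⟩ := h'
  obtain ⟨c, hc, hc'⟩ := hρ.sup (sep M fun x : ρ => -x ∈ s) ⟨-x, (mem_sep h1).2 (by
    rwa [neg_neg])⟩ ⟨-b, fun y hy => by
      have := hb _ ((mem_sep h1).1 hy)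
      linarith⟩
  refine ⟨-c, fun y hy => ?_, fun d hd => ?_⟩
  · have := hc (-y) ((mem_sep h1).2 (by rwa [neg_neg]))
    linarith
  · have := hc' (-d) fun y hy => by
      have := hd _ ((mem_sep h1).1 hy)
      linarith
    linarith

/-- The infimum. -/
noncomputable def iinf (s : IPow M ρ) : ρ :=
  the (fun b => (∀ x, x ∈ s → b ≤ x) ∧ ∀ c, (∀ x, x ∈ s → c ≤ x) → c ≤ b) 0

theorem iinf_spec {s : IPow M ρ} (h : ∃ x, x ∈ s) (h' : ∃ b, ∀ x, x ∈ s → b ≤ x) :
    (∀ x, x ∈ s → iinf s ≤ x) ∧ ∀ c, (∀ x, x ∈ s → c ≤ x) → c ≤ iinf s := by
  obtain ⟨b, hb⟩ := exists_inf s h h'
  have h1 : ∃! b, (∀ x, x ∈ s → b ≤ x) ∧ ∀ c, (∀ x, x ∈ s → c ≤ x) → c ≤ b :=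
    ⟨b, hb, fun c hc => le_antisymm (hb.2 c hc.1) (hc.2 b hb.1)⟩
  exact the_spec h1

theorem iinf_le {s : IPow M ρ} (h' : ∃ b, ∀ x, x ∈ s → b ≤ x) {x : ρ} (hx : x ∈ s) :
    iinf s ≤ x := (iinf_spec ⟨x, hx⟩ h').1 x hx

theorem le_iinf {s : IPow M ρ} (h : ∃ x, x ∈ s) {c : ρ} (hc : ∀ x, x ∈ s → c ≤ x) :
    c ≤ iinf s := (iinf_spec h ⟨c, hc⟩).2 c hc

theorem iinf_lt {s : IPow M ρ} (h : ∃ x, x ∈ s) {c : ρ} (hc : iinf s < c) :
    ∃ x, x ∈ s ∧ x < c := by
  by_contra h1
  push Not at h1
  exact absurd (le_iinf h h1) (not_le.2 hc)

theorem _root_.Pool.Agent.Helper672.ZFA.IntF.iinf {γ : Type*} [ITy M γ] {f : γ → IPow M ρ}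
    (hf : IntF M f) : IntF M (fun c => iinf (f c)) := by
  unfold QM.iinf
  refine IntF.the ?_ (IntF.const _)
  exact (by
      (repeat' first
        | (with_reducible assumption)
        | (with_reducible exact IntF.id) | (with_reducible exact IntF.fst')
        | (with_reducible exact IntF.snd') | (with_reducible exact IntF.const _)
        | (with_reducible exact Int.const _)
        | (with_reducible apply IntF.fst) | (with_reducible apply IntF.snd)
        | (with_reducible apply Int.and) | (with_reducible apply Int.or) | (with_reducible apply Int.not)
        | (with_reducible apply Int.ne) | (with_reducible apply Int.iff) | (with_reducible apply Int.imp)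
        | (with_reducible apply Int.ex) | (with_reducible apply Int.all) | (with_reducible apply Int.eq)
        | (with_reducible apply Int.mem) | (with_reducible apply Int.subset) | (with_reducible apply Int.fin)
        | (with_reducible_and_instances apply Int.leN) | (with_reducible_and_instances apply Int.ltN)
        | (with_reducible_and_instances apply Int.le) | (with_reducible_and_instances apply Int.lt)
        | (with_reducible_and_instances apply IntF.add) | (with_reducible_and_instances apply IntF.sub)
        | (with_reducible_and_instances apply IntF.mul) | (with_reducible_and_instances apply IntF.neg)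
        | (with_reducible_and_instances apply IntF.div) | (with_reducible_and_instances apply IntF.inv)
        | (with_reducible apply IntF.pair) | (with_reducible apply IntF.succ) | (with_reducible apply IntF.sep)
        | (with_reducible apply IntF.insert) | (with_reducible apply IntF.singleton)
        | (with_reducible ((refine IntF.comp₂ ?_ ?_ ?_); assumption))
        | (with_reducible ((refine Int.comp₂ ?_ ?_ ?_); assumption))
        | (with_reducible ((refine IntF.comp ?_ ?_); assumption))
        | (with_reducible ((refine Int.comp ?_ ?_); assumption))
        | (with_reducible apply IntF.app)))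

/-! ### Powers of one half -/

variable (M ρ) in
/-- The powers of one half. -/
noncomputable def pw (n : INat M) : ρ := irec (1 : ρ) (fun _ x => x / 2) n

theorem int_half : IntF M (fun q : INat M × ρ => q.2 / 2) := (by
    (repeat' first
      | (with_reducible assumption)
      | (with_reducible exact IntF.id) | (with_reducible exact IntF.fst')
      | (with_reducible exact IntF.snd') | (with_reducible exact IntF.const _)
      | (with_reducible exact Int.const _)
      | (with_reducible apply IntF.fst) | (with_reducible apply IntF.snd)
      | (with_reducible apply Int.and) | (with_reducible apply Int.or) | (with_reducible apply Int.not)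
      | (with_reducible apply Int.ne) | (with_reducible apply Int.iff) | (with_reducible apply Int.imp)
      | (with_reducible apply Int.ex) | (with_reducible apply Int.all) | (with_reducible apply Int.eq)
      | (with_reducible apply Int.mem) | (with_reducible apply Int.subset) | (with_reducible apply Int.fin)
      | (with_reducible_and_instances apply Int.leN) | (with_reducible_and_instances apply Int.ltN)
      | (with_reducible_and_instances apply Int.le) | (with_reducible_and_instances apply Int.lt)
      | (with_reducible_and_instances apply IntF.add) | (with_reducible_and_instances apply IntF.sub)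
      | (with_reducible_and_instances apply IntF.mul) | (with_reducible_and_instances apply IntF.neg)
      | (with_reducible_and_instances apply IntF.div) | (with_reducible_and_instances apply IntF.inv)
      | (with_reducible apply IntF.pair) | (with_reducible apply IntF.succ) | (with_reducible apply IntF.sep)
      | (with_reducible apply IntF.insert) | (with_reducible apply IntF.singleton)
      | (with_reducible ((refine IntF.comp₂ ?_ ?_ ?_); assumption))
      | (with_reducible ((refine Int.comp₂ ?_ ?_ ?_); assumption))
      | (with_reducible ((refine IntF.comp ?_ ?_); assumption))
      | (with_reducible ((refine Int.comp ?_ ?_); assumption))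
      | (with_reducible apply IntF.app)))

theorem pw_zero : pw M ρ 0 = 1 := irec_zero int_half

theorem pw_succ (n : INat M) : pw M ρ n.succ = pw M ρ n / 2 := irec_succ int_half n

theorem int_pw : IntF M (pw M ρ) := by
  have h : IntF M (fun q : (INat M × INat M) × ρ => q.2 / 2) := (by
      (repeat' first
        | (with_reducible assumption)
        | (with_reducible exact IntF.id) | (with_reducible exact IntF.fst')
        | (with_reducible exact IntF.snd') | (with_reducible exact IntF.const _)
        | (with_reducible exact Int.const _)
        | (with_reducible apply IntF.fst) | (with_reducible apply IntF.snd)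
        | (with_reducible apply Int.and) | (with_reducible apply Int.or) | (with_reducible apply Int.not)
        | (with_reducible apply Int.ne) | (with_reducible apply Int.iff) | (with_reducible apply Int.imp)
        | (with_reducible apply Int.ex) | (with_reducible apply Int.all) | (with_reducible apply Int.eq)
        | (with_reducible apply Int.mem) | (with_reducible apply Int.subset) | (with_reducible apply Int.fin)
        | (with_reducible_and_instances apply Int.leN) | (with_reducible_and_instances apply Int.ltN)
        | (with_reducible_and_instances apply Int.le) | (with_reducible_and_instances apply Int.lt)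
        | (with_reducible_and_instances apply IntF.add) | (with_reducible_and_instances apply IntF.sub)
        | (with_reducible_and_instances apply IntF.mul) | (with_reducible_and_instances apply IntF.neg)
        | (with_reducible_and_instances apply IntF.div) | (with_reducible_and_instances apply IntF.inv)
        | (with_reducible apply IntF.pair) | (with_reducible apply IntF.succ) | (with_reducible apply IntF.sep)
        | (with_reducible apply IntF.insert) | (with_reducible apply IntF.singleton)
        | (with_reducible ((refine IntF.comp₂ ?_ ?_ ?_); assumption))
        | (with_reducible ((refine Int.comp₂ ?_ ?_ ?_); assumption))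
        | (with_reducible ((refine IntF.comp ?_ ?_); assumption))
        | (with_reducible ((refine Int.comp ?_ ?_); assumption))
        | (with_reducible apply IntF.app)))
  exact IntF.irec (a := fun _ : INat M => (1 : ρ)) (f := fun _ _ x => x / 2) (n := fun n => n)
    (IntF.const _) h IntF.id

theorem _root_.Pool.Agent.Helper672.ZFA.IntF.pw {γ : Type*} [ITy M γ] {f : γ → INat M}
    (hf : IntF M f) : IntF M (fun c => pw M ρ (f c)) := IntF.comp int_pw hf

theorem pw_pos (n : INat M) : 0 < pw M ρ n := by
  have h0 : IntF M (pw M ρ) := int_pw
  refine INat.ind (p := fun n => 0 < pw M ρ n) (by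
      (repeat' first
        | (with_reducible assumption)
        | (with_reducible exact IntF.id) | (with_reducible exact IntF.fst')
        | (with_reducible exact IntF.snd') | (with_reducible exact IntF.const _)
        | (with_reducible exact Int.const _)
        | (with_reducible apply IntF.fst) | (with_reducible apply IntF.snd)
        | (with_reducible apply Int.and) | (with_reducible apply Int.or) | (with_reducible apply Int.not)
        | (with_reducible apply Int.ne) | (with_reducible apply Int.iff) | (with_reducible apply Int.imp)
        | (with_reducible apply Int.ex) | (with_reducible apply Int.all) | (with_reducible apply Int.eq)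
        | (with_reducible apply Int.mem) | (with_reducible apply Int.subset) | (with_reducible apply Int.fin)
        | (with_reducible_and_instances apply Int.leN) | (with_reducible_and_instances apply Int.ltN)
        | (with_reducible_and_instances apply Int.le) | (with_reducible_and_instances apply Int.lt)
        | (with_reducible_and_instances apply IntF.add) | (with_reducible_and_instances apply IntF.sub)
        | (with_reducible_and_instances apply IntF.mul) | (with_reducible_and_instances apply IntF.neg)
        | (with_reducible_and_instances apply IntF.div) | (with_reducible_and_instances apply IntF.inv)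
        | (with_reducible apply IntF.pair) | (with_reducible apply IntF.succ) | (with_reducible apply IntF.sep)
        | (with_reducible apply IntF.insert) | (with_reducible apply IntF.singleton)
        | (with_reducible ((refine IntF.comp₂ ?_ ?_ ?_); assumption))
        | (with_reducible ((refine Int.comp₂ ?_ ?_ ?_); assumption))
        | (with_reducible ((refine IntF.comp ?_ ?_); assumption))
        | (with_reducible ((refine Int.comp ?_ ?_); assumption))
        | (with_reducible apply IntF.app))) ?_ ?_ n
  · rw [pw_zero]
    exact zero_lt_one
  · intro n h
    rw [pw_succ]
    linarith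

theorem pw_anti {m n : INat M} (h : m ≤ n) : pw M ρ n ≤ pw M ρ m := by
  have h0 : IntF M (pw M ρ) := int_pw
  revert h
  refine INat.ind (p := fun n => m ≤ n → pw M ρ n ≤ pw M ρ m) (by
      (repeat' first
        | (with_reducible assumption)
        | (with_reducible exact IntF.id) | (with_reducible exact IntF.fst')
        | (with_reducible exact IntF.snd') | (with_reducible exact IntF.const _)
        | (with_reducible exact Int.const _)
        | (with_reducible apply IntF.fst) | (with_reducible apply IntF.snd)
        | (with_reducible apply Int.and) | (with_reducible apply Int.or) | (with_reducible apply Int.not)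
        | (with_reducible apply Int.ne) | (with_reducible apply Int.iff) | (with_reducible apply Int.imp)
        | (with_reducible apply Int.ex) | (with_reducible apply Int.all) | (with_reducible apply Int.eq)
        | (with_reducible apply Int.mem) | (with_reducible apply Int.subset) | (with_reducible apply Int.fin)
        | (with_reducible_and_instances apply Int.leN) | (with_reducible_and_instances apply Int.ltN)
        | (with_reducible_and_instances apply Int.le) | (with_reducible_and_instances apply Int.lt)
        | (with_reducible_and_instances apply IntF.add) | (with_reducible_and_instances apply IntF.sub)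
        | (with_reducible_and_instances apply IntF.mul) | (with_reducible_and_instances apply IntF.neg)
        | (with_reducible_and_instances apply IntF.div) | (with_reducible_and_instances apply IntF.inv)
        | (with_reducible apply IntF.pair) | (with_reducible apply IntF.succ) | (with_reducible apply IntF.sep)
        | (with_reducible apply IntF.insert) | (with_reducible apply IntF.singleton)
        | (with_reducible ((refine IntF.comp₂ ?_ ?_ ?_); assumption))
        | (with_reducible ((refine Int.comp₂ ?_ ?_ ?_); assumption))
        | (with_reducible ((refine IntF.comp ?_ ?_); assumption))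
        | (with_reducible ((refine Int.comp ?_ ?_); assumption))
        | (with_reducible apply IntF.app))) ?_ ?_ n
  · intro h
    rw [le_antisymm h (INat.zero_le m)]
  · intro n ih h
    rcases h.lt_or_eq with h1 | h1
    · have h2 := ih (INat.lt_succ_iff.1 h1)
      rw [pw_succ]
      have := pw_pos (M := M) (ρ := ρ) n
      linarith
    · rw [h1]

theorem pw_lt {m n : INat M} (h : pw M ρ n < pw M ρ m) : m < n := by
  by_contra h1
  exact absurd (pw_anti (ρ := ρ) (not_lt.1 h1)) (not_le.2 h)

/-- The Archimedean property. -/
theorem exists_pw {e : ρ} (he : 0 < e) : ∃ n, pw M ρ n < e := by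
  have h0 : IntF M (pw M ρ) := int_pw
  have hi : Int M (fun x : ρ => ∃ n, x = pw M ρ n) := (by
      (repeat' first
        | (with_reducible assumption)
        | (with_reducible exact IntF.id) | (with_reducible exact IntF.fst')
        | (with_reducible exact IntF.snd') | (with_reducible exact IntF.const _)
        | (with_reducible exact Int.const _)
        | (with_reducible apply IntF.fst) | (with_reducible apply IntF.snd)
        | (with_reducible apply Int.and) | (with_reducible apply Int.or) | (with_reducible apply Int.not)
        | (with_reducible apply Int.ne) | (with_reducible apply Int.iff) | (with_reducible apply Int.imp)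
        | (with_reducible apply Int.ex) | (with_reducible apply Int.all) | (with_reducible apply Int.eq)
        | (with_reducible apply Int.mem) | (with_reducible apply Int.subset) | (with_reducible apply Int.fin)
        | (with_reducible_and_instances apply Int.leN) | (with_reducible_and_instances apply Int.ltN)
        | (with_reducible_and_instances apply Int.le) | (with_reducible_and_instances apply Int.lt)
        | (with_reducible_and_instances apply IntF.add) | (with_reducible_and_instances apply IntF.sub)
        | (with_reducible_and_instances apply IntF.mul) | (with_reducible_and_instances apply IntF.neg)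
        | (with_reducible_and_instances apply IntF.div) | (with_reducible_and_instances apply IntF.inv)
        | (with_reducible apply IntF.pair) | (with_reducible apply IntF.succ) | (with_reducible apply IntF.sep)
        | (with_reducible apply IntF.insert) | (with_reducible apply IntF.singleton)
        | (with_reducible ((refine IntF.comp₂ ?_ ?_ ?_); assumption))
        | (with_reducible ((refine Int.comp₂ ?_ ?_ ?_); assumption))
        | (with_reducible ((refine IntF.comp ?_ ?_); assumption))
        | (with_reducible ((refine Int.comp ?_ ?_); assumption))
        | (with_reducible apply IntF.app)))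
  by_contra hc
  push Not at hc
  set s := sep M (fun x : ρ => ∃ n, x = pw M ρ n) with hs
  have hm : ∀ x, x ∈ s ↔ ∃ n, x = pw M ρ n := fun x => mem_sep hi
  have hne : ∃ x, x ∈ s := ⟨_, (hm _).2 ⟨0, rfl⟩⟩
  have hb : ∃ b, ∀ x, x ∈ s → b ≤ x := ⟨0, fun x hx => by
    obtain ⟨n, rfl⟩ := (hm x).1 hx
    exact (pw_pos n).le⟩
  have h1 : e ≤ iinf s := le_iinf hne fun x hx => by
    obtain ⟨n, rfl⟩ := (hm x).1 hx
    exact hc n
  have h2 : 2 * iinf s ≤ iinf s := le_iinf hne fun x hx => by
    obtain ⟨n, rfl⟩ := (hm x).1 hx
    have h3 : iinf s ≤ pw M ρ n.succ := iinf_le hb ((hm _).2 ⟨_, rfl⟩)
    rw [pw_succ] at h3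
    linarith
  linarith

end

end Pool.Agent.Helper672.ZFA.QM
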