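import Pool.Agent.R602.ZR.Chain

/-!
# Compact Hausdorff spaces with a quasi-metric
-/

set_option autoImplicit false
set_option linter.all false

namespace Pool.Agent.Helper672.ZFA.QM

open FirstOrder FirstOrder.Language

universe u u₁ u₂ u₃

section

variable {M : Type u} [L.Structure M] [hM : IsModel M]
variable {ρ : Type u₂} [ITy M ρ] [Field ρ] [LinearOrder ρ] [IsStrictOrderedRing ρ]
  [hρ : IReal M ρ] {α : Type u₁} [ITy M α]

omit hM in
theorem exists_set [IsModel M] {p : α → Prop} (h : Int M p) : ∃ S : IPow M α, ∀ x, x ∈ S ↔ p x :=
  ⟨⟨p, h⟩, fun _ => Iff.rfl⟩

/-- Open sets. -/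
def OpenQ (q : α → α → ρ) (U : IPow M α) : Prop :=
  ∀ x, x ∈ U → ∃ e : ρ, 0 < e ∧ ∀ y, q x y < e → y ∈ U

theorem int_openQ {q : α → α → ρ} (hq : IntF M (fun p : α × α => q p.1 p.2)) {γ : Type*} [ITy M γ]
    {U : γ → IPow M α} (hU : IntF M U) : Int M (fun c => OpenQ q (U c)) := by
  unfold OpenQ
  exact (by
      (repeat' first
        | (with_reducible assumption)
        | (with_reducible exact IntF.id) | (with_reducible exact IntF.fst')
        | (with_reducible exact IntF.snd') | (with_reducible exact IntF.const _)
        | (with_reducible exact Int.const _)
        | (with_reducible apply IntF.fst) | (with_reducible apply IntF.snd)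
        | (with_reducible apply Int.and) | (with_reducible apply Int.or) | (with_reducible apply Int.not)
        | (with_reducible apply Int.ne) | (with_reducible apply Int.iff) | (with_reducible apply Int.imp)
        | (with_reducible apply Int.ex) | (with_reducible apply Int.all) | (with_reducible apply Int.eq)
        | (with_reducible apply Int.mem) | (with_reducible apply Int.subset) | (with_reducible apply Int.fin)
        | (with_reducible_and_instances apply Int.leN) | (with_reducible_and_instances apply Int.ltN)
        | (with_reducible_and_instances apply Int.le) | (with_reducible_and_instances apply Int.lt)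
        | (with_reducible_and_instances apply IntF.add) | (with_reducible_and_instances apply IntF.sub)
        | (with_reducible_and_instances apply IntF.mul) | (with_reducible_and_instances apply IntF.neg)
        | (with_reducible_and_instances apply IntF.div) | (with_reducible_and_instances apply IntF.inv)
        | (with_reducible apply IntF.pair) | (with_reducible apply IntF.succ) | (with_reducible apply IntF.sep)
        | (with_reducible apply IntF.insert) | (with_reducible apply IntF.singleton)
        | (with_reducible ((refine IntF.comp₂ ?_ ?_ ?_); assumption))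
        | (with_reducible ((refine Int.comp₂ ?_ ?_ ?_); assumption))
        | (with_reducible ((refine IntF.comp ?_ ?_); assumption))
        | (with_reducible ((refine Int.comp ?_ ?_); assumption))
        | (with_reducible apply IntF.app)))

/-- Quasi-metrics. -/
structure IsQM (q : α → α → ρ) : Prop where
  nonneg : ∀ x y, 0 ≤ q x y
  self : ∀ x, q x x = 0
  tri : ∀ x y z, q x z ≤ q x y + q y z

/-- The compact Hausdorff spaces. -/
structure CH (M : Type u) [L.Structure M] [IsModel M] {ρ : Type u₂} [ITy M ρ] [Field ρ]
    [LinearOrder ρ] [IsStrictOrderedRing ρ] {α : Type u₁} [ITy M α] (q : α → α → ρ) : Prop where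
  qm : IsQM q
  comp : ∀ C : IPow M (IPow M α), (∀ U, U ∈ C → OpenQ q U) → (∀ x, ∃ U, U ∈ C ∧ x ∈ U) →
    ∃ F : IPow M (IPow M α), IFin F ∧ F ⊆ C ∧ ∀ x, ∃ U, U ∈ F ∧ x ∈ U
  haus : ∀ x y, x ≠ y → ∃ U V : IPow M α, OpenQ q U ∧ OpenQ q V ∧ x ∈ U ∧ y ∈ V ∧
    ∀ z, z ∈ U → z ∉ V

variable {q : α → α → ρ} (hq : IntF M (fun p : α × α => q p.1 p.2))

omit hρ in
theorem openQ_inter {U V : IPow M α} (hU : OpenQ q U) (hV : OpenQ q V) : OpenQ q (U ∩ V) := by
  intro x hx
  obtain ⟨h1, h2⟩ := mem_inter.1 hx
  obtain ⟨e, he, h3⟩ := hU x h1
  obtain ⟨e', he', h4⟩ := hV x h2
  exact ⟨min e e', lt_min he he', fun y hy => mem_inter.2 ⟨h3 y (hy.trans_le (min_le_left _ _)),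
    h4 y (hy.trans_le (min_le_right _ _))⟩⟩

/-- Balls. -/
noncomputable def ball (M : Type u) [L.Structure M] [IsModel M] {ρ : Type u₂} [ITy M ρ]
    [LinearOrder ρ] {α : Type u₁} [ITy M α] (q : α → α → ρ) (x : α) (r : ρ) : IPow M α :=
  sep M fun y => q x y < r

include hq

theorem mem_ball {x y : α} {r : ρ} : y ∈ ball M q x r ↔ q x y < r := by
  have h : Int M (fun y => q x y < r) := (by
      (repeat' first
        | (with_reducible assumption)
        | (with_reducible exact IntF.id) | (with_reducible exact IntF.fst')
        | (with_reducible exact IntF.snd') | (with_reducible exact IntF.const _)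
        | (with_reducible exact Int.const _)
        | (with_reducible apply IntF.fst) | (with_reducible apply IntF.snd)
        | (with_reducible apply Int.and) | (with_reducible apply Int.or) | (with_reducible apply Int.not)
        | (with_reducible apply Int.ne) | (with_reducible apply Int.iff) | (with_reducible apply Int.imp)
        | (with_reducible apply Int.ex) | (with_reducible apply Int.all) | (with_reducible apply Int.eq)
        | (with_reducible apply Int.mem) | (with_reducible apply Int.subset) | (with_reducible apply Int.fin)
        | (with_reducible_and_instances apply Int.leN) | (with_reducible_and_instances apply Int.ltN)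
        | (with_reducible_and_instances apply Int.le) | (with_reducible_and_instances apply Int.lt)
        | (with_reducible_and_instances apply IntF.add) | (with_reducible_and_instances apply IntF.sub)
        | (with_reducible_and_instances apply IntF.mul) | (with_reducible_and_instances apply IntF.neg)
        | (with_reducible_and_instances apply IntF.div) | (with_reducible_and_instances apply IntF.inv)
        | (with_reducible apply IntF.pair) | (with_reducible apply IntF.succ) | (with_reducible apply IntF.sep)
        | (with_reducible apply IntF.insert) | (with_reducible apply IntF.singleton)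
        | (with_reducible ((refine IntF.comp₂ ?_ ?_ ?_); assumption))
        | (with_reducible ((refine Int.comp₂ ?_ ?_ ?_); assumption))
        | (with_reducible ((refine IntF.comp ?_ ?_); assumption))
        | (with_reducible ((refine Int.comp ?_ ?_); assumption))
        | (with_reducible apply IntF.app)))
  exact mem_sep h

theorem openQ_ball (h : IsQM q) (x : α) (r : ρ) : OpenQ q (ball M q x r) := by
  intro y hy
  rw [mem_ball hq] at hy
  refine ⟨r - q x y, sub_pos.2 hy, fun z hz => ?_⟩
  rw [mem_ball hq]
  have := h.tri x y z
  linarith

/-- Lebesgue numbers. -/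
theorem lebesgue (h : CH M q) (C : IPow M (IPow M α)) (hC : ∀ U, U ∈ C → OpenQ q U)
    (hc : ∀ x, ∃ U, U ∈ C ∧ x ∈ U) : ∃ s : ρ, 0 < s ∧ ∀ z, ∃ U, U ∈ C ∧ ∀ w, q z w < s → w ∈ U := by
  have h1 : Int M (fun V : IPow M α => ∃ z e, 0 < e ∧ (∀ y, (y ∈ V ↔ q z y < e)) ∧
    ∃ U, U ∈ C ∧ ∀ w, q z w < 2 * e → w ∈ U) := (by
        (repeat' first
          | (with_reducible assumption)
          | (with_reducible exact IntF.id) | (with_reducible exact IntF.fst')
          | (with_reducible exact IntF.snd') | (with_reducible exact IntF.const _)
          | (with_reducible exact Int.const _)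
          | (with_reducible apply IntF.fst) | (with_reducible apply IntF.snd)
          | (with_reducible apply Int.and) | (with_reducible apply Int.or) | (with_reducible apply Int.not)
          | (with_reducible apply Int.ne) | (with_reducible apply Int.iff) | (with_reducible apply Int.imp)
          | (with_reducible apply Int.ex) | (with_reducible apply Int.all) | (with_reducible apply Int.eq)
          | (with_reducible apply Int.mem) | (with_reducible apply Int.subset) | (with_reducible apply Int.fin)
          | (with_reducible_and_instances apply Int.leN) | (with_reducible_and_instances apply Int.ltN)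
          | (with_reducible_and_instances apply Int.le) | (with_reducible_and_instances apply Int.lt)
          | (with_reducible_and_instances apply IntF.add) | (with_reducible_and_instances apply IntF.sub)
          | (with_reducible_and_instances apply IntF.mul) | (with_reducible_and_instances apply IntF.neg)
          | (with_reducible_and_instances apply IntF.div) | (with_reducible_and_instances apply IntF.inv)
          | (with_reducible apply IntF.pair) | (with_reducible apply IntF.succ) | (with_reducible apply IntF.sep)
          | (with_reducible apply IntF.insert) | (with_reducible apply IntF.singleton)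
          | (with_reducible ((refine IntF.comp₂ ?_ ?_ ?_); assumption))
          | (with_reducible ((refine Int.comp₂ ?_ ?_ ?_); assumption))
          | (with_reducible ((refine IntF.comp ?_ ?_); assumption))
          | (with_reducible ((refine Int.comp ?_ ?_); assumption))
          | (with_reducible apply IntF.app)))
  obtain ⟨F, hF, hFC, hF'⟩ := h.comp (sep M _) (fun U hU => by
    obtain ⟨z, e, he, h2, -⟩ := (mem_sep h1).1 hU
    intro x hx
    obtain ⟨e', he', h3⟩ := openQ_ball hq h.qm z e x ((mem_ball hq).2 ((h2 x).1 hx))
    exact ⟨e', he', fun y hy => (h2 y).2 ((mem_ball hq).1 (h3 y hy))⟩) (fun x => by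
    obtain ⟨U, hU, hx⟩ := hc x
    obtain ⟨e, he, h2⟩ := hC U hU x hx
    refine ⟨ball M q x (e / 2), (mem_sep h1).2 ⟨x, e / 2, by linarith, fun y => mem_ball hq, U, hU,
      fun w hw => h2 w (by linarith)⟩, (mem_ball hq).2 ?_⟩
    rw [h.qm.self]
    linarith)
  have h2 : Int M (fun p : IPow M α × ρ => 0 < p.2 ∧ ∀ x, x ∈ p.1 → ∃ U, U ∈ C ∧
    ∀ w, q x w < p.2 → w ∈ U) := (by
        (repeat' first
          | (with_reducible assumption)
          | (with_reducible exact IntF.id) | (with_reducible exact IntF.fst')
          | (with_reducible exact IntF.snd') | (with_reducible exact IntF.const _)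
          | (with_reducible exact Int.const _)
          | (with_reducible apply IntF.fst) | (with_reducible apply IntF.snd)
          | (with_reducible apply Int.and) | (with_reducible apply Int.or) | (with_reducible apply Int.not)
          | (with_reducible apply Int.ne) | (with_reducible apply Int.iff) | (with_reducible apply Int.imp)
          | (with_reducible apply Int.ex) | (with_reducible apply Int.all) | (with_reducible apply Int.eq)
          | (with_reducible apply Int.mem) | (with_reducible apply Int.subset) | (with_reducible apply Int.fin)
          | (with_reducible_and_instances apply Int.leN) | (with_reducible_and_instances apply Int.ltN)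
          | (with_reducible_and_instances apply Int.le) | (with_reducible_and_instances apply Int.lt)
          | (with_reducible_and_instances apply IntF.add) | (with_reducible_and_instances apply IntF.sub)
          | (with_reducible_and_instances apply IntF.mul) | (with_reducible_and_instances apply IntF.neg)
          | (with_reducible_and_instances apply IntF.div) | (with_reducible_and_instances apply IntF.inv)
          | (with_reducible apply IntF.pair) | (with_reducible apply IntF.succ) | (with_reducible apply IntF.sep)
          | (with_reducible apply IntF.insert) | (with_reducible apply IntF.singleton)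
          | (with_reducible ((refine IntF.comp₂ ?_ ?_ ?_); assumption))
          | (with_reducible ((refine Int.comp₂ ?_ ?_ ?_); assumption))
          | (with_reducible ((refine IntF.comp ?_ ?_); assumption))
          | (with_reducible ((refine Int.comp ?_ ?_); assumption))
          | (with_reducible apply IntF.app)))
  obtain ⟨s, hs⟩ := IFin.exists_bound (r := fun V s => 0 < s ∧ ∀ x, x ∈ V → ∃ U, U ∈ C ∧
    ∀ w, q x w < s → w ∈ U) h2 (fun b c => by
      by_cases hb : 0 < b
      · by_cases hc' : 0 < c
        · refine ⟨min b c, fun V h3 => ⟨lt_min hb hc', fun x hx => ?_⟩⟩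
          rcases h3 with h3 | h3
          · obtain ⟨U, hU, h4⟩ := h3.2 x hx
            exact ⟨U, hU, fun w hw => h4 w (hw.trans_le (min_le_left _ _))⟩
          · obtain ⟨U, hU, h4⟩ := h3.2 x hx
            exact ⟨U, hU, fun w hw => h4 w (hw.trans_le (min_le_right _ _))⟩
        · exact ⟨b, fun V h3 => h3.elim id fun h4 => absurd h4.1 hc'⟩
      · exact ⟨c, fun V h3 => h3.elim (fun h4 => absurd h4.1 hb) id⟩) ⟨0⟩ hF fun V hV => by
    obtain ⟨z, e, he, h3, U, hU, h4⟩ := (mem_sep h1).1 (hFC V hV)
    refine ⟨e, he, fun x hx => ⟨U, hU, fun w hw => h4 w ?_⟩⟩
    have h5 := (h3 x).1 hx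
    have h6 := h.qm.tri z x w
    linarith
  by_cases hne : ∃ V, V ∈ F
  · obtain ⟨V, hV⟩ := hne
    refine ⟨s, (hs V hV).1, fun z => ?_⟩
    obtain ⟨V, hV, hz⟩ := hF' z
    exact (hs V hV).2 z hz
  · refine ⟨1, one_pos, fun z => ?_⟩
    obtain ⟨V, hV, -⟩ := hF' z
    exact absurd ⟨V, hV⟩ hne

/-- Regularity. -/
theorem regular (h : CH M q) {x : α} {U : IPow M α} (hU : OpenQ q U) (hx : x ∈ U) :
    ∃ V W : IPow M α, OpenQ q V ∧ OpenQ q W ∧ x ∈ V ∧ (∀ z, z ∈ V → z ∉ W) ∧
      ∀ z, z ∈ U ∨ z ∈ W := by
  have h1 : Int M (fun W : IPow M α => W = U ∨ (OpenQ q W ∧ ∃ V : IPow M α, OpenQ q V ∧ x ∈ V ∧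
    ∀ z, z ∈ V → ¬ z ∈ W)) := (by
        (repeat' first
          | (with_reducible (refine int_openQ hq ?_))
          | (with_reducible assumption)
          | (with_reducible exact IntF.id) | (with_reducible exact IntF.fst')
          | (with_reducible exact IntF.snd') | (with_reducible exact IntF.const _)
          | (with_reducible exact Int.const _)
          | (with_reducible apply IntF.fst) | (with_reducible apply IntF.snd)
          | (with_reducible apply Int.and) | (with_reducible apply Int.or) | (with_reducible apply Int.not)
          | (with_reducible apply Int.ne) | (with_reducible apply Int.iff) | (with_reducible apply Int.imp)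
          | (with_reducible apply Int.ex) | (with_reducible apply Int.all) | (with_reducible apply Int.eq)
          | (with_reducible apply Int.mem) | (with_reducible apply Int.subset) | (with_reducible apply Int.fin)
          | (with_reducible_and_instances apply Int.leN) | (with_reducible_and_instances apply Int.ltN)
          | (with_reducible_and_instances apply Int.le) | (with_reducible_and_instances apply Int.lt)
          | (with_reducible_and_instances apply IntF.add) | (with_reducible_and_instances apply IntF.sub)
          | (with_reducible_and_instances apply IntF.mul) | (with_reducible_and_instances apply IntF.neg)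
          | (with_reducible_and_instances apply IntF.div) | (with_reducible_and_instances apply IntF.inv)
          | (with_reducible apply IntF.pair) | (with_reducible apply IntF.succ) | (with_reducible apply IntF.sep)
          | (with_reducible apply IntF.insert) | (with_reducible apply IntF.singleton)
          | (with_reducible ((refine IntF.comp₂ ?_ ?_ ?_); assumption))
          | (with_reducible ((refine Int.comp₂ ?_ ?_ ?_); assumption))
          | (with_reducible ((refine IntF.comp ?_ ?_); assumption))
          | (with_reducible ((refine Int.comp ?_ ?_); assumption))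
          | (with_reducible apply IntF.app)))
  obtain ⟨F, hF, hFC, hF'⟩ := h.comp (sep M _) (fun W hW => by
    rcases (mem_sep h1).1 hW with rfl | h2
    · exact hU
    · exact h2.1) (fun z => by
    by_cases hz : z ∈ U
    · exact ⟨U, (mem_sep h1).2 (Or.inl rfl), hz⟩
    · obtain ⟨V, W, hV, hW, h2, h3, h4⟩ := h.haus x z (fun h5 => hz (h5 ▸ hx))
      exact ⟨W, (mem_sep h1).2 (Or.inr ⟨hW, V, hV, h2, h4⟩), h3⟩)
  have h2 : Int M (fun p : IPow M α × IPow M α => OpenQ q p.2 ∧ x ∈ p.2 ∧ (p.1 = U ∨
    ∀ z, z ∈ p.2 → ¬ z ∈ p.1)) := (by
        (repeat' first
          | (with_reducible (refine int_openQ hq ?_))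
          | (with_reducible assumption)
          | (with_reducible exact IntF.id) | (with_reducible exact IntF.fst')
          | (with_reducible exact IntF.snd') | (with_reducible exact IntF.const _)
          | (with_reducible exact Int.const _)
          | (with_reducible apply IntF.fst) | (with_reducible apply IntF.snd)
          | (with_reducible apply Int.and) | (with_reducible apply Int.or) | (with_reducible apply Int.not)
          | (with_reducible apply Int.ne) | (with_reducible apply Int.iff) | (with_reducible apply Int.imp)
          | (with_reducible apply Int.ex) | (with_reducible apply Int.all) | (with_reducible apply Int.eq)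
          | (with_reducible apply Int.mem) | (with_reducible apply Int.subset) | (with_reducible apply Int.fin)
          | (with_reducible_and_instances apply Int.leN) | (with_reducible_and_instances apply Int.ltN)
          | (with_reducible_and_instances apply Int.le) | (with_reducible_and_instances apply Int.lt)
          | (with_reducible_and_instances apply IntF.add) | (with_reducible_and_instances apply IntF.sub)
          | (with_reducible_and_instances apply IntF.mul) | (with_reducible_and_instances apply IntF.neg)
          | (with_reducible_and_instances apply IntF.div) | (with_reducible_and_instances apply IntF.inv)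
          | (with_reducible apply IntF.pair) | (with_reducible apply IntF.succ) | (with_reducible apply IntF.sep)
          | (with_reducible apply IntF.insert) | (with_reducible apply IntF.singleton)
          | (with_reducible ((refine IntF.comp₂ ?_ ?_ ?_); assumption))
          | (with_reducible ((refine Int.comp₂ ?_ ?_ ?_); assumption))
          | (with_reducible ((refine IntF.comp ?_ ?_); assumption))
          | (with_reducible ((refine Int.comp ?_ ?_); assumption))
          | (with_reducible apply IntF.app)))
  obtain ⟨V, hV⟩ := IFin.exists_bound (r := fun W V => OpenQ q V ∧ x ∈ V ∧ (W = U ∨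
    ∀ z, z ∈ V → ¬ z ∈ W)) h2 (fun V V' => by
      by_cases h3 : OpenQ q V ∧ x ∈ V
      · by_cases h4 : OpenQ q V' ∧ x ∈ V'
        · refine ⟨V ∩ V', fun W h5 => ⟨openQ_inter h3.1 h4.1, mem_inter.2 ⟨h3.2, h4.2⟩, ?_⟩⟩
          rcases h5 with ⟨-, -, h5⟩ | ⟨-, -, h5⟩
          · exact h5.imp id fun h6 z hz => h6 z (mem_inter.1 hz).1
          · exact h5.imp id fun h6 z hz => h6 z (mem_inter.1 hz).2
        · exact ⟨V, fun W h5 => h5.elim id fun h6 => absurd ⟨h6.1, h6.2.1⟩ h4⟩
      · exact ⟨V', fun W h5 => h5.elim (fun h6 => absurd ⟨h6.1, h6.2.1⟩ h3) id⟩) ⟨∅⟩ hF
    fun W hW => by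
      rcases (mem_sep h1).1 (hFC W hW) with rfl | ⟨-, V, h3, h4, h5⟩
      · exact ⟨W, hU, hx, Or.inl rfl⟩
      · exact ⟨V, h3, h4, Or.inr h5⟩
  obtain ⟨W₀, hW₀, -⟩ := hF' x
  obtain ⟨hV1, hV2, -⟩ := hV W₀ hW₀
  have h3 : Int M (fun z => ∃ W, W ∈ F ∧ z ∈ W ∧ ∀ z, z ∈ V → ¬ z ∈ W) := (by
      (repeat' first
        | (with_reducible assumption)
        | (with_reducible exact IntF.id) | (with_reducible exact IntF.fst')
        | (with_reducible exact IntF.snd') | (with_reducible exact IntF.const _)
        | (with_reducible exact Int.const _)
        | (with_reducible apply IntF.fst) | (with_reducible apply IntF.snd)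
        | (with_reducible apply Int.and) | (with_reducible apply Int.or) | (with_reducible apply Int.not)
        | (with_reducible apply Int.ne) | (with_reducible apply Int.iff) | (with_reducible apply Int.imp)
        | (with_reducible apply Int.ex) | (with_reducible apply Int.all) | (with_reducible apply Int.eq)
        | (with_reducible apply Int.mem) | (with_reducible apply Int.subset) | (with_reducible apply Int.fin)
        | (with_reducible_and_instances apply Int.leN) | (with_reducible_and_instances apply Int.ltN)
        | (with_reducible_and_instances apply Int.le) | (with_reducible_and_instances apply Int.lt)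
        | (with_reducible_and_instances apply IntF.add) | (with_reducible_and_instances apply IntF.sub)
        | (with_reducible_and_instances apply IntF.mul) | (with_reducible_and_instances apply IntF.neg)
        | (with_reducible_and_instances apply IntF.div) | (with_reducible_and_instances apply IntF.inv)
        | (with_reducible apply IntF.pair) | (with_reducible apply IntF.succ) | (with_reducible apply IntF.sep)
        | (with_reducible apply IntF.insert) | (with_reducible apply IntF.singleton)
        | (with_reducible ((refine IntF.comp₂ ?_ ?_ ?_); assumption))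
        | (with_reducible ((refine Int.comp₂ ?_ ?_ ?_); assumption))
        | (with_reducible ((refine IntF.comp ?_ ?_); assumption))
        | (with_reducible ((refine Int.comp ?_ ?_); assumption))
        | (with_reducible apply IntF.app)))
  obtain ⟨S, hS⟩ := exists_set h3
  refine ⟨V, S, hV1, fun z hz => ?_, hV2, fun z hz hz' => ?_, fun z => ?_⟩
  · obtain ⟨W, hW, hzW, h4⟩ := (hS z).1 hz
    have hWo : OpenQ q W := by
      rcases (mem_sep h1).1 (hFC W hW) with rfl | h5
      · exact hU
      · exact h5.1
    obtain ⟨e, he, h5⟩ := hWo z hzW
    exact ⟨e, he, fun y hy => (hS y).2 ⟨W, hW, h5 y hy, h4⟩⟩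
  · obtain ⟨W, hW, hzW, h4⟩ := (hS z).1 hz'
    exact h4 z hz hzW
  · obtain ⟨W, hW, hzW⟩ := hF' z
    rcases (hV W hW).2.2 with rfl | h4
    · exact Or.inl hzW
    · exact Or.inr ((hS z).2 ⟨W, hW, hzW, h4⟩)

/-- Barycentric refinements. -/
theorem bary (h : CH M q) (C : IPow M (IPow M α)) (hC : ∀ U, U ∈ C → OpenQ q U)
    (hc : ∀ x, ∃ U, U ∈ C ∧ x ∈ U) : ∃ D : IPow M (IPow M α), (∀ U, U ∈ D → OpenQ q U) ∧
      (∀ x, ∃ U, U ∈ D ∧ x ∈ U) ∧ ∀ y, ∃ U, U ∈ C ∧ ∀ O, O ∈ D → y ∈ O → ∀ z, z ∈ O → z ∈ U := by
  have h1 : Int M (fun p : IPow M α × IPow M α => p.2 ∈ C ∧ OpenQ q p.1 ∧ ∃ W : IPow M α,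
    OpenQ q W ∧ (∀ z, z ∈ p.1 → ¬ z ∈ W) ∧ ∀ z, z ∈ p.2 ∨ z ∈ W) := (by
        (repeat' first
          | (with_reducible (refine int_openQ hq ?_))
          | (with_reducible assumption)
          | (with_reducible exact IntF.id) | (with_reducible exact IntF.fst')
          | (with_reducible exact IntF.snd') | (with_reducible exact IntF.const _)
          | (with_reducible exact Int.const _)
          | (with_reducible apply IntF.fst) | (with_reducible apply IntF.snd)
          | (with_reducible apply Int.and) | (with_reducible apply Int.or) | (with_reducible apply Int.not)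
          | (with_reducible apply Int.ne) | (with_reducible apply Int.iff) | (with_reducible apply Int.imp)
          | (with_reducible apply Int.ex) | (with_reducible apply Int.all) | (with_reducible apply Int.eq)
          | (with_reducible apply Int.mem) | (with_reducible apply Int.subset) | (with_reducible apply Int.fin)
          | (with_reducible_and_instances apply Int.leN) | (with_reducible_and_instances apply Int.ltN)
          | (with_reducible_and_instances apply Int.le) | (with_reducible_and_instances apply Int.lt)
          | (with_reducible_and_instances apply IntF.add) | (with_reducible_and_instances apply IntF.sub)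
          | (with_reducible_and_instances apply IntF.mul) | (with_reducible_and_instances apply IntF.neg)
          | (with_reducible_and_instances apply IntF.div) | (with_reducible_and_instances apply IntF.inv)
          | (with_reducible apply IntF.pair) | (with_reducible apply IntF.succ) | (with_reducible apply IntF.sep)
          | (with_reducible apply IntF.insert) | (with_reducible apply IntF.singleton)
          | (with_reducible ((refine IntF.comp₂ ?_ ?_ ?_); assumption))
          | (with_reducible ((refine Int.comp₂ ?_ ?_ ?_); assumption))
          | (with_reducible ((refine IntF.comp ?_ ?_); assumption))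
          | (with_reducible ((refine Int.comp ?_ ?_); assumption))
          | (with_reducible apply IntF.app)))
  set P := sep M (fun p : IPow M α × IPow M α => p.2 ∈ C ∧ OpenQ q p.1 ∧ ∃ W : IPow M α,
    OpenQ q W ∧ (∀ z, z ∈ p.1 → ¬ z ∈ W) ∧ ∀ z, z ∈ p.2 ∨ z ∈ W) with hP
  have hP' : ∀ p, p ∈ P ↔ p.2 ∈ C ∧ OpenQ q p.1 ∧ ∃ W : IPow M α,
    OpenQ q W ∧ (∀ z, z ∈ p.1 → ¬ z ∈ W) ∧ ∀ z, z ∈ p.2 ∨ z ∈ W := fun p => mem_sep h1
  have h2 : Int M (fun V : IPow M α => ∃ U, (V, U) ∈ P) := (by
      (repeat' first
        | (with_reducible assumption)
        | (with_reducible exact IntF.id) | (with_reducible exact IntF.fst')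
        | (with_reducible exact IntF.snd') | (with_reducible exact IntF.const _)
        | (with_reducible exact Int.const _)
        | (with_reducible apply IntF.fst) | (with_reducible apply IntF.snd)
        | (with_reducible apply Int.and) | (with_reducible apply Int.or) | (with_reducible apply Int.not)
        | (with_reducible apply Int.ne) | (with_reducible apply Int.iff) | (with_reducible apply Int.imp)
        | (with_reducible apply Int.ex) | (with_reducible apply Int.all) | (with_reducible apply Int.eq)
        | (with_reducible apply Int.mem) | (with_reducible apply Int.subset) | (with_reducible apply Int.fin)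
        | (with_reducible_and_instances apply Int.leN) | (with_reducible_and_instances apply Int.ltN)
        | (with_reducible_and_instances apply Int.le) | (with_reducible_and_instances apply Int.lt)
        | (with_reducible_and_instances apply IntF.add) | (with_reducible_and_instances apply IntF.sub)
        | (with_reducible_and_instances apply IntF.mul) | (with_reducible_and_instances apply IntF.neg)
        | (with_reducible_and_instances apply IntF.div) | (with_reducible_and_instances apply IntF.inv)
        | (with_reducible apply IntF.pair) | (with_reducible apply IntF.succ) | (with_reducible apply IntF.sep)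
        | (with_reducible apply IntF.insert) | (with_reducible apply IntF.singleton)
        | (with_reducible ((refine IntF.comp₂ ?_ ?_ ?_); assumption))
        | (with_reducible ((refine Int.comp₂ ?_ ?_ ?_); assumption))
        | (with_reducible ((refine IntF.comp ?_ ?_); assumption))
        | (with_reducible ((refine Int.comp ?_ ?_); assumption))
        | (with_reducible apply IntF.app)))
  obtain ⟨F, hF, hFC, hF'⟩ := h.comp (sep M _) (fun V hV => by
    obtain ⟨U, hU⟩ := (mem_sep h2).1 hV
    exact ((hP' _).1 hU).2.1) (fun x => by
    obtain ⟨U, hU, hx⟩ := hc x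
    obtain ⟨V, W, h3, h4, h5, h6, h7⟩ := regular hq h (hC U hU) hx
    exact ⟨V, (mem_sep h2).2 ⟨U, (hP' _).2 ⟨hU, h3, W, h4, h6, h7⟩⟩, h5⟩)
  have h3 : Int M (fun t : IPow M α × IPow M (IPow M α × IPow M α) => IFin t.2 ∧ t.2 ⊆ P ∧
    ∃ U, (t.1, U) ∈ t.2) := (by
        (repeat' first
          | (with_reducible assumption)
          | (with_reducible exact IntF.id) | (with_reducible exact IntF.fst')
          | (with_reducible exact IntF.snd') | (with_reducible exact IntF.const _)
          | (with_reducible exact Int.const _)
          | (with_reducible apply IntF.fst) | (with_reducible apply IntF.snd)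
          | (with_reducible apply Int.and) | (with_reducible apply Int.or) | (with_reducible apply Int.not)
          | (with_reducible apply Int.ne) | (with_reducible apply Int.iff) | (with_reducible apply Int.imp)
          | (with_reducible apply Int.ex) | (with_reducible apply Int.all) | (with_reducible apply Int.eq)
          | (with_reducible apply Int.mem) | (with_reducible apply Int.subset) | (with_reducible apply Int.fin)
          | (with_reducible_and_instances apply Int.leN) | (with_reducible_and_instances apply Int.ltN)
          | (with_reducible_and_instances apply Int.le) | (with_reducible_and_instances apply Int.lt)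
          | (with_reducible_and_instances apply IntF.add) | (with_reducible_and_instances apply IntF.sub)
          | (with_reducible_and_instances apply IntF.mul) | (with_reducible_and_instances apply IntF.neg)
          | (with_reducible_and_instances apply IntF.div) | (with_reducible_and_instances apply IntF.inv)
          | (with_reducible apply IntF.pair) | (with_reducible apply IntF.succ) | (with_reducible apply IntF.sep)
          | (with_reducible apply IntF.insert) | (with_reducible apply IntF.singleton)
          | (with_reducible ((refine IntF.comp₂ ?_ ?_ ?_); assumption))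
          | (with_reducible ((refine Int.comp₂ ?_ ?_ ?_); assumption))
          | (with_reducible ((refine IntF.comp ?_ ?_); assumption))
          | (with_reducible ((refine Int.comp ?_ ?_); assumption))
          | (with_reducible apply IntF.app)))
  obtain ⟨G, hG⟩ := IFin.exists_bound (r := fun V (G : IPow M (IPow M α × IPow M α)) =>
    IFin G ∧ G ⊆ P ∧ ∃ U, (V, U) ∈ G) h3 (fun G G' => by
      by_cases h4 : IFin G ∧ G ⊆ P
      · by_cases h5 : IFin G' ∧ G' ⊆ P
        · refine ⟨G ∪ G', fun V h6 => ⟨h4.1.union h5.1, fun p hp => ?_, ?_⟩⟩
          · rcases mem_union.1 hp with h7 | h7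
            · exact h4.2 p h7
            · exact h5.2 p h7
          · rcases h6 with ⟨-, -, U, hU⟩ | ⟨-, -, U, hU⟩
            · exact ⟨U, mem_union.2 (Or.inl hU)⟩
            · exact ⟨U, mem_union.2 (Or.inr hU)⟩
        · exact ⟨G, fun V h6 => h6.elim id fun h7 => absurd ⟨h7.1, h7.2.1⟩ h5⟩
      · exact ⟨G', fun V h6 => h6.elim (fun h7 => absurd ⟨h7.1, h7.2.1⟩ h4) id⟩) ⟨∅⟩ hF
    fun V hV => by
      obtain ⟨U, hU⟩ := (mem_sep h2).1 (hFC V hV)
      refine ⟨{(V, U)}, IFin.singleton _, fun p hp => ?_, U, mem_singleton.2 rfl⟩
      rw [mem_singleton.1 hp]
      exact hU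
  by_cases hne : ∃ V, V ∈ F
  swap
  · refine ⟨C, hC, hc, fun y => ?_⟩
    obtain ⟨V, hV, -⟩ := hF' y
    exact absurd ⟨V, hV⟩ hne
  obtain ⟨V₀, hV₀⟩ := hne
  obtain ⟨hGf, hGP, -⟩ := hG V₀ hV₀
  have h4 : Int M (fun O : IPow M α => OpenQ q O ∧ ∀ V U, (V, U) ∈ G → (∀ z, z ∈ O → z ∈ U) ∨
    ∀ z, z ∈ O → ¬ z ∈ V) := (by
        (repeat' first
          | (with_reducible (refine int_openQ hq ?_))
          | (with_reducible assumption)
          | (with_reducible exact IntF.id) | (with_reducible exact IntF.fst')
          | (with_reducible exact IntF.snd') | (with_reducible exact IntF.const _)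
          | (with_reducible exact Int.const _)
          | (with_reducible apply IntF.fst) | (with_reducible apply IntF.snd)
          | (with_reducible apply Int.and) | (with_reducible apply Int.or) | (with_reducible apply Int.not)
          | (with_reducible apply Int.ne) | (with_reducible apply Int.iff) | (with_reducible apply Int.imp)
          | (with_reducible apply Int.ex) | (with_reducible apply Int.all) | (with_reducible apply Int.eq)
          | (with_reducible apply Int.mem) | (with_reducible apply Int.subset) | (with_reducible apply Int.fin)
          | (with_reducible_and_instances apply Int.leN) | (with_reducible_and_instances apply Int.ltN)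
          | (with_reducible_and_instances apply Int.le) | (with_reducible_and_instances apply Int.lt)
          | (with_reducible_and_instances apply IntF.add) | (with_reducible_and_instances apply IntF.sub)
          | (with_reducible_and_instances apply IntF.mul) | (with_reducible_and_instances apply IntF.neg)
          | (with_reducible_and_instances apply IntF.div) | (with_reducible_and_instances apply IntF.inv)
          | (with_reducible apply IntF.pair) | (with_reducible apply IntF.succ) | (with_reducible apply IntF.sep)
          | (with_reducible apply IntF.insert) | (with_reducible apply IntF.singleton)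
          | (with_reducible ((refine IntF.comp₂ ?_ ?_ ?_); assumption))
          | (with_reducible ((refine Int.comp₂ ?_ ?_ ?_); assumption))
          | (with_reducible ((refine IntF.comp ?_ ?_); assumption))
          | (with_reducible ((refine Int.comp ?_ ?_); assumption))
          | (with_reducible apply IntF.app)))
  refine ⟨sep M _, fun O hO => ((mem_sep h4).1 hO).1, fun x => ?_, fun y => ?_⟩
  · have h5 : Int M (fun t : (IPow M α × IPow M α) × IPow M α => OpenQ q t.2 ∧ x ∈ t.2 ∧
      ((∀ z, z ∈ t.2 → z ∈ t.1.2) ∨ ∀ z, z ∈ t.2 → ¬ z ∈ t.1.1)) := (by
          (repeat' first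
            | (with_reducible (refine int_openQ hq ?_))
            | (with_reducible assumption)
            | (with_reducible exact IntF.id) | (with_reducible exact IntF.fst')
            | (with_reducible exact IntF.snd') | (with_reducible exact IntF.const _)
            | (with_reducible exact Int.const _)
            | (with_reducible apply IntF.fst) | (with_reducible apply IntF.snd)
            | (with_reducible apply Int.and) | (with_reducible apply Int.or) | (with_reducible apply Int.not)
            | (with_reducible apply Int.ne) | (with_reducible apply Int.iff) | (with_reducible apply Int.imp)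
            | (with_reducible apply Int.ex) | (with_reducible apply Int.all) | (with_reducible apply Int.eq)
            | (with_reducible apply Int.mem) | (with_reducible apply Int.subset) | (with_reducible apply Int.fin)
            | (with_reducible_and_instances apply Int.leN) | (with_reducible_and_instances apply Int.ltN)
            | (with_reducible_and_instances apply Int.le) | (with_reducible_and_instances apply Int.lt)
            | (with_reducible_and_instances apply IntF.add) | (with_reducible_and_instances apply IntF.sub)
            | (with_reducible_and_instances apply IntF.mul) | (with_reducible_and_instances apply IntF.neg)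
            | (with_reducible_and_instances apply IntF.div) | (with_reducible_and_instances apply IntF.inv)
            | (with_reducible apply IntF.pair) | (with_reducible apply IntF.succ) | (with_reducible apply IntF.sep)
            | (with_reducible apply IntF.insert) | (with_reducible apply IntF.singleton)
            | (with_reducible ((refine IntF.comp₂ ?_ ?_ ?_); assumption))
            | (with_reducible ((refine Int.comp₂ ?_ ?_ ?_); assumption))
            | (with_reducible ((refine IntF.comp ?_ ?_); assumption))
            | (with_reducible ((refine Int.comp ?_ ?_); assumption))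
            | (with_reducible apply IntF.app)))
    have h6 : ∃ O : IPow M α, ∀ p, p ∈ G → OpenQ q O ∧ x ∈ O ∧
      ((∀ z, z ∈ O → z ∈ p.2) ∨ ∀ z, z ∈ O → ¬ z ∈ p.1) := by
      refine IFin.exists_bound (r := fun (p : IPow M α × IPow M α) (O : IPow M α) => OpenQ q O ∧
        x ∈ O ∧ ((∀ z, z ∈ O → z ∈ p.2) ∨ ∀ z, z ∈ O → ¬ z ∈ p.1)) h5 (fun O O' => ?_) ⟨∅⟩ hGf
        fun p hp => ?_
      · by_cases h6 : OpenQ q O ∧ x ∈ O
        · by_cases h7 : OpenQ q O' ∧ x ∈ O'
          · refine ⟨O ∩ O', fun p h8 => ⟨openQ_inter h6.1 h7.1, mem_inter.2 ⟨h6.2, h7.2⟩, ?_⟩⟩
            rcases h8 with ⟨-, -, h8⟩ | ⟨-, -, h8⟩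
            · exact h8.imp (fun h9 z hz => h9 z (mem_inter.1 hz).1)
                fun h9 z hz => h9 z (mem_inter.1 hz).1
            · exact h8.imp (fun h9 z hz => h9 z (mem_inter.1 hz).2)
                fun h9 z hz => h9 z (mem_inter.1 hz).2
          · exact ⟨O, fun p h8 => h8.elim id fun h9 => absurd ⟨h9.1, h9.2.1⟩ h7⟩
        · exact ⟨O', fun p h8 => h8.elim (fun h9 => absurd ⟨h9.1, h9.2.1⟩ h6) id⟩
      · obtain ⟨hU, hV, W, hW, h6, h7⟩ := (hP' p).1 (hGP p hp)
        rcases h7 x with h8 | h8
        · exact ⟨p.2, hC _ hU, h8, Or.inl fun z hz => hz⟩
        · exact ⟨W, hW, h8, Or.inr fun z hz hz' => h6 z hz' hz⟩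
    obtain ⟨O, hO⟩ := h6
    obtain ⟨-, -, U₀, hU₀⟩ := hG V₀ hV₀
    obtain ⟨h7, h8, -⟩ := hO _ hU₀
    exact ⟨O, (mem_sep h4).2 ⟨h7, fun V U hVU => (hO _ hVU).2.2⟩, h8⟩
  · obtain ⟨V, hV, hy⟩ := hF' y
    obtain ⟨-, -, U, hU⟩ := hG V hV
    refine ⟨U, ((hP' _).1 (hGP _ hU)).1, fun O hO hyO z hz => ?_⟩
    rcases ((mem_sep h4).1 hO).2 V U hU with h5 | h5
    · exact h5 z hz
    · exact absurd hy (h5 y hyO)

/-- The uniform structure. -/
theorem exists_next (h : CH M q) {r : ρ} (hr : 0 < r) : ∃ s : ρ, 0 < s ∧
    ∀ y, ∃ z', ∀ z, q z y < s → ∀ w, q z w < s → q z' w < r := by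
  have h1 : Int M (fun V : IPow M α => ∃ z, ∀ y, (y ∈ V ↔ q z y < r)) := (by
      (repeat' first
        | (with_reducible assumption)
        | (with_reducible exact IntF.id) | (with_reducible exact IntF.fst')
        | (with_reducible exact IntF.snd') | (with_reducible exact IntF.const _)
        | (with_reducible exact Int.const _)
        | (with_reducible apply IntF.fst) | (with_reducible apply IntF.snd)
        | (with_reducible apply Int.and) | (with_reducible apply Int.or) | (with_reducible apply Int.not)
        | (with_reducible apply Int.ne) | (with_reducible apply Int.iff) | (with_reducible apply Int.imp)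
        | (with_reducible apply Int.ex) | (with_reducible apply Int.all) | (with_reducible apply Int.eq)
        | (with_reducible apply Int.mem) | (with_reducible apply Int.subset) | (with_reducible apply Int.fin)
        | (with_reducible_and_instances apply Int.leN) | (with_reducible_and_instances apply Int.ltN)
        | (with_reducible_and_instances apply Int.le) | (with_reducible_and_instances apply Int.lt)
        | (with_reducible_and_instances apply IntF.add) | (with_reducible_and_instances apply IntF.sub)
        | (with_reducible_and_instances apply IntF.mul) | (with_reducible_and_instances apply IntF.neg)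
        | (with_reducible_and_instances apply IntF.div) | (with_reducible_and_instances apply IntF.inv)
        | (with_reducible apply IntF.pair) | (with_reducible apply IntF.succ) | (with_reducible apply IntF.sep)
        | (with_reducible apply IntF.insert) | (with_reducible apply IntF.singleton)
        | (with_reducible ((refine IntF.comp₂ ?_ ?_ ?_); assumption))
        | (with_reducible ((refine Int.comp₂ ?_ ?_ ?_); assumption))
        | (with_reducible ((refine IntF.comp ?_ ?_); assumption))
        | (with_reducible ((refine Int.comp ?_ ?_); assumption))
        | (with_reducible apply IntF.app)))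
  obtain ⟨D, hD, hD', hD2⟩ := bary hq h (sep M _) (fun V hV => by
    obtain ⟨z, hz⟩ := (mem_sep h1).1 hV
    intro x hx
    obtain ⟨e, he, h2⟩ := openQ_ball hq h.qm z r x ((mem_ball hq).2 ((hz x).1 hx))
    exact ⟨e, he, fun y hy => (hz y).2 ((mem_ball hq).1 (h2 y hy))⟩) fun x =>
      ⟨ball M q x r, (mem_sep h1).2 ⟨x, fun y => mem_ball hq⟩, (mem_ball hq).2 (by
        rwa [h.qm.self])⟩
  obtain ⟨s, hs, h2⟩ := lebesgue hq h D hD hD'
  refine ⟨s, hs, fun y => ?_⟩
  obtain ⟨U, hU, h3⟩ := hD2 y
  obtain ⟨z', hz'⟩ := (mem_sep h1).1 hU
  refine ⟨z', fun z hz w hw => ?_⟩
  obtain ⟨O, hO, h4⟩ := h2 z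
  exact (hz' w).1 (h3 O hO (h4 y hz) w (h4 w hw))

end

end Pool.Agent.Helper672.ZFA.QM
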